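import Pool.Agent.Y966.UB.Defs
import Pool.Agent.H377R2.NK.Zsub

/-! Basic properties of the martingale of a block alphabet. -/

set_option autoImplicit false
set_option linter.unusedVariables false

namespace Pool.Agent.Y966.UB

open Finset Pool.Agent.H320R2.PD Pool.Agent.H377R2.NK

section Basic

variable {p : ℕ} {W : Alph}

theorem append_eq {u v : List ℕ} {x : ℤ}
    (hu : (p : ℤ) ^ u.length ∣ 2 ^ u.sum * x - Wp p u) :
    (2 : ℤ) ^ (u ++ v).sum * x - Wp p (u ++ v) =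
      (p : ℤ) ^ u.length * (2 ^ v.sum * en p u x - Wp p v) := by
  have h1 : (p : ℤ) ^ u.length * en p u x = 2 ^ u.sum * x - Wp p u := by
    unfold en
    exact Int.mul_ediv_cancel' hu
  rw [Wp_append, List.sum_append, pow_add]
  push_cast
  have : (2 : ℤ) ^ u.sum * 2 ^ v.sum * x - (2 ^ v.sum * (Wp p u : ℤ) + (p : ℤ) ^ u.length * Wp p v) =
      2 ^ v.sum * (2 ^ u.sum * x - Wp p u) - (p : ℤ) ^ u.length * Wp p v := by ring
  rw [this, ← h1]
  ring

theorem valid_append_iff (hp : Odd p) {u v : List ℕ} {x : ℤ} :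
    ((p : ℤ) ^ (u ++ v).length ∣ 2 ^ (u ++ v).sum * x - Wp p (u ++ v)) ↔
    ((p : ℤ) ^ u.length ∣ 2 ^ u.sum * x - Wp p u) ∧
      ((p : ℤ) ^ v.length ∣ 2 ^ v.sum * en p u x - Wp p v) := by
  have hp0 : (p : ℤ) ≠ 0 := by
    have := hp.pos
    exact_mod_cast (by omega : p ≠ 0)
  constructor
  · intro h
    have hu : (p : ℤ) ^ u.length ∣ 2 ^ u.sum * x - Wp p u := by
      have h1 : (p : ℤ) ^ u.length ∣ 2 ^ (u ++ v).sum * x - Wp p (u ++ v) := by
        refine dvd_trans ?_ h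
        rw [List.length_append, pow_add]
        exact Dvd.intro _ rfl
      have h2 : (2 : ℤ) ^ (u ++ v).sum * x - Wp p (u ++ v) =
          2 ^ v.sum * (2 ^ u.sum * x - Wp p u) - (p : ℤ) ^ u.length * Wp p v := by
        rw [Wp_append, List.sum_append, pow_add]
        push_cast
        ring
      rw [h2] at h1
      have h3 : (p : ℤ) ^ u.length ∣ 2 ^ v.sum * (2 ^ u.sum * x - Wp p u) := by
        have := dvd_add h1 (Dvd.intro (Wp p v : ℤ) rfl : (p : ℤ) ^ u.length ∣ (p : ℤ) ^ u.length * Wp p v)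
        rwa [sub_add_cancel] at this
      have hcop : IsCoprime ((p : ℤ) ^ u.length) ((2 : ℤ) ^ v.sum) := by
        apply IsCoprime.pow
        rw [Int.isCoprime_iff_gcd_eq_one]
        have : Nat.Coprime p 2 := (Nat.coprime_two_right).2 hp
        exact_mod_cast this
      exact hcop.dvd_of_dvd_mul_left h3
    refine ⟨hu, ?_⟩
    rw [append_eq (v := v) hu, List.length_append, pow_add] at h
    exact (mul_dvd_mul_iff_left (pow_ne_zero _ hp0)).1 h
  · rintro ⟨hu, hv⟩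
    exact (en_append hp hu hv).1

theorem VB_zero (x : ℤ) : VB p W 0 x = {[]} := by
  ext w
  rw [mem_VB]
  unfold Bw
  rw [mem_singleton]
  constructor
  · rintro ⟨h, _⟩; exact h
  · rintro rfl; simp

theorem DB_zero (x : ℤ) : DB p W 0 x = 1 := by
  unfold DB
  rw [VB_zero]
  simp [zw]

theorem DB_nonneg (hp : 1 ≤ p) (n : ℕ) (x : ℤ) : 0 ≤ DB p W n x :=
  sum_nonneg (fun w _ => zw_nonneg hp _)

theorem DB_shift (n : ℕ) (x y : ℤ) : DB p W n (x + (p : ℤ) ^ (W.b * n) * y) = DB p W n x := by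
  unfold DB
  rw [VB_shift]

/-- a shift by a multiple of a higher power -/
theorem DB_shift' {n N : ℕ} (h : W.b * n ≤ N) (x y : ℤ) :
    DB p W n (x + (p : ℤ) ^ N * y) = DB p W n x := by
  obtain ⟨c, rfl⟩ := Nat.exists_eq_add_of_le h
  rw [pow_add, mul_assoc, DB_shift]

/-- splitting after `k` blocks -/
theorem DB_add (hp : Odd p) (k m : ℕ) (x : ℤ) :
    DB p W (k + m) x = ∑ w ∈ VB p W k x, zw p W w * DB p W m (en p w x) := by
  classical
  unfold DB VB
  rw [Finset.sum_filter, sum_Bw_add, Finset.sum_filter]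
  apply Finset.sum_congr rfl
  intro u hu
  have hul := len_Bw hu
  by_cases h : (p : ℤ) ^ (W.b * k) ∣ 2 ^ u.sum * x - Wp p u
  · rw [if_pos h, Finset.mul_sum, Finset.sum_filter]
    apply Finset.sum_congr rfl
    intro v hv
    have hvl := len_Bw hv
    have hiff := valid_append_iff hp (u := u) (v := v) (x := x)
    rw [List.length_append, hul, hvl, ← mul_add] at hiff
    by_cases h2 : (p : ℤ) ^ (W.b * m) ∣ 2 ^ v.sum * en p u x - Wp p v
    · rw [if_pos (hiff.2 ⟨h, h2⟩), if_pos h2, zw_append]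
    · rw [if_neg (fun hh => h2 (hiff.1 hh).2), if_neg h2]
  · rw [if_neg h]
    apply Finset.sum_eq_zero
    intro v hv
    have hvl := len_Bw hv
    have hiff := valid_append_iff hp (u := u) (v := v) (x := x)
    rw [List.length_append, hul, hvl, ← mul_add] at hiff
    rw [if_neg (fun hh => h (hiff.1 hh).1)]

theorem sum_zw (hp : 1 ≤ p) (n : ℕ) : ∑ w ∈ Bw W n, zw p W w = ((p : ℝ) ^ W.b) ^ n := by
  rw [sum_mult (fun w => zw p W w) (by simp [zw]) (fun u v => zw_append u v), sum_zw_U]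

theorem DB_one_le (hp : 1 ≤ p) (x : ℤ) : DB p W 1 x ≤ (p : ℝ) ^ W.b := by
  have h1 : DB p W 1 x ≤ ∑ w ∈ Bw W 1, zw p W w := by
    unfold DB VB
    exact Finset.sum_le_sum_of_subset_of_nonneg (Finset.filter_subset _ _)
      (fun w _ _ => zw_nonneg hp _)
  rw [sum_zw hp, pow_one] at h1
  exact h1

theorem DB_succ_le (hp : Odd p) (n : ℕ) (x : ℤ) :
    DB p W (n + 1) x ≤ (p : ℝ) ^ W.b * DB p W n x := by
  rw [DB_add hp]
  have : (p : ℝ) ^ W.b * DB p W n x = ∑ w ∈ VB p W n x, zw p W w * (p : ℝ) ^ W.b := by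
    unfold DB
    rw [Finset.mul_sum]
    exact Finset.sum_congr rfl (fun w _ => mul_comm _ _)
  rw [this]
  apply Finset.sum_le_sum
  intro w _
  exact mul_le_mul_of_nonneg_left (DB_one_le hp.pos _) (zw_nonneg hp.pos _)

theorem DB_add_le (hp : Odd p) (i j : ℕ) (x : ℤ) :
    DB p W (i + j) x ≤ ((p : ℝ) ^ W.b) ^ j * DB p W i x := by
  induction j with
  | zero => simp
  | succ j ih =>
    have h1 := DB_succ_le (W := W) hp (i + j) x
    have h2 : (p : ℝ) ^ W.b * DB p W (i + j) x ≤ (p : ℝ) ^ W.b * (((p : ℝ) ^ W.b) ^ j * DB p W i x) :=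
      mul_le_mul_of_nonneg_left ih (by positivity)
    calc DB p W (i + (j + 1)) x = DB p W (i + j + 1) x := by rw [Nat.add_assoc]
      _ ≤ (p : ℝ) ^ W.b * DB p W (i + j) x := h1
      _ ≤ (p : ℝ) ^ W.b * (((p : ℝ) ^ W.b) ^ j * DB p W i x) := h2
      _ = ((p : ℝ) ^ W.b) ^ (j + 1) * DB p W i x := by ring

theorem DB_le (hp : Odd p) (n : ℕ) (x : ℤ) : DB p W n x ≤ ((p : ℝ) ^ W.b) ^ n := by
  have h := DB_add_le (W := W) hp 0 n x
  rw [DB_zero, mul_one, Nat.zero_add] at h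
  exact h

/-- total mass -/
theorem DB_total (hp : Odd p) (n : ℕ) :
    ∑ x ∈ range (p ^ (W.b * n)), DB p W n (x : ℤ) = (p : ℝ) ^ (W.b * n) := by
  classical
  rw [pow_mul (p : ℝ), ← sum_zw hp.pos]
  have e1 : ∀ x : ℕ, DB p W n (x : ℤ) = ∑ w ∈ Bw W n,
      (zw p W w * if (p : ℤ) ^ (W.b * n) ∣ 2 ^ w.sum * (x : ℤ) - Wp p w then (1 : ℝ) else 0) := by
    intro x
    unfold DB VB
    rw [sum_filter]
    refine sum_congr rfl fun w _ => ?_
    split_ifs <;> simp
  simp only [e1]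
  rw [sum_comm]
  refine sum_congr rfl fun w _ => ?_
  rw [← mul_sum, U4_count hp, mul_one]

theorem U4_DB_eq (hp : Odd p) (i l : ℕ) (x : ℤ) (v : ℤ) :
    DB p W (i + l) (x + (p : ℤ) ^ (W.b * i) * v) =
      ∑ w ∈ VB p W i x, zw p W w * DB p W l (en p w x + 2 ^ w.sum * v) := by
  rw [DB_add hp, VB_shift]
  refine sum_congr rfl fun w hw => ?_
  have hl : w.length = W.b * i := len_Bw (mem_VB.1 hw).1
  have h := en_shift (U4_one_le hp) (w := w) x v
  rw [hl] at h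
  rw [h]

theorem U4_sum_aff (hp : Odd p) (l s : ℕ) (c : ℤ) (F : ℝ → ℝ) :
    ∑ v ∈ range (p ^ (W.b * l)), F (DB p W l (c + 2 ^ s * (v : ℤ))) =
      ∑ v ∈ range (p ^ (W.b * l)), F (DB p W l (v : ℤ)) :=
  sum_affine (U4_one_le hp) (W.b * l) (2 ^ s) c (U4_coprime hp s) (h := fun x => F (DB p W l x))
    (fun x y => by simp only [DB_shift])

theorem DB_lift (hp : Odd p) (i l : ℕ) (x : ℤ) :
    ∑ v ∈ range (p ^ (W.b * l)), DB p W (i + l) (x + (p : ℤ) ^ (W.b * i) * v) =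
      (p : ℝ) ^ (W.b * l) * DB p W i x := by
  simp only [U4_DB_eq hp]
  rw [sum_comm]
  unfold DB
  rw [mul_sum]
  refine sum_congr rfl fun w _ => ?_
  rw [← mul_sum, mul_comm]
  congr 1
  have h := U4_sum_aff (W := W) hp l w.sum (en p w x) (fun y => y)
  have h2 := DB_total (W := W) hp l
  unfold DB at h h2
  rw [h, h2]

theorem Zb_nonneg (hp : 1 ≤ p) (n q : ℕ) : 0 ≤ Zb p W n q :=
  sum_nonneg fun x _ => pow_nonneg (DB_nonneg hp n x) q

theorem DB_lift_pow (hp : Odd p) {q : ℕ} (hq : 1 ≤ q) (i l : ℕ) (x : ℤ) :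
    ∑ v ∈ range (p ^ (W.b * l)), DB p W (i + l) (x + (p : ℤ) ^ (W.b * i) * v) ^ q
      ≤ DB p W i x ^ q * Zb p W l q := by
  simp only [U4_DB_eq hp]
  have h := U4_mink (VB p W i x) (range (p ^ (W.b * l))) (fun w => zw p W w) (fun _ => 1)
    (fun w v => DB p W l (en p w x + 2 ^ w.sum * (v : ℤ))) (Zb p W l q)
    (fun w _ => zw_nonneg hp.pos _) (fun _ _ => zero_le_one)
    (fun w _ v _ => DB_nonneg hp.pos l _) hq
    (fun w _ => by
      rw [one_pow, one_mul]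
      exact (U4_sum_aff hp l w.sum (en p w x) (fun y => y ^ q)).le) (Zb_nonneg hp.pos l q)
  simp only [mul_one] at h
  exact h

theorem Zb_sub (hp : Odd p) {q : ℕ} (hq : 1 ≤ q) (k m : ℕ) :
    Zb p W (k + m) q ≤ Zb p W k q * Zb p W m q := by
  have e1 : Zb p W (k + m) q = ∑ x ∈ range (p ^ (W.b * k)), ∑ v ∈ range (p ^ (W.b * m)),
      DB p W (k + m) ((x : ℤ) + (p : ℤ) ^ (W.b * k) * (v : ℤ)) ^ q := by
    unfold Zb
    rw [mul_add, pow_add, U4_split]
    refine sum_congr rfl fun x _ => sum_congr rfl fun v _ => ?_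
    push_cast
    rfl
  rw [e1]
  calc _ ≤ ∑ x ∈ range (p ^ (W.b * k)), DB p W k (x : ℤ) ^ q * Zb p W m q :=
        sum_le_sum fun x _ => DB_lift_pow hp hq k m x
    _ = Zb p W k q * Zb p W m q := by rw [← sum_mul]; rfl

/-- lower bound of the moments by the mean -/
theorem Zb_ge_mean (hp : Odd p) {q : ℕ} (hq : 1 ≤ q) (n : ℕ) :
    (p : ℝ) ^ (W.b * n) ≤ Zb p W n q := by
  have hp1 : 1 ≤ p := hp.pos
  have hpn : (0 : ℝ) < (p : ℝ) ^ (W.b * n) := by
    have : (0 : ℝ) < p := by exact_mod_cast hp1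
    positivity
  have hj := jensen_pow (range (p ^ (W.b * n))) (fun _ => (1 : ℝ)) (fun x => DB p W n (x : ℤ))
    (fun _ _ => zero_le_one) (fun x _ => DB_nonneg hp1 n _) hq
  simp only [one_mul, Finset.sum_const, Finset.card_range, nsmul_eq_mul, mul_one] at hj
  rw [DB_total hp] at hj
  have e1 : ((p ^ (W.b * n) : ℕ) : ℝ) = (p : ℝ) ^ (W.b * n) := by push_cast; rfl
  rw [e1] at hj
  have hZ : ∑ i ∈ range (p ^ (W.b * n)), DB p W n (i : ℤ) ^ q = Zb p W n q := rfl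
  rw [hZ] at hj
  have e2 : ((p : ℝ) ^ (W.b * n)) ^ q =
      ((p : ℝ) ^ (W.b * n)) ^ (q - 1) * (p : ℝ) ^ (W.b * n) := by
    rw [← pow_succ]; congr 1; omega
  rw [e2] at hj
  exact le_of_mul_le_mul_left hj (by positivity)

theorem Zb_pos (hp : Odd p) {q : ℕ} (hq : 1 ≤ q) (n : ℕ) : 0 < Zb p W n q := by
  have hp1 : (0 : ℝ) < p := by exact_mod_cast hp.pos
  exact lt_of_lt_of_le (by positivity) (Zb_ge_mean hp hq n)

end Basic

end Pool.Agent.Y966.UB
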