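import Pool.Agent.Y966.LD.Low

/-!
Many starting points with a straight trajectory to `x`: concatenation of typical blocks.
-/

set_option autoImplicit false
set_option linter.unusedVariables false

namespace Pool.Agent.Y966.UB

open Finset Pool.Agent.H395R2.G3
open Pool.Agent.Y966.LD

/-- prefix windows -/
def Pref (r δ C : ℝ) (k : ℕ) (m : ℤ) : Prop :=
  ∀ t, t ≤ k → |(oc t m : ℝ) - r * t| ≤ δ * t + C

/-- all windows -/
def Wind (r δ C : ℝ) (k : ℕ) (m : ℤ) : Prop :=
  ∀ t t', t + t' ≤ k → |(oc t' (TZ^[t] m) : ℝ) - r * t'| ≤ δ * t' + 2 * C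

theorem triv {r C : ℝ} (h0 : 0 < r) (h1 : r < 1) {t s : ℕ} (hts : t ≤ s) (hsC : (s : ℝ) ≤ C)
    (m : ℤ) : |(oc t m : ℝ) - r * t| ≤ C := by
  have h2 : (oc t m : ℝ) ≤ t := by exact_mod_cast oc_le t m
  have h3 : (t : ℝ) ≤ s := by exact_mod_cast hts
  have h4 : (0 : ℝ) ≤ t := Nat.cast_nonneg t
  have h5 : (0 : ℝ) ≤ oc t m := Nat.cast_nonneg _
  have h6 : r * t ≤ 1 * t := mul_le_mul_of_nonneg_right h1.le h4
  have h7 : 0 ≤ r * t := by positivity
  rw [abs_le]
  constructor <;> linarith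

/-- the blocks above a point -/
def Bl (s n : ℕ) (x : ℤ) : Set ℤ := {m : ℤ | TZ^[s] m = x ∧ oc s m = n ∧ m % 2 = 1 ∧
  ¬ (3 : ℤ) ∣ m ∧ (0 < x → 0 < m) ∧ (x < 0 → m < 0)}

theorem Bl_finite (s n : ℕ) (x : ℤ) : (Bl s n x).Finite :=
  (ncard_le_WO s n x).1.subset fun m hm => ⟨hm.1, hm.2.1⟩

theorem chain {r : ℝ} (h0 : 0 < r) (h1 : r < 1) (hF : 0 < FF r) {δ : ℝ} (hδ : 0 < δ) :
    ∃ n : ℕ, 1 ≤ n ∧ ∃ C : ℝ, 0 < C ∧ ∀ (x : ℤ), x % 2 = 1 → ¬ (3 : ℤ) ∣ x → 0 < x → ∀ j : ℕ,
      ∃ G : Finset ℤ, Real.exp ((FF r / r - δ) * (n * j)) ≤ (G.card : ℝ) ∧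
        ∀ m ∈ G, 0 < m ∧ m % 2 = 1 ∧ ¬ (3 : ℤ) ∣ m ∧ ∃ k : ℕ, TZ^[k] m = x ∧ oc k m = n * j ∧
          |(k : ℝ) - n * j / r| ≤ δ * (n * j) ∧ Pref r δ C k m ∧ Wind r δ C k m := by
  classical
  obtain ⟨n₀, hn₀⟩ := joint_lower h0 h1 hF hδ
  set n : ℕ := n₀ + 1 with hn
  have hn1 : 1 ≤ n := by omega
  have hnr : (0 : ℝ) < n := by exact_mod_cast hn1
  set C : ℝ := n / r + δ * n with hC
  have hC0 : 0 < C := by positivity
  refine ⟨n, hn1, C, hC0, fun x hx2 hx3 hx0 j => ?_⟩
  set κ : ℝ := Real.exp ((FF r / r - δ) * n) with hκ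
  have hκj : ∀ j : ℕ, Real.exp ((FF r / r - δ) * (n * j)) = κ ^ j := by
    intro j
    rw [hκ, ← Real.exp_nat_mul]
    congr 1
    ring
  rw [hκj]
  induction j with
  | zero =>
    refine ⟨{x}, by simp, ?_⟩
    intro m hm
    rw [mem_singleton] at hm
    subst hm
    refine ⟨hx0, hx2, hx3, 0, rfl, by simp [oc_zero], by simp, ?_, ?_⟩
    · intro t ht
      have : t = 0 := by omega
      subst this
      simp [oc_zero, hC0.le]
    · intro t t' ht
      have : t' = 0 := by omega
      subst this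
      simp [oc_zero, hC0.le]
  | succ j ih =>
    obtain ⟨G, hG1, hG2⟩ := ih
    -- the blocks
    have hblk : ∀ m₁ : ℤ, ∃ s : ℕ, m₁ ∈ G → (|(s : ℝ) - n / r| ≤ δ * n ∧
        κ ≤ ((Bl s n m₁).ncard : ℝ)) := by
      intro m₁
      by_cases hm : m₁ ∈ G
      · obtain ⟨s, hs⟩ := hn₀ n (by omega) m₁ (hG2 m₁ hm).2.2.1
        exact ⟨s, fun _ => hs⟩
      · exact ⟨0, fun h => absurd h hm⟩
    choose s hs using hblk
    set B : ℤ → Finset ℤ := fun m₁ => (Bl_finite (s m₁) n m₁).toFinset with hB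
    have hBcard : ∀ m₁ ∈ G, κ ≤ ((B m₁).card : ℝ) := by
      intro m₁ hm
      have := (hs m₁ hm).2
      rw [hB]
      simp only []
      rwa [Set.ncard_eq_toFinset_card _ (Bl_finite (s m₁) n m₁)] at this
    have hBmem : ∀ m₁ m : ℤ, m ∈ B m₁ → m ∈ Bl (s m₁) n m₁ := by
      intro m₁ m hm
      rw [hB] at hm
      simpa using hm
    have hdisj : Set.PairwiseDisjoint (G : Set ℤ) B := by
      have key : ∀ a ∈ G, ∀ b ∈ G, ∀ m, m ∈ B a → m ∈ B b → s a < s b → False := by
        intro a ha b hb m hma hmb hlt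
        obtain ⟨a1, a2, _⟩ := hBmem a m hma
        obtain ⟨b1, b2, _⟩ := hBmem b m hmb
        obtain ⟨c, hc⟩ := Nat.exists_eq_add_of_lt hlt
        rw [hc, Nat.add_assoc, oc_add, a1, a2, oc_succ', if_pos (hG2 a ha).2.1] at b2
        omega
      intro a ha b hb hab
      rw [Function.onFun, disjoint_left]
      intro m hma hmb
      rcases lt_trichotomy (s a) (s b) with h | h | h
      · exact key a ha b hb m hma hmb h
      · apply hab
        have e1 := (hBmem a m hma).1
        have e2 := (hBmem b m hmb).1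
        rw [h] at e1
        rw [← e1, e2]
      · exact key b hb a ha m hmb hma h
    refine ⟨G.biUnion B, ?_, ?_⟩
    · rw [card_biUnion hdisj]
      push_cast
      calc κ ^ (j + 1) = κ ^ j * κ := pow_succ _ _
        _ ≤ G.card * κ := mul_le_mul_of_nonneg_right hG1 (Real.exp_pos _).le
        _ = ∑ m₁ ∈ G, κ := by rw [sum_const, nsmul_eq_mul]
        _ ≤ ∑ m₁ ∈ G, ((B m₁).card : ℝ) := sum_le_sum hBcard
    · intro m hm
      obtain ⟨m₁, hm₁, hmB⟩ := mem_biUnion.1 hm
      obtain ⟨hs1, _⟩ := hs m₁ hm₁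
      obtain ⟨g1, g2, g3, g4, g5, _⟩ := hBmem m₁ m hmB
      obtain ⟨f0, f1, f2, k₁, f3, f4, f5, f6, f7⟩ := hG2 m₁ hm₁
      set σ := s m₁ with hσ
      have hσn : n ≤ σ := by
        have := oc_le σ m
        omega
      have hσn' : (n : ℝ) ≤ σ := by exact_mod_cast hσn
      have hσC : (σ : ℝ) ≤ C := by
        have := (abs_le.1 hs1).2
        rw [hC]
        linarith
      -- the full block
      have hfull : |(n : ℝ) - r * σ| ≤ δ * σ := by
        have e : (n : ℝ) - r * σ = -(r * (σ - n / r)) := by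
          field_simp
          ring
        rw [e, abs_neg, abs_mul, abs_of_pos h0]
        calc r * |(σ : ℝ) - n / r| ≤ 1 * (δ * n) := mul_le_mul h1.le hs1 (abs_nonneg _) (by norm_num)
          _ ≤ δ * σ := by
              rw [one_mul]
              exact mul_le_mul_of_nonneg_left hσn' hδ.le
      refine ⟨g5 f0, g3, g4, σ + k₁, ?_, ?_, ?_, ?_, ?_⟩
      · rw [add_comm, Function.iterate_add_apply, g1, f3]
      · rw [oc_add, g1, g2, f4]
        ring
      · have e : (((σ + k₁ : ℕ) : ℝ)) - n * ((j + 1 : ℕ) : ℝ) / r =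
            ((σ : ℝ) - n / r) + (k₁ - n * j / r) := by
          push_cast
          field_simp
          ring
        rw [e]
        refine (abs_add_le _ _).trans ?_
        push_cast
        linarith
      · intro t ht
        rcases Nat.lt_or_ge σ t with h | h
        · obtain ⟨t₁, rfl⟩ := Nat.exists_eq_add_of_lt h
          have e1 : oc (σ + t₁ + 1) m = n + oc (t₁ + 1) m₁ := by
            rw [Nat.add_assoc, oc_add, g1, g2]
          rw [e1]
          have h3 := f6 (t₁ + 1) (by omega)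
          have e2 : (((n + oc (t₁ + 1) m₁ : ℕ) : ℝ)) - r * ((σ + t₁ + 1 : ℕ) : ℝ) =
              (n - r * σ) + ((oc (t₁ + 1) m₁ : ℕ) - r * ((t₁ + 1 : ℕ) : ℝ)) := by
            push_cast
            ring
          rw [e2]
          refine (abs_add_le _ _).trans ?_
          push_cast at h3 ⊢
          linarith
        · have h3 := triv h0 h1 h hσC m
          have h4 : 0 ≤ δ * (t : ℝ) := by positivity
          linarith
      · intro t t' ht
        rcases Nat.lt_or_ge t σ with h | h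
        · rcases Nat.lt_or_ge σ (t + t') with h' | h'
          · -- crossing
            obtain ⟨c, rfl⟩ : ∃ c, t' = (σ - t) + c := ⟨t' - (σ - t), by omega⟩
            have e1 : oc ((σ - t) + c) (TZ^[t] m) = oc (σ - t) (TZ^[t] m) + oc c m₁ := by
              rw [oc_add, ← Function.iterate_add_apply]
              have : σ - t + t = σ := by omega
              rw [this, g1]
            rw [e1]
            have h3 := triv h0 h1 (show σ - t ≤ σ by omega) hσC (TZ^[t] m)
            have h4 := f6 c (by omega)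
            have e2 : (((oc (σ - t) (TZ^[t] m) + oc c m₁ : ℕ) : ℝ)) - r * (((σ - t) + c : ℕ) : ℝ) =
                ((oc (σ - t) (TZ^[t] m) : ℕ) - r * ((σ - t : ℕ) : ℝ)) +
                ((oc c m₁ : ℕ) - r * (c : ℝ)) := by
              push_cast
              ring
            rw [e2]
            refine (abs_add_le _ _).trans ?_
            have h5 : 0 ≤ δ * ((σ - t : ℕ) : ℝ) := by positivity
            push_cast at *
            linarith
          · have h3 := triv h0 h1 (show t' ≤ σ by omega) hσC (TZ^[t] m)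
            have h4 : 0 ≤ δ * (t' : ℝ) := by positivity
            linarith
        · obtain ⟨c, rfl⟩ := Nat.exists_eq_add_of_le h
          have e1 : TZ^[σ + c] m = TZ^[c] m₁ := by
            rw [add_comm, Function.iterate_add_apply, g1]
          rw [e1]
          exact f7 c t' (by omega)

end Pool.Agent.Y966.UB
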