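import Pool.Agent.H377R2.NK.Basic2

/-!
Inverse trees of the `3x+1` map along words which are concatenations of blocks from a finite
alphabet: definitions.  (Compare `Pool/Agent/H377R2/NK/Defs.lean`, `Pool/Agent/Y966/NQ/Defs.lean`.)
-/

set_option autoImplicit false
set_option linter.unusedVariables false

namespace Pool.Agent.Y966.UB

open Finset Pool.Agent.H320R2.PD Pool.Agent.H377R2.NK

/-- a finite alphabet of blocks of `b` letters, with the weight `z^{size}` of a block -/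
structure Alph where
  U : Finset (List ℕ)
  b : ℕ
  M : ℕ
  z : ℝ
  hz : 0 < z
  hb : 1 ≤ b
  ne : U.Nonempty
  len : ∀ u ∈ U, u.length = b
  pos : ∀ u ∈ U, ∀ e ∈ u, 1 ≤ e
  sz : ∀ u ∈ U, u.sum ≤ M * b

/-- concatenations of `n` blocks -/
def Bw (W : Alph) : ℕ → Finset (List ℕ)
  | 0 => {[]}
  | n + 1 => W.U.biUnion fun u => (Bw W n).image (fun v => u ++ v)

open scoped Classical in
/-- words of `n` blocks valid at `x` -/
noncomputable def VB (p : ℕ) (W : Alph) (n : ℕ) (x : ℤ) : Finset (List ℕ) :=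
  (Bw W n).filter fun w => (p : ℤ) ^ (W.b * n) ∣ 2 ^ w.sum * x - Wp p w

/-- total weight of the alphabet -/
noncomputable def SS (W : Alph) : ℝ := ∑ u ∈ W.U, W.z ^ u.sum

/-- the normalising factor of a letter -/
noncomputable def tt (p : ℕ) (W : Alph) : ℝ := (p : ℝ) * SS W ^ (-(1 / (W.b : ℝ)))

/-- the weight of a word -/
noncomputable def zw (p : ℕ) (W : Alph) (w : List ℕ) : ℝ := tt p W ^ w.length * W.z ^ w.sum

/-- the martingale (mean one) -/
noncomputable def DB (p : ℕ) (W : Alph) (n : ℕ) (x : ℤ) : ℝ := ∑ w ∈ VB p W n x, zw p W w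

/-- moment of order `q` -/
noncomputable def Zb (p : ℕ) (W : Alph) (n q : ℕ) : ℝ :=
  ∑ x ∈ range (p ^ (W.b * n)), DB p W n (x : ℤ) ^ q

/-- the growth rate of the sum of the `q`-th powers of the weights of the words -/
noncomputable def L1 (p : ℕ) (W : Alph) (q : ℕ) : ℝ :=
  Real.log (∑ u ∈ W.U, zw p W u ^ q)

open scoped Classical in
/-- the underlying set of the Gibbs law -/
noncomputable def Gs (p : ℕ) (W : Alph) (k m : ℕ) : Finset (ℕ × List ℕ) :=
  (range (p ^ (W.b * (k + m))) ×ˢ Bw W k).filter fun ω => ω.2 ∈ VB p W k (ω.1 : ℤ)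

/-- the Gibbs law -/
noncomputable def Gw (p : ℕ) (W : Alph) (k m q : ℕ) (ω : ℕ × List ℕ) : ℝ :=
  DB p W (k + m) (ω.1 : ℤ) ^ (q - 1) * (zw p W ω.2 * DB p W m (en p ω.2 (ω.1 : ℤ))) /
    Zb p W (k + m) q

/-- ratios of the martingale along windows of `W.b * l` digits -/
noncomputable def GR (p : ℕ) (W : Alph) (k m l : ℕ) (i : ℕ) (g : ℕ × ℕ) (y : ℤ) : ℝ :=
  DB p W (k + (i / W.b + l)) (Gr p (W.b * k) (W.b * m) g y) /
    ((p : ℝ) ^ W.b * DB p W (k + i / W.b) (Gr p (W.b * k) (W.b * m) g y))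

/-- the entropy defect of the Gibbs law -/
noncomputable def GE (p : ℕ) (W : Alph) (k m q : ℕ) : ℝ :=
  Real.log (Zb p W k q) + Real.log (Zb p W m q) - Real.log (Zb p W (k + m) q)

section

variable {p : ℕ} {W : Alph}

theorem card_pos (W : Alph) : (0 : ℝ) < W.U.card := by
  have := W.ne.card_pos
  exact_mod_cast this

theorem SS_pos (W : Alph) : 0 < SS W := sum_pos (fun u _ => pow_pos W.hz _) W.ne

theorem tt_pos (hp : 1 ≤ p) : 0 < tt p W := by
  have hp0 : (0 : ℝ) < p := by exact_mod_cast hp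
  have := SS_pos W
  unfold tt
  positivity

theorem tt_pow : tt p W ^ W.b = (p : ℝ) ^ W.b / SS W := by
  have hc := SS_pos W
  have hb : (0 : ℝ) < W.b := by exact_mod_cast W.hb
  unfold tt
  rw [mul_pow, ← Real.rpow_natCast ((SS W : ℝ) ^ (-(1 / (W.b : ℝ)))), ← Real.rpow_mul hc.le]
  have : -(1 / (W.b : ℝ)) * (W.b : ℝ) = -1 := by field_simp
  rw [this, Real.rpow_neg_one]
  rfl

theorem zw_pos (hp : 1 ≤ p) (w : List ℕ) : 0 < zw p W w :=
  mul_pos (pow_pos (tt_pos hp) _) (pow_pos W.hz _)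

theorem zw_nonneg (hp : 1 ≤ p) (w : List ℕ) : 0 ≤ zw p W w := (zw_pos hp w).le

theorem zw_append (u v : List ℕ) : zw p W (u ++ v) = zw p W u * zw p W v := by
  unfold zw
  rw [List.length_append, List.sum_append, pow_add, pow_add]
  ring

/-- the weight of a block -/
theorem zw_block {u : List ℕ} (hu : u ∈ W.U) : zw p W u = (p : ℝ) ^ W.b / SS W * W.z ^ u.sum := by
  unfold zw
  rw [W.len u hu, tt_pow]

theorem sum_zw_U : ∑ u ∈ W.U, zw p W u = (p : ℝ) ^ W.b := by
  rw [sum_congr rfl fun u hu => zw_block (p := p) hu, ← mul_sum]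
  have h : ∑ u ∈ W.U, W.z ^ u.sum = SS W := rfl
  rw [h, div_mul_cancel₀ _ (SS_pos W).ne']

theorem mem_Bw_succ {n : ℕ} {w : List ℕ} :
    w ∈ Bw W (n + 1) ↔ ∃ u ∈ W.U, ∃ v ∈ Bw W n, u ++ v = w := by
  have e : Bw W (n + 1) = W.U.biUnion fun u => (Bw W n).image (fun v => u ++ v) := rfl
  rw [e]
  simp only [mem_biUnion, mem_image]

theorem len_Bw {n : ℕ} : ∀ {w : List ℕ}, w ∈ Bw W n → w.length = W.b * n := by
  induction n with
  | zero => intro w hw; unfold Bw at hw; rw [mem_singleton] at hw; rw [hw]; simp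
  | succ n ih =>
    intro w hw
    obtain ⟨u, hu, v, hv, rfl⟩ := mem_Bw_succ.1 hw
    rw [List.length_append, W.len u hu, ih hv]; ring

theorem pos_Bw {n : ℕ} : ∀ {w : List ℕ}, w ∈ Bw W n → ∀ e ∈ w, 1 ≤ e := by
  induction n with
  | zero => intro w hw; unfold Bw at hw; rw [mem_singleton] at hw; rw [hw]; simp
  | succ n ih =>
    intro w hw e he
    obtain ⟨u, hu, v, hv, rfl⟩ := mem_Bw_succ.1 hw
    rcases List.mem_append.1 he with h | h
    · exact W.pos u hu e h
    · exact ih hv e h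

theorem sum_le_Bw {n : ℕ} : ∀ {w : List ℕ}, w ∈ Bw W n → w.sum ≤ W.M * (W.b * n) := by
  induction n with
  | zero => intro w hw; unfold Bw at hw; rw [mem_singleton] at hw; rw [hw]; simp
  | succ n ih =>
    intro w hw
    obtain ⟨u, hu, v, hv, rfl⟩ := mem_Bw_succ.1 hw
    rw [List.sum_append]
    have h1 := W.sz u hu
    have h2 := ih hv
    calc u.sum + v.sum ≤ W.M * W.b + W.M * (W.b * n) := add_le_add h1 h2
      _ = _ := by ring

theorem sum_Bw_succ {n : ℕ} (f : List ℕ → ℝ) :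
    ∑ w ∈ Bw W (n + 1), f w = ∑ u ∈ W.U, ∑ v ∈ Bw W n, f (u ++ v) := by
  have e : Bw W (n + 1) = W.U.biUnion fun u => (Bw W n).image (fun v => u ++ v) := rfl
  rw [e, sum_biUnion]
  · refine sum_congr rfl fun u hu => ?_
    rw [sum_image]
    intro v _ v' _ h
    exact List.append_cancel_left h
  · intro u hu u' hu' hne
    rw [Function.onFun, disjoint_left]
    intro w hw hw'
    obtain ⟨v, hv, rfl⟩ := mem_image.1 hw
    obtain ⟨v', hv', h⟩ := mem_image.1 hw'
    apply hne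
    have := (List.append_inj h (by rw [W.len u (mem_coe.1 hu), W.len u' (mem_coe.1 hu')])).1
    exact this.symm

theorem sum_Bw_add {m n : ℕ} (f : List ℕ → ℝ) :
    ∑ w ∈ Bw W (m + n), f w = ∑ u ∈ Bw W m, ∑ v ∈ Bw W n, f (u ++ v) := by
  induction m generalizing f with
  | zero => rw [Nat.zero_add]; unfold Bw; simp
  | succ m ih =>
    have e : m + 1 + n = (m + n) + 1 := by ring
    rw [e, sum_Bw_succ, sum_Bw_succ]
    refine sum_congr rfl fun u _ => ?_
    rw [ih]
    simp only [List.append_assoc]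

/-- multiplicative sums over the words -/
theorem sum_mult (f : List ℕ → ℝ) (h0 : f [] = 1) (hf : ∀ u v, f (u ++ v) = f u * f v) (n : ℕ) :
    ∑ w ∈ Bw W n, f w = (∑ u ∈ W.U, f u) ^ n := by
  induction n with
  | zero => unfold Bw; simp [h0]
  | succ n ih =>
    rw [sum_Bw_succ, pow_succ', sum_mul]
    refine sum_congr rfl fun u _ => ?_
    rw [← ih, mul_sum]
    exact sum_congr rfl fun v _ => hf u v

theorem mem_VB {n : ℕ} {x : ℤ} {w : List ℕ} : w ∈ VB p W n x ↔
    w ∈ Bw W n ∧ (p : ℤ) ^ (W.b * n) ∣ 2 ^ w.sum * x - Wp p w := by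
  unfold VB
  rw [mem_filter]

theorem VB_shift (n : ℕ) (x y : ℤ) : VB p W n (x + (p : ℤ) ^ (W.b * n) * y) = VB p W n x := by
  ext w
  rw [mem_VB, mem_VB]
  have : (2 : ℤ) ^ w.sum * (x + (p : ℤ) ^ (W.b * n) * y) - Wp p w =
      (2 ^ w.sum * x - Wp p w) + (p : ℤ) ^ (W.b * n) * (2 ^ w.sum * y) := by ring
  rw [this, dvd_add_left (Dvd.intro _ rfl)]

end

end Pool.Agent.Y966.UB
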