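import Pool.Agent.Y966.UB.Reg
import Pool.Agent.Y966.LD.Tilt

/-!
Counting positive integers with regular trajectories to `1`: general upper bound.
-/

set_option autoImplicit false
set_option linter.unusedVariables false

namespace Pool.Agent.Y966.UB

open Finset Pool.Agent.H395R2.G3
open Pool.Agent.Y966.LD

theorem tot_le {hi : ℝ} (h0 : 0 ≤ hi) {L : ℕ} (hL : 1 ≤ L) : ∀ (k : ℕ) (n : ℤ),
    (∀ i, i + L ≤ k → (oc L (TZ^[i] n) : ℝ) ≤ hi * L) → (oc k n : ℝ) ≤ hi * k + L := by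
  intro k
  induction k using Nat.strong_induction_on with
  | _ k ih =>
    intro n h
    rcases Nat.lt_or_ge k L with h1 | h1
    · have h2 : (oc k n : ℝ) ≤ k := by exact_mod_cast oc_le k n
      have h3 : (k : ℝ) ≤ L := by exact_mod_cast h1.le
      have h4 : 0 ≤ hi * k := by positivity
      linarith
    · obtain ⟨c, rfl⟩ := Nat.exists_eq_add_of_le h1
      have h2 := ih c (by omega) (TZ^[L] n) (fun i hi' => by
        have := h (i + L) (by omega)
        rwa [Function.iterate_add_apply] at this)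
      have h3 := h 0 (by omega)
      rw [oc_add]
      push_cast
      simp only [Function.iterate_zero, id] at h3
      linarith

theorem le_tot {lo : ℝ} (h1 : lo ≤ 1) {L : ℕ} (hL : 1 ≤ L) : ∀ (k : ℕ) (n : ℤ),
    (∀ i, i + L ≤ k → lo * L ≤ (oc L (TZ^[i] n) : ℝ)) → lo * k - L ≤ (oc k n : ℝ) := by
  intro k
  induction k using Nat.strong_induction_on with
  | _ k ih =>
    intro n h
    rcases Nat.lt_or_ge k L with h2 | h2
    · have h3 : (k : ℝ) ≤ L := by exact_mod_cast h2.le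
      have h4 : lo * k ≤ 1 * k := mul_le_mul_of_nonneg_right h1 (Nat.cast_nonneg _)
      have h5 : (0 : ℝ) ≤ (oc k n : ℝ) := Nat.cast_nonneg _
      linarith
    · obtain ⟨c, rfl⟩ := Nat.exists_eq_add_of_le h2
      have h3 := ih c (by omega) (TZ^[L] n) (fun i hi' => by
        have := h (i + L) (by omega)
        rwa [Function.iterate_add_apply] at this)
      have h4 := h 0 (by omega)
      rw [oc_add]
      push_cast
      simp only [Function.iterate_zero, id] at h4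
      linarith

theorem count_upper {L A : ℕ} (hL : 1 ≤ L) {z : ℝ} (h0 : 0 < z) (h1 : z < 1)
    {μ : ℝ} (hP1 : (z / (3 * (1 - z))) ^ (A + 1) ≤ Real.exp ((A + 1) * μ))
    (hP2 : z ^ L ≤ Real.exp ((A + 1) * μ)) {U η K₀ D : ℝ} (hU : 0 ≤ U) (hη : 0 ≤ η)
    (hK₀ : 0 < K₀) (hD : 0 ≤ D) {ε : ℝ} (hε : 0 < ε) :
    ∃ X₀ : ℝ, 1 ≤ X₀ ∧ ∀ x : ℝ, X₀ ≤ x → ∀ S : Set ℕ, (∀ n ∈ S, 1 ≤ n ∧ (n : ℝ) ≤ x ∧
      ∃ k : ℕ, IsLeast {j : ℕ | fT^[j] n = 1} k ∧ Win L A k (n : ℤ) ∧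
        (k : ℝ) ≤ K₀ * (Real.log x + 1) ∧
        k * (-Real.log z) + oN k n * μ ≤
          U * (k * Real.log 2 - oN k n * Real.log 3) + η * k + D * Real.log (k + 2)) →
      (S.ncard : ℝ) ≤ x ^ (U + K₀ * η + ε) := by
  obtain ⟨C, hC, hup⟩ := reg_upper hL h0 h1 hP1 hP2 (show 0 < ε / (4 * K₀) by positivity)
  obtain ⟨K', hK'0, hK'⟩ := log_lin (show 0 < ε / (4 * K₀ * (2 + U + D)) by positivity)
  set c : ℝ := ε / (4 * K₀ * (2 + U + D)) with hc
  have hc0 : 0 < c := by positivity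
  set E₀ : ℝ := |Real.log C| + (ε / (4 * K₀) + η) * K₀ + (2 + U + D) * (c * (K₀ + 1) + K') with hE₀
  have hE₀0 : 0 ≤ E₀ := by positivity
  set L₀ : ℝ := 2 * E₀ / ε with hL₀
  have hL₀0 : 0 ≤ L₀ := by positivity
  refine ⟨Real.exp L₀, Real.one_le_exp hL₀0, fun x hx S hS => ?_⟩
  have hx0 : 0 < x := lt_of_lt_of_le (Real.exp_pos _) hx
  have hLx : L₀ ≤ Real.log x := by
    rw [Real.le_log_iff_exp_le hx0]
    exact hx
  set Lx : ℝ := Real.log x with hLxdef
  have hLx0 : 0 ≤ Lx := hL₀0.trans hLx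
  set K : ℕ := ⌊K₀ * (Lx + 1)⌋₊ with hK
  have hKle : (K : ℝ) ≤ K₀ * (Lx + 1) := Nat.floor_le (by positivity)
  have hKn : (0 : ℝ) ≤ K := Nat.cast_nonneg K
  set ℓ : ℝ := Real.log ((K : ℝ) + 2) with hℓ
  have hℓ0 : 0 ≤ ℓ := Real.log_nonneg (by linarith)
  classical
  set F : Finset (ℕ × ℕ) := (range (K + 1)) ×ˢ (range (K + 1)) with hF
  set SS : ℕ × ℕ → Set ℕ := fun q => {n : ℕ | n ∈ S ∧ IsLeast {j : ℕ | fT^[j] n = 1} q.1 ∧
    oN q.1 n = q.2 ∧ Win L A q.1 (n : ℤ) ∧ q.1 * (-Real.log z) + q.2 * μ ≤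
      U * (q.1 * Real.log 2 - q.2 * Real.log 3) + η * q.1 + D * Real.log (q.1 + 2)} with hSS
  have hinj : ∀ q : ℕ × ℕ, (SS q).Finite ∧ (SS q).ncard ≤ (Rg L A q.1 q.2 1).ncard := by
    intro q
    have hf := Rg_finite L A q.1 q.2 1
    have hmaps : ∀ m ∈ SS q, (m : ℤ) ∈ Rg L A q.1 q.2 1 := by
      rintro m ⟨_, hm, ho, hw, _⟩
      refine ⟨?_, ?_, hw⟩
      · rw [← cast_fT_iter, hm.1]
        rfl
      · rw [← oN_eq, ho]
    exact ⟨Set.Finite.of_injOn hmaps (Nat.cast_injective.injOn) hf,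
      Set.ncard_le_ncard_of_injOn (fun m : ℕ => (m : ℤ)) hmaps (Nat.cast_injective.injOn) hf⟩
  have hcov : ∀ n ∈ S, ∃ q ∈ F, n ∈ SS q := by
    intro n hn
    obtain ⟨hn1, hnx, k, hk, hw, hkK, hineq⟩ := hS n hn
    have hkK' : k ≤ K := Nat.le_floor hkK
    refine ⟨(k, oN k n), ?_, hn, hk, rfl, hw, hineq⟩
    rw [hF, mem_product, mem_range, mem_range]
    have := oN_le k n
    exact ⟨by omega, by simp only []; omega⟩
  have hncard := (ncard_le_sum F SS (fun q _ => (hinj q).1) S hcov).2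
  have hncard' : (S.ncard : ℝ) ≤ ∑ q ∈ F, ((SS q).ncard : ℝ) := by exact_mod_cast hncard
  set B : ℝ := C * Real.exp (ε / (4 * K₀) * K + (U * (Lx + ℓ) + η * K + D * ℓ)) with hB
  have hB0 : 0 ≤ B := by positivity
  have hterm : ∀ q ∈ F, ((SS q).ncard : ℝ) ≤ B := by
    intro q hq
    rw [hF, mem_product, mem_range, mem_range] at hq
    rcases Set.eq_empty_or_nonempty (SS q) with h | ⟨n, hn, hk, ho, hw, hineq⟩
    · rw [h, Set.ncard_empty]
      simpa using hB0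
    · have h2 : ((SS q).ncard : ℝ) ≤ ((Rg L A q.1 q.2 1).ncard : ℝ) := by
        exact_mod_cast (hinj q).2
      refine h2.trans ((hup q.1 q.2 1).trans ?_)
      apply mul_le_mul_of_nonneg_left _ hC.le
      apply Real.exp_le_exp.2
      obtain ⟨hn1, hnx, _⟩ := hS n hn
      have hn0 : (0 : ℝ) < n := by exact_mod_cast hn1
      have hs2 := (log_size hn1 hk).2
      rw [ho] at hs2
      have h3 : Real.log n ≤ Lx := Real.log_le_log hn0 hnx
      have h4 : (q.2 : ℝ) ≤ K := by exact_mod_cast (by omega : q.2 ≤ K)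
      have h5 : (q.1 : ℝ) ≤ K := by exact_mod_cast (by omega : q.1 ≤ K)
      have h6 : Real.log ((q.2 : ℝ) + 1) ≤ ℓ := by
        apply Real.log_le_log (by positivity)
        linarith
      have h7 : Real.log ((q.1 : ℝ) + 2) ≤ ℓ := by
        apply Real.log_le_log (by positivity)
        linarith
      have h8 : U * ((q.1 : ℝ) * Real.log 2 - q.2 * Real.log 3) ≤ U * (Lx + ℓ) :=
        mul_le_mul_of_nonneg_left (by linarith) hU
      have h9 : η * (q.1 : ℝ) ≤ η * K := mul_le_mul_of_nonneg_left h5 hη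
      have h10 : D * Real.log ((q.1 : ℝ) + 2) ≤ D * ℓ := mul_le_mul_of_nonneg_left h7 hD
      have h11 : ε / (4 * K₀) * (q.1 : ℝ) ≤ ε / (4 * K₀) * K :=
        mul_le_mul_of_nonneg_left h5 (by positivity)
      linarith
  have hsum : ∑ q ∈ F, ((SS q).ncard : ℝ) ≤ ((K : ℝ) + 1) ^ 2 * B := by
    calc ∑ q ∈ F, ((SS q).ncard : ℝ) ≤ ∑ q ∈ F, B := sum_le_sum hterm
      _ = F.card * B := by rw [sum_const, nsmul_eq_mul]
      _ = ((K : ℝ) + 1) ^ 2 * B := by
          rw [hF, card_product, card_range]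
          push_cast
          ring
  refine hncard'.trans (hsum.trans ?_)
  have hK1 : (0 : ℝ) < (K : ℝ) + 1 := by positivity
  have e1 : ((K : ℝ) + 1) ^ 2 = Real.exp (2 * Real.log ((K : ℝ) + 1)) := by
    rw [show (2 : ℝ) * Real.log ((K : ℝ) + 1) = ((2 : ℕ) : ℝ) * Real.log ((K : ℝ) + 1) by norm_num,
      Real.exp_nat_mul, Real.exp_log hK1]
  have e2 : C = Real.exp (Real.log C) := (Real.exp_log hC).symm
  rw [hB, e1, e2, ← Real.exp_add, ← Real.exp_add, Real.rpow_def_of_pos hx0]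
  apply Real.exp_le_exp.2
  rw [← hLxdef]
  have h12 : Real.log ((K : ℝ) + 1) ≤ ℓ := Real.log_le_log hK1 (by linarith)
  have h13 : ℓ ≤ c * (K + 1) + K' := by
    have := hK' ((K : ℝ) + 1) (by positivity)
    rw [show (K : ℝ) + 1 + 1 = K + 2 by ring] at this
    exact this
  have h14 : c * ((K : ℝ) + 1) ≤ c * (K₀ * (Lx + 1) + 1) :=
    mul_le_mul_of_nonneg_left (by linarith) hc0.le
  have h15 : (2 + U + D) * ℓ ≤ (2 + U + D) * (c * (K₀ * (Lx + 1) + 1) + K') :=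
    mul_le_mul_of_nonneg_left (by linarith) (by positivity)
  have h16 : (2 + U + D) * (c * (K₀ * Lx)) = ε / 4 * Lx := by
    rw [hc]
    field_simp
  have h17 : (ε / (4 * K₀) + η) * K ≤ (ε / (4 * K₀) + η) * (K₀ * (Lx + 1)) :=
    mul_le_mul_of_nonneg_left hKle (by positivity)
  have h18 : (ε / (4 * K₀) + η) * (K₀ * Lx) = ε / 4 * Lx + K₀ * η * Lx := by
    field_simp
  have h19 : E₀ ≤ ε / 2 * Lx := by
    rw [hL₀, div_le_iff₀ hε] at hLx
    linarith
  have h20 := le_abs_self (Real.log C)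
  have h21 : 2 * Real.log ((K : ℝ) + 1) ≤ 2 * ℓ := by linarith
  rw [hE₀] at h19
  nlinarith

end Pool.Agent.Y966.UB
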