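import Pool.Agent.Y966.UB.Chain
import Pool.Agent.Y966.LD.Tilt

/-!
Counting positive integers with straight trajectories to `1`: lower bound.
-/

set_option autoImplicit false
set_option linter.unusedVariables false

namespace Pool.Agent.Y966.UB

open Finset Pool.Agent.H395R2.G3
open Pool.Agent.Y966.LD

/-- straight trajectories: odd frequency close to `r` in every window of `L` steps, and total
stopping time close to `a log n` -/
def Str (r a δ : ℝ) (L : ℕ) (x : ℝ) : Set ℕ :=
  {n : ℕ | 2 ≤ n ∧ (n : ℝ) ≤ x ∧ ∃ k : ℕ, IsLeast {j : ℕ | fT^[j] n = 1} k ∧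
    |(k : ℝ) - a * Real.log n| ≤ δ * Real.log n ∧
    ∀ i, i + L ≤ k → |(oc L (TZ^[i] (n : ℤ)) : ℝ) - r * L| ≤ δ * L}

theorem Str_finite (r a δ : ℝ) (L : ℕ) (x : ℝ) : (Str r a δ L x).Finite := by
  apply (Set.finite_Iic ⌊x⌋₊).subset
  rintro m ⟨_, hm, _⟩
  exact Nat.le_floor hm

/-- windows of the path continued by `5, 8, 4, 2` -/
theorem wind_ext {r δ C : ℝ} (h0 : 0 < r) (h1 : r < 1) (hδ : 0 < δ) (hC : 0 < C) {k : ℕ} {m : ℤ}
    (hW : Wind r δ C k m) {L : ℕ} (hL4 : 4 ≤ L) {i : ℕ} (hi : i + L ≤ k + 4) :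
    |(oc L (TZ^[i] m) : ℝ) - r * L| ≤ δ * L + 2 * C + 4 := by
  have hik : i ≤ k := by omega
  rcases Nat.lt_or_ge k (i + L) with h | h
  · obtain ⟨c, hc⟩ : ∃ c, L = (k - i) + c := ⟨L - (k - i), by omega⟩
    have hc4 : c ≤ 4 := by omega
    have h2 := hW i (k - i) (by omega)
    have h3 := triv h0 h1 (show c ≤ 4 by omega) (show ((4 : ℕ) : ℝ) ≤ 4 by norm_num)
      (TZ^[k - i] (TZ^[i] m))
    have e : oc L (TZ^[i] m) = oc (k - i) (TZ^[i] m) + oc c (TZ^[k - i] (TZ^[i] m)) := by
      conv_lhs => rw [hc]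
      rw [oc_add]
    have e2 : (L : ℝ) = ((k - i : ℕ) : ℝ) + c := by exact_mod_cast hc
    rw [e]
    have e3 : (((oc (k - i) (TZ^[i] m) + oc c (TZ^[k - i] (TZ^[i] m)) : ℕ) : ℝ)) - r * L =
        ((oc (k - i) (TZ^[i] m) : ℕ) - r * ((k - i : ℕ) : ℝ)) +
        ((oc c (TZ^[k - i] (TZ^[i] m)) : ℕ) - r * (c : ℝ)) := by
      rw [e2]
      push_cast
      ring
    rw [e3]
    refine (abs_add_le _ _).trans ?_
    have h4 : δ * ((k - i : ℕ) : ℝ) ≤ δ * L := by
      apply mul_le_mul_of_nonneg_left _ hδ.le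
      rw [e2]
      have : (0 : ℝ) ≤ c := Nat.cast_nonneg c
      linarith
    linarith
  · have h2 := hW i L h
    linarith

theorem fT5 {y k : ℕ} (h : fT^[k] y = 5) : IsLeast {j : ℕ | fT^[j] y = 1} (k + 4) := by
  have h2 : fT^[k + 1] y = 8 := by
    rw [Function.iterate_succ_apply', h]
    decide
  exact least_of_eight h2

theorem oN5 {y k N : ℕ} (h : fT^[k] y = 5) (h2 : oN k y = N) : oN (k + 4) y = N + 1 := by
  rw [oN_add, h, h2]
  have : oN 4 5 = 1 := by decide
  rw [this]

/-- LOWER BOUND FOR STRAIGHT TRAJECTORIES -/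
theorem lower_gen {r : ℝ} (h0 : 0 < r) (h1 : r < 1) (hF : 0 < FF r) {a : ℝ}
    (ha0 : 0 < a) (ha : a * (Real.log 2 - r * Real.log 3) = 1) {ε : ℝ} (hε : 0 < ε)
    {δ : ℝ} (hδ : 0 < δ) :
    ∃ L₀ : ℕ, ∀ L : ℕ, L₀ ≤ L → ∃ X₀ : ℝ, 1 ≤ X₀ ∧ ∀ x : ℝ, X₀ ≤ x →
      x ^ (a * FF r - ε) ≤ ((Str r a δ L x).ncard : ℝ) := by
  have hl2 : 0 < Real.log 2 := Real.log_pos (by norm_num)
  have hl3 : 0 < Real.log 3 := Real.log_pos (by norm_num)
  have hFr : 0 < FF r / r := div_pos hF h0
  set w₀ : ℝ := 1 / (a * r) with hw₀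
  have hw₀0 : 0 < w₀ := by positivity
  have hw₀' : w₀ = Real.log 2 / r - Real.log 3 := by
    rw [hw₀]
    have : Real.log 2 = 1 / a + r * Real.log 3 := by
      field_simp
      linarith
    rw [this]
    field_simp
    ring
  have haF : a * FF r * w₀ = FF r / r := by
    rw [hw₀]
    field_simp
  -- the precision of the blocks
  set d : ℝ := min (δ / 2) (min (w₀ / (4 * Real.log 2)) (min (δ * w₀ / (8 * a * Real.log 3))
    (min (ε / 2 * w₀ / (1 + a * FF r * Real.log 2)) (FF r / r / 2)))) with hd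
  have hd0 : 0 < d := by
    have : 0 < a * FF r := mul_pos ha0 hF
    rw [hd]
    refine lt_min (by positivity) (lt_min (by positivity) (lt_min (by positivity)
      (lt_min (by positivity) (by positivity))))
  have hd1 : d ≤ δ / 2 := min_le_left _ _
  have hd2 : d * Real.log 2 ≤ w₀ / 4 := by
    have h2 : d ≤ w₀ / (4 * Real.log 2) := (min_le_right _ _).trans (min_le_left _ _)
    rw [le_div_iff₀ (by positivity)] at h2
    linarith
  have hd3 : a * Real.log 3 * d ≤ δ * w₀ / 8 := by
    have h2 : d ≤ δ * w₀ / (8 * a * Real.log 3) :=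
      (min_le_right _ _).trans ((min_le_right _ _).trans (min_le_left _ _))
    rw [le_div_iff₀ (by positivity)] at h2
    linarith
  have hd4 : d * (1 + a * FF r * Real.log 2) ≤ ε / 2 * w₀ := by
    have h2 : d ≤ ε / 2 * w₀ / (1 + a * FF r * Real.log 2) :=
      (min_le_right _ _).trans ((min_le_right _ _).trans ((min_le_right _ _).trans (min_le_left _ _)))
    have h3 : 0 < 1 + a * FF r * Real.log 2 := by
      have : 0 < a * FF r := mul_pos ha0 hF
      positivity
    rwa [le_div_iff₀ h3] at h2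
  have hd5 : d ≤ FF r / r / 2 :=
    (min_le_right _ _).trans ((min_le_right _ _).trans ((min_le_right _ _).trans (min_le_right _ _)))
  obtain ⟨N, hN1, C, hC0, hchain⟩ := chain h0 h1 hF hd0
  have hNr : (1 : ℝ) ≤ N := by exact_mod_cast hN1
  obtain ⟨L₁, hL₁⟩ := exists_nat_ge ((2 * C + 4) / (δ / 2))
  refine ⟨L₁ + 4, fun L hLL => ?_⟩
  have hL4 : 4 ≤ L := by omega
  have hLC : 2 * C + 4 ≤ δ / 2 * L := by
    have h2 : (2 * C + 4) / (δ / 2) ≤ L := hL₁.trans (by exact_mod_cast (by omega : L₁ ≤ L))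
    rw [div_le_iff₀ (by positivity)] at h2
    linarith
  set w : ℝ := w₀ + d * Real.log 2 with hw
  have hw0 : 0 < w := by positivity
  obtain ⟨K', hK'0, hK'⟩ := log_lin (show 0 < min (w₀ / 8) (δ * w₀ / (8 * a)) from
    lt_min (by positivity) (by positivity))
  set cc : ℝ := min (w₀ / 8) (δ * w₀ / (8 * a)) with hcc
  have hcc1 : cc ≤ w₀ / 8 := min_le_left _ _
  have hcc2 : a * cc ≤ δ * w₀ / 8 := by
    have h2 : cc ≤ δ * w₀ / (8 * a) := min_le_right _ _
    rw [le_div_iff₀ (by positivity)] at h2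
    linarith
  -- the number of steps must be at least `J₀`
  set J₀ : ℝ := max (8 * (K' + 1) / w₀ + 1) (8 * (a * (5 * Real.log 3 + K' + 1) + δ * w₀) / (δ * w₀))
    with hJ₀
  set E₀ : ℝ := max ((J₀ + N) * w + 4 * Real.log 2)
    (FF r / r * (4 * Real.log 2 / w + N) * 2 / ε) with hE₀
  refine ⟨Real.exp (max E₀ 0), Real.one_le_exp (le_max_right _ _), fun x hx => ?_⟩
  have hx0 : 0 < x := lt_of_lt_of_le (Real.exp_pos _) hx
  have hLx' : max E₀ 0 ≤ Real.log x := by
    rw [Real.le_log_iff_exp_le hx0]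
    exact hx
  have hLx1 : (J₀ + N) * w + 4 * Real.log 2 ≤ Real.log x :=
    (le_max_left _ _).trans ((le_max_left _ _).trans hLx')
  have hLx2 : FF r / r * (4 * Real.log 2 / w + N) * 2 / ε ≤ Real.log x :=
    (le_max_right _ _).trans ((le_max_left _ _).trans hLx')
  have hJ₀1 : 0 < J₀ := by
    rw [hJ₀]
    exact lt_of_lt_of_le (by positivity) (le_max_left _ _)
  set j : ℕ := ⌊(Real.log x - 4 * Real.log 2) / (N * w)⌋₊ with hj
  have hNw : 0 < (N : ℝ) * w := by positivity
  have hq0 : 0 ≤ (Real.log x - 4 * Real.log 2) / (N * w) := by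
    apply div_nonneg _ hNw.le
    have : 0 ≤ (J₀ + N) * w := by positivity
    linarith
  set n : ℝ := (N : ℝ) * j with hn
  have hn1 : n * w ≤ Real.log x - 4 * Real.log 2 := by
    have h2 : (j : ℝ) ≤ (Real.log x - 4 * Real.log 2) / (N * w) := Nat.floor_le hq0
    rw [le_div_iff₀ hNw] at h2
    rw [hn]
    linarith
  have hn2 : Real.log x - 4 * Real.log 2 < (n + N) * w := by
    have h2 : (Real.log x - 4 * Real.log 2) / (N * w) < j + 1 := Nat.lt_floor_add_one _
    rw [div_lt_iff₀ hNw] at h2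
    rw [hn]
    linarith
  have hnJ : J₀ ≤ n := by
    have h2 : (J₀ + N) * w < (n + N) * w := by linarith
    have := lt_of_mul_lt_mul_right h2 hw0.le
    linarith
  have hn0 : 0 < n := lt_of_lt_of_le hJ₀1 hnJ
  -- consequences of `J₀ ≤ n`
  have hlogn : Real.log (n + 2) ≤ cc * (n + 1) + K' := by
    have := hK' (n + 1) (by linarith)
    rwa [show n + 1 + 1 = n + 2 by ring] at this
  have hlog1 : Real.log (n + 2) ≤ w₀ / 4 * n := by
    have h2 : 8 * (K' + 1) / w₀ + 1 ≤ n := (le_max_left _ _).trans hnJ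
    have h3 : 8 * (K' + 1) / w₀ ≤ n - 1 := by linarith
    rw [div_le_iff₀ hw₀0] at h3
    have h4 : cc * (n + 1) ≤ w₀ / 8 * (n + 1) := mul_le_mul_of_nonneg_right hcc1 (by linarith)
    nlinarith
  have hlog2 : a * (5 * Real.log 3 + Real.log (n + 2)) ≤ δ * w₀ / 4 * n := by
    have h2 : 8 * (a * (5 * Real.log 3 + K' + 1) + δ * w₀) / (δ * w₀) ≤ n :=
      (le_max_right _ _).trans hnJ
    rw [div_le_iff₀ (by positivity)] at h2
    have h4 : a * Real.log (n + 2) ≤ a * (cc * (n + 1) + K') := mul_le_mul_of_nonneg_left hlogn ha0.le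
    have h5 : a * cc * (n + 1) ≤ δ * w₀ / 8 * (n + 1) := mul_le_mul_of_nonneg_right hcc2 (by linarith)
    nlinarith
  obtain ⟨G, hG1, hG2⟩ := hchain 5 (by norm_num) (by norm_num) (by norm_num) j
  have hmem : ∀ m ∈ G, 0 < m ∧ m.toNat ∈ Str r a δ L x := by
    intro m hm
    obtain ⟨g0, g1, g2, k, g3, g4, g5, g6, g7⟩ := hG2 m hm
    obtain ⟨y, rfl⟩ : ∃ y : ℕ, m = (y : ℤ) := ⟨m.toNat, by omega⟩
    refine ⟨g0, ?_⟩
    rw [Int.toNat_natCast]
    have hy1 : 1 ≤ y := by omega
    have hy0 : (0 : ℝ) < y := by exact_mod_cast hy1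
    have e1 : fT^[k] y = 5 := by
      have := cast_fT_iter k y
      rw [g3] at this
      exact_mod_cast this
    have hleast := fT5 e1
    have hodd : oN (k + 4) y = N * j + 1 := oN5 e1 (by rw [oN_eq, g4])
    obtain ⟨hs1, hs2⟩ := log_size hy1 hleast
    rw [hodd] at hs1 hs2
    push_cast at hs1 hs2
    rw [← hn] at hs1 hs2 g5
    obtain ⟨k1, k2⟩ := abs_le.1 g5
    have hkn : (k : ℝ) * Real.log 2 - n * Real.log 3 = w₀ * n + ((k : ℝ) - n / r) * Real.log 2 := by
      rw [hw₀']
      field_simp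
      ring
    have hup : ((k : ℝ) - n / r) * Real.log 2 ≤ d * n * Real.log 2 :=
      mul_le_mul_of_nonneg_right k2 hl2.le
    have hdown : -(d * n) * Real.log 2 ≤ ((k : ℝ) - n / r) * Real.log 2 :=
      mul_le_mul_of_nonneg_right k1 hl2.le
    have hdn : d * n * Real.log 2 ≤ w₀ / 4 * n := by
      have := mul_le_mul_of_nonneg_right hd2 hn0.le
      linarith
    have h34 : Real.log 3 < 4 * Real.log 2 := by
      rw [show (4 : ℝ) * Real.log 2 = Real.log (2 ^ 4) by rw [Real.log_pow]; norm_num]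
      exact Real.log_lt_log (by norm_num) (by norm_num)
    have e22 : n + 1 + 1 = n + 2 := by ring
    rw [e22] at hs2
    have hlogy : w₀ / 2 * n ≤ Real.log y := by linarith
    have hlogy0 : 0 < Real.log y := lt_of_lt_of_le (by positivity) hlogy
    have hyx : Real.log y ≤ Real.log x := by
      have h2 : n * w = w₀ * n + d * n * Real.log 2 := by rw [hw]; ring
      linarith
    refine ⟨?_, (Real.log_le_log_iff hy0 hx0).1 hyx, k + 4, hleast, ?_, ?_⟩
    · by_contra h
      have : y = 1 := by omega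
      rw [this] at hlogy0
      simp at hlogy0
    · -- the ratio
      push_cast
      set Y : ℝ := ((k : ℝ) + 4) * Real.log 2 - (n + 1) * Real.log 3 with hY
      have hYk : (k : ℝ) + 4 - a * Y = a * Real.log 3 * (n + 1 - r * (k + 4)) := by
        have h2 : a * Real.log 2 = 1 + a * r * Real.log 3 := by linarith
        rw [hY]
        have : a * (((k : ℝ) + 4) * Real.log 2 - (n + 1) * Real.log 3) =
            (k + 4) * (a * Real.log 2) - a * (n + 1) * Real.log 3 := by ring
        rw [this, h2]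
        ring
      have hrk : |n + 1 - r * ((k : ℝ) + 4)| ≤ d * n + 5 := by
        have e : n + 1 - r * ((k : ℝ) + 4) = -(r * (k - n / r)) + (1 - 4 * r) := by
          field_simp
          ring
        rw [e]
        refine (abs_add_le _ _).trans ?_
        rw [abs_neg, abs_mul, abs_of_pos h0]
        have h2 : r * |(k : ℝ) - n / r| ≤ 1 * (d * n) :=
          mul_le_mul h1.le g5 (abs_nonneg _) (by norm_num)
        have h3 : |1 - 4 * r| ≤ 5 := by
          rw [abs_le]
          constructor <;> linarith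
        linarith
      have h5 : |(k : ℝ) + 4 - a * Y| ≤ a * Real.log 3 * (d * n + 5) := by
        rw [hYk, abs_mul, abs_of_pos (by positivity)]
        exact mul_le_mul_of_nonneg_left hrk (by positivity)
      have h6 : |a * Y - a * Real.log y| ≤ a * Real.log (n + 2) := by
        rw [← mul_sub, abs_mul, abs_of_pos ha0]
        apply mul_le_mul_of_nonneg_left _ ha0.le
        rw [abs_le]
        constructor
        · have : 0 ≤ Real.log (n + 2) := Real.log_nonneg (by linarith)
          linarith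
        · linarith
      have h7 : |(k : ℝ) + 4 - a * Real.log y| ≤
          a * Real.log 3 * (d * n + 5) + a * Real.log (n + 2) := by
        have e : (k : ℝ) + 4 - a * Real.log y = ((k : ℝ) + 4 - a * Y) + (a * Y - a * Real.log y) := by
          ring
        rw [e]
        exact (abs_add_le _ _).trans (add_le_add h5 h6)
      refine h7.trans ?_
      have h8 := mul_le_mul_of_nonneg_right hd3 hn0.le
      have h9 : δ * (w₀ / 2 * n) ≤ δ * Real.log y := mul_le_mul_of_nonneg_left hlogy hδ.le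
      have h10 : a * Real.log 3 * (d * n + 5) + a * Real.log (n + 2) =
          a * Real.log 3 * d * n + a * (5 * Real.log 3 + Real.log (n + 2)) := by ring
      rw [h10]
      have h11 : 0 ≤ δ * w₀ * n := by positivity
      linarith
    · intro i hi
      refine (wind_ext h0 h1 hd0 hC0 g7 hL4 hi).trans ?_
      have h2 : d * (L : ℝ) ≤ δ / 2 * L := mul_le_mul_of_nonneg_right hd1 (Nat.cast_nonneg L)
      linarith
  have hcard : G.card ≤ (Str r a δ L x).ncard := by
    have himg : (G.image Int.toNat).card = G.card := by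
      apply Finset.card_image_of_injOn
      intro z hz w hw h
      have h1 := (hmem z hz).1
      have h2 := (hmem w hw).1
      have h3 : z.toNat = w.toNat := h
      omega
    rw [← himg, ← Set.ncard_coe_finset]
    apply Set.ncard_le_ncard _ (Str_finite r a δ L x)
    intro m hm
    rw [Finset.mem_coe, Finset.mem_image] at hm
    obtain ⟨z, hz, rfl⟩ := hm
    exact (hmem z hz).2
  have hcard' : (G.card : ℝ) ≤ ((Str r a δ L x).ncard : ℝ) := by exact_mod_cast hcard
  refine le_trans ?_ (hG1.trans hcard')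
  rw [Real.rpow_def_of_pos hx0]
  apply Real.exp_le_exp.2
  rw [← hn]
  -- `(a F - ε) log x ≤ (F / r - d) n`
  set P : ℝ := FF r / r - d with hP
  have hP0 : 0 < P := by
    rw [hP]
    linarith
  have hPw : (a * FF r - ε / 2) * w ≤ P := by
    rw [hw, hP, ← haF]
    have h2 : 0 ≤ ε / 2 * (d * Real.log 2) := by positivity
    nlinarith
  have h2 : (Real.log x - 4 * Real.log 2) / w - N ≤ n := by
    rw [sub_le_iff_le_add, div_le_iff₀ hw0]
    exact hn2.le
  have h3 : P * ((Real.log x - 4 * Real.log 2) / w - N) ≤ P * n := mul_le_mul_of_nonneg_left h2 hP0.le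
  have hlogx0 : 0 ≤ Real.log x := (le_max_right _ _).trans hLx'
  have h4 : (a * FF r - ε / 2) * Real.log x ≤ P * (Real.log x / w) := by
    have h5 := mul_le_mul_of_nonneg_right hPw (show 0 ≤ Real.log x / w by positivity)
    have h6 : (a * FF r - ε / 2) * w * (Real.log x / w) = (a * FF r - ε / 2) * Real.log x := by
      field_simp
    rw [h6] at h5
    exact h5
  have h7 : P * (4 * Real.log 2 / w + N) ≤ FF r / r * (4 * Real.log 2 / w + N) :=
    mul_le_mul_of_nonneg_right (by rw [hP]; linarith) (by positivity)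
  have h8 : FF r / r * (4 * Real.log 2 / w + N) ≤ ε / 2 * Real.log x := by
    rw [div_le_iff₀ hε] at hLx2
    linarith
  have h9 : P * ((Real.log x - 4 * Real.log 2) / w - N) =
      P * (Real.log x / w) - P * (4 * Real.log 2 / w + N) := by
    rw [sub_div]
    ring
  rw [h9] at h3
  linarith

end Pool.Agent.Y966.UB
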