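import Pool.Agent.Y966.UB.Fin1
import Pool.Agent.Y966.UB.Fin2
import Pool.Agent.Y966.LD.Main1

/-!
The large deviation law of straight trajectories and of steady trajectories.
-/

set_option autoImplicit false
set_option linter.unusedVariables false

namespace Pool.Agent.Y966.UB

open Finset Filter Topology Pool.Agent.H395R2.G3
open Pool.Agent.Y966.LD

/-- straight trajectories -/
def St (ρ δ : ℝ) (L : ℕ) (x : ℝ) : Set ℕ :=
  {n : ℕ | 2 ≤ n ∧ (n : ℝ) ≤ x ∧ ∃ k : ℕ, IsLeast {j : ℕ | fT^[j] n = 1} k ∧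
    ∀ i, i + L ≤ k → |(oc L (TZ^[i] (n : ℤ)) : ℝ) - ρ * L| ≤ δ * L}

theorem St_finite (ρ δ : ℝ) (L : ℕ) (x : ℝ) : (St ρ δ L x).Finite := by
  apply (Set.finite_Iic ⌊x⌋₊).subset
  rintro m ⟨_, hm, _⟩
  exact Nat.le_floor hm

/-- bound for the number of steps -/
theorem steps_le {γ hi : ℝ} (hγ : 0 < γ) (hhi : Real.log 2 - hi * Real.log 3 = 1 / γ)
    (hi0 : 0 ≤ hi) {L : ℕ} (hL : 1 ≤ L) :
    ∃ X₀ : ℝ, 1 ≤ X₀ ∧ ∀ x : ℝ, X₀ ≤ x → ∀ n k : ℕ, 1 ≤ n → (n : ℝ) ≤ x →
      IsLeast {j : ℕ | fT^[j] n = 1} k →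
      (∀ i, i + L ≤ k → (oc L (TZ^[i] (n : ℤ)) : ℝ) ≤ hi * L) →
      (k : ℝ) ≤ 4 * γ * (Real.log x + 1) := by
  have hl3 : 0 < Real.log 3 := Real.log_pos (by norm_num)
  obtain ⟨K', hK'0, hK'⟩ := log_lin (show 0 < 1 / (2 * γ) by positivity)
  refine ⟨Real.exp (L * Real.log 3 + K'), Real.one_le_exp (by positivity), fun x hx n k hn hnx hk
    hw => ?_⟩
  have hx0 : 0 < x := lt_of_lt_of_le (Real.exp_pos _) hx
  have hLx : L * Real.log 3 + K' ≤ Real.log x := by
    rw [Real.le_log_iff_exp_le hx0]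
    exact hx
  have hn0 : (0 : ℝ) < n := by exact_mod_cast hn
  have h1 : Real.log n ≤ Real.log x := Real.log_le_log hn0 hnx
  have h2 := (log_size hn hk).2
  have h3 := tot_le hi0 hL k (n : ℤ) hw
  rw [← oN_eq] at h3
  have h4 : (oN k n : ℝ) ≤ k := by exact_mod_cast oN_le k n
  have h5 : Real.log ((oN k n : ℝ) + 1) ≤ Real.log ((k : ℝ) + 1) := by
    apply Real.log_le_log (by positivity)
    linarith
  have h6 := hK' (k : ℝ) (Nat.cast_nonneg k)
  have h7 : (oN k n : ℝ) * Real.log 3 ≤ (hi * k + L) * Real.log 3 :=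
    mul_le_mul_of_nonneg_right h3 hl3.le
  have h8 : (k : ℝ) * Real.log 2 - hi * k * Real.log 3 = 1 / γ * k := by
    rw [← hhi]
    ring
  have h9 : 1 / γ * (k : ℝ) = 2 * (1 / (2 * γ) * k) := by
    field_simp
  have h10 : 1 / (2 * γ) * (k : ℝ) ≤ 2 * Real.log x := by linarith
  rw [div_mul_eq_mul_div, one_mul, div_le_iff₀ (by positivity)] at h10
  have : 0 < γ := hγ
  nlinarith

/-- the basic identity for the exponents -/
theorem key_id {α a μ ρ k o : ℝ} (hα : α * (Real.log 2 - ρ * Real.log 3) = 1) :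
    α * (a + ρ * μ) * (k * Real.log 2 - o * Real.log 3) - (k * a + o * μ) =
      (ρ * k - o) * (α * (a * Real.log 3 + μ * Real.log 2)) := by
  have : α * (a + ρ * μ) * (k * Real.log 2 - o * Real.log 3) - (k * a + o * μ) =
      (ρ * k - o) * (α * (a * Real.log 3 + μ * Real.log 2)) +
      (α * (Real.log 2 - ρ * Real.log 3) - 1) * (k * (a + ρ * μ) - (ρ * k - o) * μ) := by
    ring
  rw [this, hα]
  ring

/-- the first condition of `reg_upper` for the natural slope -/
theorem P1_eq {z : ℝ} (h0 : 0 < z) (h1 : z < 1) (A : ℕ) :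
    (z / (3 * (1 - z))) ^ (A + 1) ≤ Real.exp ((A + 1) * (-Real.log (3 * (1 - z) / z))) := by
  have h2 : 0 < 1 - z := by linarith
  have e1 : -Real.log (3 * (1 - z) / z) = Real.log (z / (3 * (1 - z))) := by
    rw [← Real.log_inv, inv_div]
  have e2 : ((A : ℝ) + 1) = ((A + 1 : ℕ) : ℝ) := by push_cast; ring
  rw [e1, e2, Real.exp_nat_mul, Real.exp_log (by positivity)]

/-- the second condition -/
theorem P2_of {z μ : ℝ} (h0 : 0 < z) {L A : ℕ} (h : 0 ≤ L * (-Real.log z) + (A + 1) * μ) :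
    z ^ L ≤ Real.exp ((A + 1) * μ) := by
  have e1 : z ^ L = Real.exp (L * Real.log z) := by
    rw [Real.exp_nat_mul, Real.exp_log h0]
  rw [e1]
  apply Real.exp_le_exp.2
  linarith

theorem exp_swap {x A B : ℝ} (hx : 1 ≤ x) (h : A ≤ B) : x ^ A ≤ x ^ B :=
  Real.rpow_le_rpow_of_exponent_le hx h

/-- upper bound, first regime -/
theorem straight_upper1 {α : ℝ} (hα : 1 / Real.log 2 < α) (hF : 0 < FF (rr α)) {ε : ℝ}
    (hε : 0 < ε) :
    ∃ δ₀ : ℝ, 0 < δ₀ ∧ ∀ δ : ℝ, 0 < δ → δ ≤ δ₀ → ∃ L₀ : ℕ, ∀ L : ℕ, L₀ ≤ L →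
      ∃ X₀ : ℝ, 1 ≤ X₀ ∧ ∀ x : ℝ, X₀ ≤ x →
        ((St (rr α) δ L x).ncard : ℝ) ≤ x ^ (α * FF (rr α) + ε) := by
  have hl2 : 0 < Real.log 2 := Real.log_pos (by norm_num)
  have hl3 : 0 < Real.log 3 := Real.log_pos (by norm_num)
  have hα0 : 0 < α := lt_trans (by positivity) hα
  have hspec := rr_spec α
  set ρ := rr α with hρ
  have hρ0 : 0 < ρ := rr_pos hα
  have hρ1 : ρ < 1 := rr_lt_one hα0
  have h1α : α * (Real.log 2 - ρ * Real.log 3) = 1 := by
    rw [← hspec]
    field_simp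
  set z : ℝ := 1 - ρ with hz
  have hz0 : 0 < z := by linarith
  have hz1 : z < 1 := by linarith
  set a : ℝ := -Real.log z with ha
  set μ : ℝ := -Real.log (3 * (1 - z) / z) with hμ
  have hFeq : a + ρ * μ = FF ρ := phi_eq hρ0 hρ1
  set f : ℝ := α * (a * Real.log 3 + μ * Real.log 2) with hf
  refine ⟨min (ρ / 2) (min (1 / (2 * α * Real.log 3)) (min (ε / (16 * α * (|f| + 1)))
    (FF ρ / (2 * (|μ| + 1))))), ?_, fun δ hδ0 hδ => ?_⟩
  · refine lt_min (by positivity) (lt_min (by positivity) (lt_min (by positivity) (by positivity)))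
  have hd1 : δ ≤ ρ / 2 := hδ.trans (min_le_left _ _)
  have hd2 : δ * (2 * α * Real.log 3) ≤ 1 := by
    have : δ ≤ 1 / (2 * α * Real.log 3) := hδ.trans ((min_le_right _ _).trans (min_le_left _ _))
    rwa [le_div_iff₀ (by positivity)] at this
  have hd3 : δ * (16 * α * (|f| + 1)) ≤ ε := by
    have : δ ≤ ε / (16 * α * (|f| + 1)) :=
      hδ.trans ((min_le_right _ _).trans ((min_le_right _ _).trans (min_le_left _ _)))
    rwa [le_div_iff₀ (by positivity)] at this
  have hd4 : δ * (2 * (|μ| + 1)) ≤ FF ρ := by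
    have : δ ≤ FF ρ / (2 * (|μ| + 1)) :=
      hδ.trans ((min_le_right _ _).trans ((min_le_right _ _).trans (min_le_right _ _)))
    rwa [le_div_iff₀ (by positivity)] at this
  obtain ⟨L₀, hL₀⟩ := exists_nat_ge (max (2 / ρ) (2 * |μ| / FF ρ))
  refine ⟨L₀ + 1, fun L hL => ?_⟩
  have hL1 : 1 ≤ L := by omega
  have hLr : (L₀ : ℝ) ≤ L := by exact_mod_cast (by omega : L₀ ≤ L)
  have hLa : 2 / ρ ≤ L := (le_max_left _ _).trans (hL₀.trans hLr)
  have hLb : 2 * |μ| / FF ρ ≤ L := (le_max_right _ _).trans (hL₀.trans hLr)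
  rw [div_le_iff₀ hρ0] at hLa
  rw [div_le_iff₀ hF] at hLb
  have hL0 : (0 : ℝ) ≤ L := Nat.cast_nonneg L
  set A : ℕ := ⌊(ρ + δ) * L⌋₊ with hA
  have hA1 : (A : ℝ) ≤ (ρ + δ) * L := Nat.floor_le (by positivity)
  have hP2 : z ^ L ≤ Real.exp ((A + 1) * μ) := by
    apply P2_of hz0
    rw [← ha]
    have h2 : ((A : ℝ) + 1) * μ ≥ ρ * L * μ - (δ * L + 1) * |μ| := by
      have h3 : ρ * L < A + 1 + 0 ∨ A + 1 ≤ ρ * L := by
        rcases lt_or_ge (ρ * L) ((A : ℝ) + 1) with h | h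
        · left; linarith
        · right; exact h
      have h4 : ρ * L ≤ (A : ℝ) + 1 := by
        have h5 : (ρ + δ) * L < A + 1 := Nat.lt_floor_add_one _
        have h6 : 0 ≤ δ * (L : ℝ) := by positivity
        linarith
      have h5 : ((A : ℝ) + 1 - ρ * L) * (-|μ|) ≤ ((A : ℝ) + 1 - ρ * L) * μ :=
        mul_le_mul_of_nonneg_left (neg_abs_le μ) (by linarith)
      have h6 : ((A : ℝ) + 1 - ρ * L) * |μ| ≤ (δ * L + 1) * |μ| :=
        mul_le_mul_of_nonneg_right (by linarith) (abs_nonneg _)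
      linarith
    have h7 : (L : ℝ) * FF ρ = L * a + ρ * L * μ := by rw [← hFeq]; ring
    have h8 : 2 * (δ * L) * (|μ| + 1) ≤ L * FF ρ := by
      have := mul_le_mul_of_nonneg_right hd4 hL0
      linarith
    have h9 : 0 ≤ δ * (L : ℝ) := by positivity
    linarith
  set η : ℝ := |f| * δ with hη
  obtain ⟨X₁, hX₁, hup⟩ := count_upper (K₀ := 4 * (2 * α)) (U := α * FF ρ) (η := η)
    (D := |f| * L / Real.log 2) hL1 hz0 hz1 (P1_eq hz0 hz1 A) hP2
    (by positivity) (by positivity) (by positivity) (by positivity) (show 0 < ε / 2 by positivity)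
  obtain ⟨X₂, hX₂, hst⟩ := steps_le (γ := 2 * α)
    (hi := (Real.log 2 - 1 / (2 * α)) / Real.log 3) (by positivity) (by field_simp; ring)
    (by
      apply div_nonneg _ hl3.le
      have : 1 / (2 * α) ≤ 1 / α := by
        apply div_le_div_of_nonneg_left (by norm_num) hα0 (by linarith)
      have h3 : 0 < ρ * Real.log 3 := by positivity
      linarith) hL1
  refine ⟨max X₁ X₂, le_trans hX₁ (le_max_left _ _), fun x hx => ?_⟩
  have hx1 : 1 ≤ x := hX₁.trans ((le_max_left _ _).trans hx)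
  refine (hup x ((le_max_left _ _).trans hx) (St ρ δ L x) ?_).trans (exp_swap hx1 ?_)
  · rintro n ⟨hn2, hnx, k, hk, hw⟩
    have hn1 : 1 ≤ n := by omega
    refine ⟨hn1, hnx, k, hk, ?_, ?_, ?_⟩
    · intro i hi
      obtain ⟨w1, w2⟩ := abs_le.1 (hw i hi)
      constructor
      · have h3 : (1 : ℝ) ≤ (oc L (TZ^[i] (n : ℤ)) : ℝ) := by
          have : δ * (L : ℝ) ≤ ρ / 2 * L := mul_le_mul_of_nonneg_right hd1 hL0
          linarith
        exact_mod_cast h3
      · apply Nat.le_floor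
        linarith
    · refine hst x ((le_max_right _ _).trans hx) n k hn1 hnx hk fun i hi => ?_
      obtain ⟨w1, w2⟩ := abs_le.1 (hw i hi)
      have h3 : (oc L (TZ^[i] (n : ℤ)) : ℝ) ≤ (ρ + δ) * L := by linarith
      refine h3.trans (mul_le_mul_of_nonneg_right ?_ hL0)
      rw [le_div_iff₀ hl3]
      have h4 : δ * Real.log 3 ≤ 1 / (2 * α) := by
        rw [le_div_iff₀ (by positivity)]
        linarith
      have h5 : 1 / α = 2 * (1 / (2 * α)) := by field_simp
      linarith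
    · -- the exponents
      have e := key_id (a := a) (μ := μ) (k := k) (o := oN k n) h1α
      rw [hFeq] at e
      have t1 := tot_le (show 0 ≤ ρ + δ by linarith) hL1 k (n : ℤ) (fun i hi => by
        obtain ⟨w1, w2⟩ := abs_le.1 (hw i hi)
        linarith)
      have t2 := le_tot (show ρ - δ ≤ 1 by linarith) hL1 k (n : ℤ) (fun i hi => by
        obtain ⟨w1, w2⟩ := abs_le.1 (hw i hi)
        linarith)
      rw [← oN_eq] at t1 t2
      have t3 : |ρ * (k : ℝ) - oN k n| ≤ δ * k + L := by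
        rw [abs_le]
        constructor <;> linarith
      have t4 : -((δ * k + L) * |f|) ≤ (ρ * k - oN k n) * f := by
        have t5 := neg_abs_le ((ρ * (k : ℝ) - oN k n) * f)
        rw [abs_mul] at t5
        have t6 := mul_le_mul_of_nonneg_right t3 (abs_nonneg f)
        linarith
      have t7 : |f| * L ≤ |f| * L / Real.log 2 * Real.log (k + 2) := by
        have : Real.log 2 ≤ Real.log ((k : ℝ) + 2) := by
          apply Real.log_le_log (by norm_num)
          have : (0 : ℝ) ≤ k := Nat.cast_nonneg k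
          linarith
        have h6 : |f| * L / Real.log 2 * Real.log 2 ≤ |f| * L / Real.log 2 * Real.log (k + 2) :=
          mul_le_mul_of_nonneg_left this (by positivity)
        rwa [div_mul_cancel₀ _ hl2.ne'] at h6
      have t8 : η * k = δ * k * |f| := by rw [hη]; ring
      rw [← ha]
      rw [← hf] at e
      linarith
  · have : 4 * (2 * α) * η ≤ ε / 2 := by
      rw [hη]
      have h3 : 0 ≤ δ * (16 * α) := by positivity
      have h4 : δ * (16 * α * (|f| + 1)) = 2 * (4 * (2 * α) * (|f| * δ)) + δ * (16 * α) := by ring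
      linarith
    linarith

/-- upper bound, second regime -/
theorem straight_upper2 {α : ℝ} (hα : 1 / Real.log 2 < α) (hF : FF (rr α) ≤ 0) {ε : ℝ}
    (hε : 0 < ε) :
    ∃ δ₀ : ℝ, 0 < δ₀ ∧ ∀ δ : ℝ, 0 < δ → δ ≤ δ₀ → ∃ L₀ : ℕ, ∀ L : ℕ, L₀ ≤ L →
      ∃ X₀ : ℝ, 1 ≤ X₀ ∧ ∀ x : ℝ, X₀ ≤ x →
        ((St (rr α) δ L x).ncard : ℝ) ≤ x ^ ε := by
  have hl2 : 0 < Real.log 2 := Real.log_pos (by norm_num)
  have hl3 : 0 < Real.log 3 := Real.log_pos (by norm_num)
  have hα0 : 0 < α := lt_trans (by positivity) hα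
  have hspec := rr_spec α
  set ρ := rr α with hρ
  have hρ0 : 0 < ρ := rr_pos hα
  have hρ1 : ρ < 1 := rr_lt_one hα0
  set z : ℝ := 1 - ρ with hz
  have hz0 : 0 < z := by linarith
  have hz1 : z < 1 := by linarith
  set a : ℝ := -Real.log z with ha
  have ha0 : 0 < a := by
    have := Real.log_neg hz0 hz1
    linarith
  set lam : ℝ := -Real.log (3 * (1 - z) / z) with hlam
  have hFeq : a + ρ * lam = FF ρ := phi_eq hρ0 hρ1
  have hlam0 : lam < 0 := by
    by_contra h
    push Not at h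
    have : 0 ≤ ρ * lam := by positivity
    linarith
  refine ⟨min (ρ / 2) (min (1 / (2 * α * Real.log 3)) (ε * ρ / (64 * α * a))), ?_,
    fun δ hδ0 hδ => ?_⟩
  · exact lt_min (by positivity) (lt_min (by positivity) (by positivity))
  have hd1 : δ ≤ ρ / 2 := hδ.trans (min_le_left _ _)
  have hd2 : δ * (2 * α * Real.log 3) ≤ 1 := by
    have : δ ≤ 1 / (2 * α * Real.log 3) := hδ.trans ((min_le_right _ _).trans (min_le_left _ _))
    rwa [le_div_iff₀ (by positivity)] at this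
  have hd3 : δ * (64 * α * a) ≤ ε * ρ := by
    have : δ ≤ ε * ρ / (64 * α * a) := hδ.trans ((min_le_right _ _).trans (min_le_right _ _))
    rwa [le_div_iff₀ (by positivity)] at this
  obtain ⟨L₀, hL₀⟩ := exists_nat_ge (max (2 / ρ) (1 / δ))
  refine ⟨L₀ + 1, fun L hL => ?_⟩
  have hL1 : 1 ≤ L := by omega
  have hLr : (L₀ : ℝ) ≤ L := by exact_mod_cast (by omega : L₀ ≤ L)
  have hLa : 2 / ρ ≤ L := (le_max_left _ _).trans (hL₀.trans hLr)
  have hLb : 1 / δ ≤ L := (le_max_right _ _).trans (hL₀.trans hLr)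
  rw [div_le_iff₀ hρ0] at hLa
  rw [div_le_iff₀ hδ0] at hLb
  have hL0 : (0 : ℝ) < L := by exact_mod_cast hL1
  set A : ℕ := ⌊(ρ + δ) * L⌋₊ with hA
  have hA1 : (A : ℝ) ≤ (ρ + δ) * L := Nat.floor_le (by positivity)
  have hA2 : (ρ + δ) * L < A + 1 := Nat.lt_floor_add_one _
  have hA0 : (0 : ℝ) < A + 1 := by positivity
  set μ : ℝ := -(L * a / (A + 1)) with hμ
  have hμA : ((A : ℝ) + 1) * μ = -(L * a) := by
    rw [hμ]
    field_simp
  have hP2 : z ^ L ≤ Real.exp ((A + 1) * μ) := by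
    apply P2_of hz0
    rw [hμA, ← ha]
    linarith
  have hP1 : (z / (3 * (1 - z))) ^ (A + 1) ≤ Real.exp ((A + 1) * μ) := by
    refine (P1_eq hz0 hz1 A).trans ?_
    apply Real.exp_le_exp.2
    rw [hμA, ← hlam]
    have h2 : ((A : ℝ) + 1) * lam ≤ ρ * L * lam := by
      apply mul_le_mul_of_nonpos_right _ hlam0.le
      have : 0 ≤ δ * (L : ℝ) := by positivity
      linarith
    have h3 : ρ * lam ≤ -a := by linarith
    have h4 : L * (ρ * lam) ≤ L * (-a) := mul_le_mul_of_nonneg_left h3 hL0.le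
    linarith
  set η : ℝ := a * (3 * δ) / ρ with hη
  obtain ⟨X₁, hX₁, hup⟩ := count_upper (K₀ := 4 * (2 * α)) (U := 0) (η := η)
    (D := a * L / ρ / Real.log 2) hL1 hz0 hz1 hP1 hP2
    le_rfl (by positivity) (by positivity) (by positivity) (show 0 < ε / 2 by positivity)
  obtain ⟨X₂, hX₂, hst⟩ := steps_le (γ := 2 * α)
    (hi := (Real.log 2 - 1 / (2 * α)) / Real.log 3) (by positivity) (by field_simp; ring)
    (by
      apply div_nonneg _ hl3.le
      have : 1 / (2 * α) ≤ 1 / α := by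
        apply div_le_div_of_nonneg_left (by norm_num) hα0 (by linarith)
      have h3 : 0 < ρ * Real.log 3 := by positivity
      linarith) hL1
  refine ⟨max X₁ X₂, le_trans hX₁ (le_max_left _ _), fun x hx => ?_⟩
  have hx1 : 1 ≤ x := hX₁.trans ((le_max_left _ _).trans hx)
  refine (hup x ((le_max_left _ _).trans hx) (St ρ δ L x) ?_).trans (exp_swap hx1 ?_)
  · rintro n ⟨hn2, hnx, k, hk, hw⟩
    have hn1 : 1 ≤ n := by omega
    refine ⟨hn1, hnx, k, hk, ?_, ?_, ?_⟩
    · intro i hi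
      obtain ⟨w1, w2⟩ := abs_le.1 (hw i hi)
      constructor
      · have h3 : (1 : ℝ) ≤ (oc L (TZ^[i] (n : ℤ)) : ℝ) := by
          have : δ * (L : ℝ) ≤ ρ / 2 * L := mul_le_mul_of_nonneg_right hd1 hL0.le
          linarith
        exact_mod_cast h3
      · apply Nat.le_floor
        linarith
    · refine hst x ((le_max_right _ _).trans hx) n k hn1 hnx hk fun i hi => ?_
      obtain ⟨w1, w2⟩ := abs_le.1 (hw i hi)
      have h3 : (oc L (TZ^[i] (n : ℤ)) : ℝ) ≤ (ρ + δ) * L := by linarith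
      refine h3.trans (mul_le_mul_of_nonneg_right ?_ hL0.le)
      rw [le_div_iff₀ hl3]
      have h4 : δ * Real.log 3 ≤ 1 / (2 * α) := by
        rw [le_div_iff₀ (by positivity)]
        linarith
      have h5 : 1 / α = 2 * (1 / (2 * α)) := by field_simp
      linarith
    · -- the exponents
      have t2 := le_tot (show ρ - δ ≤ 1 by linarith) hL1 k (n : ℤ) (fun i hi => by
        obtain ⟨w1, w2⟩ := abs_le.1 (hw i hi)
        linarith)
      rw [← oN_eq] at t2
      have hk0 : (0 : ℝ) ≤ k := Nat.cast_nonneg k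
      -- `L / (A + 1) ≥ 1 / (ρ + 2 δ)`
      have h3 : (A : ℝ) + 1 ≤ (ρ + 2 * δ) * L := by linarith
      have h4 : (k : ℝ) * a + oN k n * μ = a * (k - oN k n * (L / (A + 1))) := by
        rw [hμ]
        ring
      rw [← ha, h4]
      have h5 : 1 / (ρ + 2 * δ) ≤ L / (A + 1) := by
        rw [div_le_div_iff₀ (by positivity) hA0]
        linarith
      have ho : (0 : ℝ) ≤ oN k n := Nat.cast_nonneg _
      have h6 : (oN k n : ℝ) * (1 / (ρ + 2 * δ)) ≤ oN k n * (L / (A + 1)) :=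
        mul_le_mul_of_nonneg_left h5 ho
      have h7 : ((ρ - δ) * k - L) * (1 / (ρ + 2 * δ)) ≤ oN k n * (1 / (ρ + 2 * δ)) :=
        mul_le_mul_of_nonneg_right t2 (by positivity)
      have h8 : (k : ℝ) - ((ρ - δ) * k - L) * (1 / (ρ + 2 * δ)) = (3 * δ * k + L) / (ρ + 2 * δ) := by
        field_simp
        ring
      have h9 : (3 * δ * k + L) / (ρ + 2 * δ) ≤ (3 * δ * k + L) / ρ := by
        apply div_le_div_of_nonneg_left (by positivity) hρ0 (by linarith)
      have h10 : a * (k - oN k n * (L / (A + 1))) ≤ a * ((3 * δ * k + L) / ρ) :=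
        mul_le_mul_of_nonneg_left (by linarith) ha0.le
      have h11 : a * ((3 * δ * k + L) / ρ) = η * k + a * L / ρ := by
        rw [hη]
        field_simp
      have t7 : a * L / ρ ≤ a * L / ρ / Real.log 2 * Real.log (k + 2) := by
        have : Real.log 2 ≤ Real.log ((k : ℝ) + 2) := by
          apply Real.log_le_log (by norm_num)
          linarith
        have h6 : a * L / ρ / Real.log 2 * Real.log 2 ≤ a * L / ρ / Real.log 2 * Real.log (k + 2) :=
          mul_le_mul_of_nonneg_left this (by positivity)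
        rwa [div_mul_cancel₀ _ hl2.ne'] at h6
      linarith
  · have : 4 * (2 * α) * η ≤ ε / 2 := by
      rw [hη]
      have h3 : 4 * (2 * α) * (a * (3 * δ) / ρ) = δ * (24 * α * a) / ρ := by ring
      rw [h3, div_le_iff₀ hρ0]
      have h4 : 0 ≤ δ * (α * a) := by positivity
      linarith
    linarith

end Pool.Agent.Y966.UB
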