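import Pool.Agent.Y966.UB.Fin3

/-!
Steady trajectories: both tails.  Straight trajectories: the law for all slopes.
-/

set_option autoImplicit false
set_option linter.unusedVariables false

namespace Pool.Agent.Y966.UB

open Finset Filter Topology Pool.Agent.H395R2.G3
open Pool.Agent.Y966.LD

/-- the slope function of the tilt -/
noncomputable def fz (z : ℝ) : ℝ :=
  (-Real.log z) * Real.log 3 + (-Real.log (3 * (1 - z) / z)) * Real.log 2

theorem fz_eq {z : ℝ} (h0 : 0 < z) (h1 : z < 1) : fz z =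
    -(Real.log 3 - Real.log 2) * Real.log z - Real.log 2 * Real.log (1 - z) -
      Real.log 2 * Real.log 3 := by
  have h2 : 0 < 1 - z := by linarith
  unfold fz
  rw [Real.log_div (by positivity) h0.ne', Real.log_mul (by norm_num) h2.ne']
  ring

theorem conc {x y s : ℝ} (hx : 0 < x) (hy : 0 < y) (hs0 : 0 ≤ s) (hs1 : s ≤ 1) :
    s * Real.log x + (1 - s) * Real.log y ≤ Real.log (s * x + (1 - s) * y) := by
  have h := strictConcaveOn_log_Ioi.concaveOn.2 (show x ∈ Set.Ioi 0 from hx)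
    (show y ∈ Set.Ioi 0 from hy) hs0 (show 0 ≤ 1 - s by linarith) (by ring)
  simpa [smul_eq_mul] using h

theorem log14 : Real.log (1 / 4) = -(2 * Real.log 2) := by
  rw [one_div, Real.log_inv, show (4 : ℝ) = 2 ^ 2 by norm_num, Real.log_pow]
  norm_num

theorem log12 : Real.log (1 / 2) = -Real.log 2 := by
  rw [one_div, Real.log_inv]

theorem log34 : Real.log (3 / 4) = Real.log 3 - 2 * Real.log 2 := by
  rw [Real.log_div (by norm_num) (by norm_num), show (4 : ℝ) = 2 ^ 2 by norm_num, Real.log_pow]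
  norm_num

theorem fz_nonpos {z : ℝ} (h0 : 1 / 4 ≤ z) (h1 : z ≤ 1 / 2) : fz z ≤ 0 := by
  have hl2 : 0 < Real.log 2 := Real.log_pos (by norm_num)
  have hl23 : 0 < Real.log 3 - Real.log 2 := by
    have := Real.log_lt_log (show (0 : ℝ) < 2 by norm_num) (show (2 : ℝ) < 3 by norm_num)
    linarith
  rw [fz_eq (by linarith) (by linarith)]
  set t : ℝ := 2 - 4 * z with ht
  have ht0 : 0 ≤ t := by linarith
  have ht1 : t ≤ 1 := by linarith
  have c1 := conc (show (0 : ℝ) < 1 / 4 by norm_num) (show (0 : ℝ) < 1 / 2 by norm_num) ht0 ht1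
  have c2 := conc (show (0 : ℝ) < 3 / 4 by norm_num) (show (0 : ℝ) < 1 / 2 by norm_num) ht0 ht1
  have e1 : t * (1 / 4) + (1 - t) * (1 / 2) = z := by rw [ht]; ring
  have e2 : t * (3 / 4) + (1 - t) * (1 / 2) = 1 - z := by rw [ht]; ring
  rw [e1, log14, log12] at c1
  rw [e2, log34, log12] at c2
  have d1 := mul_le_mul_of_nonneg_left c1 hl23.le
  have d2 := mul_le_mul_of_nonneg_left c2 hl2.le
  nlinarith

theorem fz_nonneg {z : ℝ} (h0 : 1 / 2 ≤ z) (h1 : z < 1) : 0 ≤ fz z := by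
  have hl2 : 0 < Real.log 2 := Real.log_pos (by norm_num)
  have hl23 : 0 < Real.log 3 - Real.log 2 := by
    have := Real.log_lt_log (show (0 : ℝ) < 2 by norm_num) (show (2 : ℝ) < 3 by norm_num)
    linarith
  have hfz := fz_eq (show 0 < z by linarith) h1
  set s : ℝ := (z - 1 / 2) / (z - 1 / 4) with hs
  have hz4 : 0 < z - 1 / 4 := by linarith
  have hs0 : 0 ≤ s := div_nonneg (by linarith) hz4.le
  have hs1 : s < 1 := by
    rw [hs, div_lt_one hz4]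
    linarith
  have hsz : s * (z - 1 / 4) = z - 1 / 2 := by
    rw [hs, div_mul_cancel₀ _ hz4.ne']
  have c1 := conc (show (0 : ℝ) < 1 / 4 by norm_num) (show (0 : ℝ) < z by linarith) hs0 hs1.le
  have c2 := conc (show (0 : ℝ) < 3 / 4 by norm_num) (show (0 : ℝ) < 1 - z by linarith) hs0 hs1.le
  have e1 : s * (1 / 4) + (1 - s) * z = 1 / 2 := by linarith
  have e2 : s * (3 / 4) + (1 - s) * (1 - z) = 1 / 2 := by linarith
  rw [e1, log14, log12] at c1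
  rw [e2, log34, log12] at c2
  have d1 := mul_le_mul_of_nonneg_left c1 hl23.le
  have d2 := mul_le_mul_of_nonneg_left c2 hl2.le
  have h3 : 0 ≤ (1 - s) * fz z := by
    rw [hfz]
    nlinarith
  exact nonneg_of_mul_nonneg_right h3 (by linarith)

/-- Gibbs' inequality -/
theorem gibbs_FF {ρ ρ₂ : ℝ} (h0 : 0 < ρ) (h1 : ρ < 1) (g0 : 0 < ρ₂) (g1 : ρ₂ < 1) (hne : ρ ≠ ρ₂) :
    FF ρ₂ < -Real.log (1 - ρ) + ρ₂ * (-Real.log (3 * (1 - (1 - ρ)) / (1 - ρ))) := by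
  have h2 : 0 < 1 - ρ := by linarith
  have g2 : 0 < 1 - ρ₂ := by linarith
  have e1 : 3 * (1 - (1 - ρ)) / (1 - ρ) = 3 * ρ / (1 - ρ) := by ring_nf
  rw [e1, Real.log_div (by positivity) h2.ne', Real.log_mul (by norm_num) h0.ne']
  unfold FF Real.binEntropy
  rw [Real.log_inv, Real.log_inv]
  have i1 : Real.log (ρ / ρ₂) < ρ / ρ₂ - 1 := by
    apply Real.log_lt_sub_one_of_pos (by positivity)
    intro h
    rw [div_eq_one_iff_eq g0.ne'] at h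
    exact hne h
  have i2 := Real.log_le_sub_one_of_pos (show 0 < (1 - ρ) / (1 - ρ₂) by positivity)
  have j1 : ρ₂ * Real.log (ρ / ρ₂) < ρ₂ * (ρ / ρ₂ - 1) := mul_lt_mul_of_pos_left i1 g0
  have j2 := mul_le_mul_of_nonneg_left i2 g2.le
  have k1 : ρ₂ * (ρ / ρ₂ - 1) = ρ - ρ₂ := by field_simp
  have k2 : (1 - ρ₂) * ((1 - ρ) / (1 - ρ₂) - 1) = (1 - ρ) - (1 - ρ₂) := by field_simp
  rw [k1, Real.log_div h0.ne' g0.ne'] at j1
  rw [k2, Real.log_div h2.ne' g2.ne'] at j2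
  nlinarith

theorem rr_mono {α γ : ℝ} (h0 : 0 < α) (h : α < γ) : rr α < rr γ := by
  have hl3 : 0 < Real.log 3 := Real.log_pos (by norm_num)
  unfold rr
  apply div_lt_div_of_pos_right _ hl3
  have : 1 / γ < 1 / α := one_div_lt_one_div_of_lt h0 h
  linarith

/-- steady trajectories, upper bound -/
theorem steady_upper {α γ : ℝ} (hα : 1 / Real.log 2 < α) (hαγ : α < γ) (hF : 0 ≤ FF (rr γ))
    {lo : ℝ} (hlo : 0 < lo) {D : ℝ} (hD : 0 ≤ D) {ε : ℝ} (hε : 0 < ε) :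
    ∃ L₀ : ℕ, ∀ L : ℕ, L₀ ≤ L → ∃ X₀ : ℝ, 1 ≤ X₀ ∧ ∀ x : ℝ, X₀ ≤ x → ∀ S : Set ℕ,
      (∀ n ∈ S, 2 ≤ n ∧ (n : ℝ) ≤ x ∧ ∃ k : ℕ, IsLeast {j : ℕ | fT^[j] n = 1} k ∧
        (∀ i, i + L ≤ k → lo * L ≤ (oc L (TZ^[i] (n : ℤ)) : ℝ) ∧
          (oc L (TZ^[i] (n : ℤ)) : ℝ) ≤ rr γ * L) ∧
        -(D * Real.log (k + 2)) ≤ (rr α * k - oN k n) * (α * fz (1 - rr α))) →
      (S.ncard : ℝ) ≤ x ^ (α * FF (rr α) + ε) := by
  have hl2 : 0 < Real.log 2 := Real.log_pos (by norm_num)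
  have hl3 : 0 < Real.log 3 := Real.log_pos (by norm_num)
  have hα0 : 0 < α := lt_trans (by positivity) hα
  have hγ0 : 0 < γ := hα0.trans hαγ
  have hspec := rr_spec α
  have hspec2 := rr_spec γ
  have hρρ := rr_mono hα0 hαγ
  set ρ := rr α with hρ
  set ρ₂ := rr γ with hρ₂
  have hρ0 : 0 < ρ := rr_pos hα
  have hρ1 : ρ < 1 := rr_lt_one hα0
  have hρ₂1 : ρ₂ < 1 := rr_lt_one hγ0
  have hρ₂0 : 0 < ρ₂ := hρ0.trans hρρ
  have h1α : α * (Real.log 2 - ρ * Real.log 3) = 1 := by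
    rw [← hspec]
    field_simp
  have hFpos : 0 < FF ρ := FF_pos_of hρ0 hρρ hρ₂1.le hF
  set z : ℝ := 1 - ρ with hz
  have hz0 : 0 < z := by linarith
  have hz1 : z < 1 := by linarith
  have hgibbs := gibbs_FF hρ0 hρ1 hρ₂0 hρ₂1 hρρ.ne
  rw [← hz] at hgibbs
  have hfz : fz z = (-Real.log z) * Real.log 3 + (-Real.log (3 * (1 - z) / z)) * Real.log 2 := rfl
  set a : ℝ := -Real.log z with ha
  set μ : ℝ := -Real.log (3 * (1 - z) / z) with hμ
  have hFeq : a + ρ * μ = FF ρ := phi_eq hρ0 hρ1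
  set Δ : ℝ := a + ρ₂ * μ with hΔ
  have hΔ0 : 0 < Δ := lt_of_le_of_lt hF hgibbs
  obtain ⟨L₀, hL₀⟩ := exists_nat_ge (max (1 / lo) (|μ| / Δ))
  refine ⟨L₀ + 1, fun L hL => ?_⟩
  have hL1 : 1 ≤ L := by omega
  have hLr : (L₀ : ℝ) ≤ L := by exact_mod_cast (by omega : L₀ ≤ L)
  have hLa : 1 / lo ≤ L := (le_max_left _ _).trans (hL₀.trans hLr)
  have hLb : |μ| / Δ ≤ L := (le_max_right _ _).trans (hL₀.trans hLr)
  rw [div_le_iff₀ hlo] at hLa
  rw [div_le_iff₀ hΔ0] at hLb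
  have hL0 : (0 : ℝ) ≤ L := Nat.cast_nonneg L
  set A : ℕ := ⌊ρ₂ * L⌋₊ with hA
  have hA1 : (A : ℝ) ≤ ρ₂ * L := Nat.floor_le (by positivity)
  have hA2 : ρ₂ * L < A + 1 := Nat.lt_floor_add_one _
  have hP2 : z ^ L ≤ Real.exp ((A + 1) * μ) := by
    apply P2_of hz0
    rw [← ha]
    have h5 : ((A : ℝ) + 1 - ρ₂ * L) * (-|μ|) ≤ ((A : ℝ) + 1 - ρ₂ * L) * μ :=
      mul_le_mul_of_nonneg_left (neg_abs_le μ) (by linarith)
    have h6 : ((A : ℝ) + 1 - ρ₂ * L) * |μ| ≤ 1 * |μ| :=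
      mul_le_mul_of_nonneg_right (by linarith) (abs_nonneg _)
    have h7 : (L : ℝ) * Δ = L * a + ρ₂ * L * μ := by rw [hΔ]; ring
    linarith
  obtain ⟨X₁, hX₁, hup⟩ := count_upper (K₀ := 4 * γ) (U := α * FF ρ) (η := 0)
    (D := D) hL1 hz0 hz1 (P1_eq hz0 hz1 A) hP2
    (by positivity) le_rfl (by positivity) hD hε
  obtain ⟨X₂, hX₂, hst⟩ := steps_le (γ := γ) (hi := ρ₂) hγ0 hspec2.symm hρ₂0.le hL1
  refine ⟨max X₁ X₂, le_trans hX₁ (le_max_left _ _), fun x hx S hS => ?_⟩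
  have hx1 : 1 ≤ x := hX₁.trans ((le_max_left _ _).trans hx)
  refine (hup x ((le_max_left _ _).trans hx) S ?_).trans (exp_swap hx1 (by linarith))
  intro n hn
  obtain ⟨hn2, hnx, k, hk, hw, hc⟩ := hS n hn
  have hn1 : 1 ≤ n := by omega
  refine ⟨hn1, hnx, k, hk, ?_, ?_, ?_⟩
  · intro i hi
    obtain ⟨w1, w2⟩ := hw i hi
    constructor
    · have h3 : (1 : ℝ) ≤ (oc L (TZ^[i] (n : ℤ)) : ℝ) := by linarith
      exact_mod_cast h3
    · exact Nat.le_floor w2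
  · exact hst x ((le_max_right _ _).trans hx) n k hn1 hnx hk fun i hi => (hw i hi).2
  · have e := key_id (a := a) (μ := μ) (k := k) (o := oN k n) h1α
    rw [hFeq] at e
    rw [hfz] at hc
    linarith

/-- steady trajectories with a bound on the total stopping time -/
def Sd (P : ℝ → ℝ → Prop) (lo hi α : ℝ) (L : ℕ) (x : ℝ) : Set ℕ :=
  {n : ℕ | 2 ≤ n ∧ (n : ℝ) ≤ x ∧ ∃ k : ℕ, IsLeast {j : ℕ | fT^[j] n = 1} k ∧
    P (k : ℝ) (α * Real.log n) ∧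
    ∀ i, i + L ≤ k → lo * L ≤ (oc L (TZ^[i] (n : ℤ)) : ℝ) ∧ (oc L (TZ^[i] (n : ℤ)) : ℝ) ≤ hi * L}

theorem Sd_finite (P : ℝ → ℝ → Prop) (lo hi α : ℝ) (L : ℕ) (x : ℝ) : (Sd P lo hi α L x).Finite := by
  apply (Set.finite_Iic ⌊x⌋₊).subset
  rintro m ⟨_, hm, _⟩
  exact Nat.le_floor hm

theorem rr_half {α : ℝ} (hα0 : 0 < α) : (α ≤ 2 / Real.log (4 / 3) → rr α ≤ 1 / 2) ∧
    (2 / Real.log (4 / 3) ≤ α → 1 / 2 ≤ rr α) := by
  have hl3 : 0 < Real.log 3 := Real.log_pos (by norm_num)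
  have h43 : 0 < Real.log (4 / 3) := Real.log_pos (by norm_num)
  have e : Real.log (4 / 3) = 2 * Real.log 2 - Real.log 3 := by
    rw [Real.log_div (by norm_num) (by norm_num), show (4 : ℝ) = 2 ^ 2 by norm_num, Real.log_pow]
    norm_num
  unfold rr
  constructor
  · intro h
    rw [le_div_iff₀ h43] at h
    have h2 : Real.log (4 / 3) / 2 ≤ 1 / α := by
      rw [div_le_div_iff₀ (by norm_num) hα0]
      linarith
    rw [div_le_iff₀ hl3]
    rw [e] at h2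
    linarith
  · intro h
    rw [div_le_iff₀ h43] at h
    have h2 : 1 / α ≤ Real.log (4 / 3) / 2 := by
      rw [div_le_div_iff₀ hα0 (by norm_num)]
      linarith
    rw [le_div_iff₀ hl3]
    rw [e] at h2
    linarith

theorem rr_quarter {ρ : ℝ} (h0 : 0 < ρ) (h1 : ρ < 1) (hF : 0 < FF ρ) : ρ ≤ 3 / 4 := by
  by_contra h
  push Not at h
  have h2 : (4905 / 8053 : ℝ) < ρ := by linarith [show (4905 / 8053 : ℝ) < 3 / 4 by norm_num]
  have := FF_pos_of (show (0 : ℝ) < 4905 / 8053 by norm_num) h2 h1.le hF.le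
  linarith [FF_high]

/-- the lower tail, upper bound -/
theorem tail_low_upper {α γ : ℝ} (hα : 1 / Real.log 2 < α) (hαγ : α < γ) (hF : 0 ≤ FF (rr γ))
    (hhalf : α ≤ 2 / Real.log (4 / 3)) {lo : ℝ} (hlo : 0 < lo) {ε : ℝ} (hε : 0 < ε) :
    ∃ L₀ : ℕ, ∀ L : ℕ, L₀ ≤ L → ∃ X₀ : ℝ, 1 ≤ X₀ ∧ ∀ x : ℝ, X₀ ≤ x →
      ((Sd (· ≤ ·) lo (rr γ) α L x).ncard : ℝ) ≤ x ^ (α * FF (rr α) + ε) := by
  have hl2 : 0 < Real.log 2 := Real.log_pos (by norm_num)
  have hl3 : 0 < Real.log 3 := Real.log_pos (by norm_num)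
  have hα0 : 0 < α := lt_trans (by positivity) hα
  obtain ⟨L₀, hL₀⟩ := steady_upper hα hαγ hF hlo le_rfl hε
  refine ⟨L₀, fun L hL => ?_⟩
  obtain ⟨X₀, hX₀, h⟩ := hL₀ L hL
  refine ⟨X₀, hX₀, fun x hx => h x hx _ ?_⟩
  rintro n ⟨hn2, hnx, k, hk, hkα, hw⟩
  refine ⟨hn2, hnx, k, hk, hw, ?_⟩
  rw [zero_mul, neg_zero]
  have hs := (log_size (show 1 ≤ n by omega) hk).1
  have hspec := rr_spec α
  have h1α : α * (Real.log 2 - rr α * Real.log 3) = 1 := by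
    rw [← hspec]
    field_simp
  have h2 : (k : ℝ) ≤ α * (k * Real.log 2 - oN k n * Real.log 3) :=
    le_trans hkα (mul_le_mul_of_nonneg_left hs hα0.le)
  have h3 : 0 ≤ rr α * k - oN k n := by
    have h4 : α * (k * Real.log 2 - oN k n * Real.log 3) - k =
        α * Real.log 3 * (rr α * k - oN k n) := by
      have : (k : ℝ) = k * (α * (Real.log 2 - rr α * Real.log 3)) := by rw [h1α, mul_one]
      nth_rewrite 2 [this]
      ring
    have h5 : 0 ≤ α * Real.log 3 * (rr α * k - oN k n) := by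
      rw [← h4]
      linarith
    exact nonneg_of_mul_nonneg_right h5 (by positivity)
  have hρ0 := rr_pos hα
  have h6 := fz_nonneg (z := 1 - rr α) (by have := (rr_half hα0).1 hhalf; linarith) (by linarith)
  positivity

/-- the upper tail, upper bound -/
theorem tail_high_upper {α γ : ℝ} (hα : 1 / Real.log 2 < α) (hαγ : α < γ) (hF : 0 ≤ FF (rr γ))
    (hhalf : 2 / Real.log (4 / 3) ≤ α) {lo : ℝ} (hlo : 0 < lo) {ε : ℝ} (hε : 0 < ε) :
    ∃ L₀ : ℕ, ∀ L : ℕ, L₀ ≤ L → ∃ X₀ : ℝ, 1 ≤ X₀ ∧ ∀ x : ℝ, X₀ ≤ x →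
      ((Sd (fun s t => t ≤ s) lo (rr γ) α L x).ncard : ℝ) ≤ x ^ (α * FF (rr α) + ε) := by
  have hl2 : 0 < Real.log 2 := Real.log_pos (by norm_num)
  have hl3 : 0 < Real.log 3 := Real.log_pos (by norm_num)
  have hα0 : 0 < α := lt_trans (by positivity) hα
  have hρ0 := rr_pos hα
  have hρ1 := rr_lt_one hα0
  have hFpos : 0 < FF (rr α) :=
    FF_pos_of hρ0 (rr_mono hα0 hαγ) (rr_lt_one (hα0.trans hαγ)).le hF
  have hq := rr_quarter hρ0 hρ1 hFpos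
  have hfz := fz_nonpos (z := 1 - rr α) (by linarith)
    (by have := (rr_half hα0).2 hhalf; linarith)
  set f := fz (1 - rr α) with hf
  obtain ⟨L₀, hL₀⟩ := steady_upper hα hαγ hF hlo
    (show 0 ≤ α * (-f) / Real.log 3 from div_nonneg (mul_nonneg hα0.le (by linarith)) hl3.le) hε
  refine ⟨L₀, fun L hL => ?_⟩
  obtain ⟨X₀, hX₀, h⟩ := hL₀ L hL
  refine ⟨X₀, hX₀, fun x hx => h x hx _ ?_⟩
  rintro n ⟨hn2, hnx, k, hk, hkα, hw⟩
  refine ⟨hn2, hnx, k, hk, hw, ?_⟩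
  rw [← hf]
  have hs := (log_size (show 1 ≤ n by omega) hk).2
  have hspec := rr_spec α
  have h1α : α * (Real.log 2 - rr α * Real.log 3) = 1 := by
    rw [← hspec]
    field_simp
  have hok : (oN k n : ℝ) ≤ k := by exact_mod_cast oN_le k n
  have ho0 : (0 : ℝ) ≤ oN k n := Nat.cast_nonneg _
  have hlog : Real.log ((oN k n : ℝ) + 1) ≤ Real.log ((k : ℝ) + 2) := by
    apply Real.log_le_log (by positivity)
    linarith
  have hlog0 : 0 ≤ Real.log ((k : ℝ) + 2) := Real.log_nonneg (by linarith)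
  have hkα' : α * Real.log n ≤ k := hkα
  have h2 : α * (k * Real.log 2 - oN k n * Real.log 3) ≤ k + α * Real.log ((k : ℝ) + 2) := by
    have := mul_le_mul_of_nonneg_left (hs.trans (add_le_add_right hlog (Real.log n))) hα0.le
    linarith
  have h4 : α * (k * Real.log 2 - oN k n * Real.log 3) - k =
      α * Real.log 3 * (rr α * k - oN k n) := by
    have : (k : ℝ) = k * (α * (Real.log 2 - rr α * Real.log 3)) := by rw [h1α, mul_one]
    nth_rewrite 2 [this]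
    ring
  have h5 : Real.log 3 * (rr α * k - oN k n) ≤ Real.log ((k : ℝ) + 2) := by
    have h6 : α * (Real.log 3 * (rr α * k - oN k n)) ≤ α * Real.log ((k : ℝ) + 2) := by linarith
    exact le_of_mul_le_mul_left h6 hα0
  have h7 : rr α * k - oN k n ≤ Real.log ((k : ℝ) + 2) / Real.log 3 := by
    rw [le_div_iff₀ hl3]
    linarith
  have h8 : (rr α * k - oN k n) * (α * (-f)) ≤ Real.log ((k : ℝ) + 2) / Real.log 3 * (α * (-f)) :=
    mul_le_mul_of_nonneg_right h7 (mul_nonneg hα0.le (by linarith))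
  have h9 : α * (-f) / Real.log 3 * Real.log (k + 2) =
      Real.log ((k : ℝ) + 2) / Real.log 3 * (α * (-f)) := by ring
  rw [h9]
  linarith

/-- continuity of the exponent -/
theorem expo_cont {α : ℝ} (hα0 : 0 < α) : ContinuousAt (fun a => a * FF (rr a)) α := by
  have h1 : ContinuousAt rr α := by
    unfold rr
    have : α ≠ 0 := hα0.ne'
    fun_prop (disch := assumption)
  exact continuousAt_id.mul (FF_cont.continuousAt.comp h1)

theorem rr_cont {α : ℝ} (hα0 : 0 < α) : ContinuousAt rr α := by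
  unfold rr
  have : α ≠ 0 := hα0.ne'
  fun_prop (disch := assumption)

/-- lower bounds for the tails -/
theorem tail_lower_core {a γ : ℝ} (ha : 1 / Real.log 2 < a) (haγ : a < γ) (hF : 0 ≤ FF (rr γ))
    {lo : ℝ} (hlo : lo < rr a) {α : ℝ} (hα : α ≠ a) {ε : ℝ} (hε : 0 < ε) :
    ∃ L₀ : ℕ, ∀ L : ℕ, L₀ ≤ L → ∃ X₀ : ℝ, 1 ≤ X₀ ∧ ∀ x : ℝ, X₀ ≤ x →
      x ^ (a * FF (rr a) - ε) ≤ ((Sd (fun s t => (a < α → s ≤ t) ∧ (α < a → t ≤ s))
        lo (rr γ) α L x).ncard : ℝ) := by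
  have hl2 : 0 < Real.log 2 := Real.log_pos (by norm_num)
  have ha0 : 0 < a := lt_trans (by positivity) ha
  have hρ0 := rr_pos ha
  have hρ1 := rr_lt_one ha0
  have hρρ := rr_mono ha0 haγ
  have hFpos : 0 < FF (rr a) := FF_pos_of hρ0 hρρ (rr_lt_one (ha0.trans haγ)).le hF
  have hspec := rr_spec a
  have h1a : a * (Real.log 2 - rr a * Real.log 3) = 1 := by
    rw [← hspec]
    field_simp
  have habs : 0 < |α - a| := abs_pos.2 (sub_ne_zero.2 hα)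
  set δ : ℝ := min |α - a| (min (rr γ - rr a) (rr a - lo)) with hδ
  have hδ0 : 0 < δ := lt_min habs (lt_min (by linarith) (by linarith))
  have hδ1 : δ ≤ |α - a| := min_le_left _ _
  have hδ2 : δ ≤ rr γ - rr a := (min_le_right _ _).trans (min_le_left _ _)
  have hδ3 : δ ≤ rr a - lo := (min_le_right _ _).trans (min_le_right _ _)
  obtain ⟨L₀, hL₀⟩ := lower_gen hρ0 hρ1 hFpos ha0 h1a hε hδ0
  refine ⟨L₀, fun L hL => ?_⟩
  obtain ⟨X₀, hX₀, h⟩ := hL₀ L hL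
  refine ⟨X₀, hX₀, fun x hx => (h x hx).trans ?_⟩
  have hsub : Str (rr a) a δ L x ⊆ Sd (fun s t => (a < α → s ≤ t) ∧ (α < a → t ≤ s))
      lo (rr γ) α L x := by
    rintro n ⟨hn2, hnx, k, hk, hka, hw⟩
    have hlog : 0 < Real.log n := Real.log_pos (by exact_mod_cast hn2)
    obtain ⟨k1, k2⟩ := abs_le.1 hka
    have h5 : δ * Real.log n ≤ |α - a| * Real.log n := mul_le_mul_of_nonneg_right hδ1 hlog.le
    refine ⟨hn2, hnx, k, hk, ⟨fun h3 => ?_, fun h3 => ?_⟩, fun i hi => ?_⟩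
    · rw [abs_of_pos (by linarith)] at h5
      linarith
    · rw [abs_of_neg (by linarith)] at h5
      linarith
    · obtain ⟨w1, w2⟩ := abs_le.1 (hw i hi)
      have hL0 : (0 : ℝ) ≤ L := Nat.cast_nonneg L
      have h6 : δ * (L : ℝ) ≤ (rr γ - rr a) * L := mul_le_mul_of_nonneg_right hδ2 hL0
      have h7 : δ * (L : ℝ) ≤ (rr a - lo) * L := mul_le_mul_of_nonneg_right hδ3 hL0
      constructor <;> linarith
  exact_mod_cast Set.ncard_le_ncard hsub (Sd_finite _ _ _ _ _ _)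

theorem tail_low_lower {α γ : ℝ} (hα : 1 / Real.log 2 < α) (hαγ : α < γ) (hF : 0 ≤ FF (rr γ))
    {lo : ℝ} (hlo : lo < rr α) {ε : ℝ} (hε : 0 < ε) :
    ∃ L₀ : ℕ, ∀ L : ℕ, L₀ ≤ L → ∃ X₀ : ℝ, 1 ≤ X₀ ∧ ∀ x : ℝ, X₀ ≤ x →
      x ^ (α * FF (rr α) - ε) ≤ ((Sd (· ≤ ·) lo (rr γ) α L x).ncard : ℝ) := by
  have hl2 : 0 < Real.log 2 := Real.log_pos (by norm_num)
  have hα0 : 0 < α := lt_trans (by positivity) hα
  have h2 : ∀ᶠ a in 𝓝[<] α, α * FF (rr α) - ε / 2 < a * FF (rr a) := by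
    refine ((expo_cont hα0).mono_left nhdsWithin_le_nhds).eventually (lt_mem_nhds ?_)
    linarith
  have h3 : ∀ᶠ a in 𝓝[<] α, 1 / Real.log 2 < a :=
    (lt_mem_nhds hα).filter_mono nhdsWithin_le_nhds
  have h4 : ∀ᶠ a in 𝓝[<] α, lo < rr a :=
    ((rr_cont hα0).mono_left nhdsWithin_le_nhds).eventually (lt_mem_nhds hlo)
  obtain ⟨a, ha1, ha2, ha4, ha3⟩ := (h2.and (h3.and (h4.and self_mem_nhdsWithin))).exists
  have ha3' : a < α := ha3
  obtain ⟨L₀, hL₀⟩ := tail_lower_core ha2 (ha3'.trans hαγ) hF ha4 ha3'.ne'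
    (show 0 < ε / 2 by positivity)
  refine ⟨L₀, fun L hL => ?_⟩
  obtain ⟨X₀, hX₀, h⟩ := hL₀ L hL
  refine ⟨X₀, hX₀, fun x hx => (exp_swap (hX₀.trans hx) (by linarith)).trans ((h x hx).trans ?_)⟩
  have hsub : Sd (fun s t => (a < α → s ≤ t) ∧ (α < a → t ≤ s)) lo (rr γ) α L x ⊆
      Sd (· ≤ ·) lo (rr γ) α L x := by
    rintro n ⟨hn2, hnx, k, hk, hka, hw⟩
    exact ⟨hn2, hnx, k, hk, hka.1 ha3', hw⟩
  exact_mod_cast Set.ncard_le_ncard hsub (Sd_finite _ _ _ _ _ _)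

theorem tail_high_lower {α γ : ℝ} (hα : 1 / Real.log 2 < α) (hαγ : α < γ) (hF : 0 ≤ FF (rr γ))
    {lo : ℝ} (hlo : lo < rr α) {ε : ℝ} (hε : 0 < ε) :
    ∃ L₀ : ℕ, ∀ L : ℕ, L₀ ≤ L → ∃ X₀ : ℝ, 1 ≤ X₀ ∧ ∀ x : ℝ, X₀ ≤ x →
      x ^ (α * FF (rr α) - ε) ≤ ((Sd (fun s t => t ≤ s) lo (rr γ) α L x).ncard : ℝ) := by
  have hl2 : 0 < Real.log 2 := Real.log_pos (by norm_num)
  have hα0 : 0 < α := lt_trans (by positivity) hα
  have h2 : ∀ᶠ a in 𝓝[>] α, α * FF (rr α) - ε / 2 < a * FF (rr a) := by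
    refine ((expo_cont hα0).mono_left nhdsWithin_le_nhds).eventually (lt_mem_nhds ?_)
    linarith
  have h3 : ∀ᶠ a in 𝓝[>] α, a < γ :=
    (gt_mem_nhds hαγ).filter_mono nhdsWithin_le_nhds
  obtain ⟨a, ha1, ha2, ha3⟩ := (h2.and (h3.and self_mem_nhdsWithin)).exists
  have ha3' : α < a := ha3
  have ha4 : lo < rr a := hlo.trans (rr_mono hα0 ha3')
  obtain ⟨L₀, hL₀⟩ := tail_lower_core (hα.trans ha3') ha2 hF ha4 ha3'.ne
    (show 0 < ε / 2 by positivity)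
  refine ⟨L₀, fun L hL => ?_⟩
  obtain ⟨X₀, hX₀, h⟩ := hL₀ L hL
  refine ⟨X₀, hX₀, fun x hx => (exp_swap (hX₀.trans hx) (by linarith)).trans ((h x hx).trans ?_)⟩
  have hsub : Sd (fun s t => (a < α → s ≤ t) ∧ (α < a → t ≤ s)) lo (rr γ) α L x ⊆
      Sd (fun s t => t ≤ s) lo (rr γ) α L x := by
    rintro n ⟨hn2, hnx, k, hk, hka, hw⟩
    exact ⟨hn2, hnx, k, hk, hka.2 ha3', hw⟩
  exact_mod_cast Set.ncard_le_ncard hsub (Sd_finite _ _ _ _ _ _)

theorem least_two : IsLeast {j : ℕ | fT^[j] 2 = 1} 1 := by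
  refine ⟨by decide, fun j hj => ?_⟩
  rcases Nat.eq_zero_or_pos j with rfl | h
  · exact absurd hj (by decide)
  · exact h

/-- the law of straight trajectories -/
theorem straight_law {α : ℝ} (hα : 1 / Real.log 2 < α) {ε : ℝ} (hε : 0 < ε) :
    ∃ δ₀ : ℝ, 0 < δ₀ ∧ ∀ δ : ℝ, 0 < δ → δ ≤ δ₀ → ∃ L₀ : ℕ, ∀ L : ℕ, L₀ ≤ L →
      ∃ X₀ : ℝ, ∀ x : ℝ, X₀ ≤ x →
        x ^ (max 0 (1 - α * rate (1 / α)) - ε) ≤ ((St (rr α) δ L x).ncard : ℝ) ∧
        ((St (rr α) δ L x).ncard : ℝ) ≤ x ^ (max 0 (1 - α * rate (1 / α)) + ε) := by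
  have hl2 : 0 < Real.log 2 := Real.log_pos (by norm_num)
  have hα0 : 0 < α := lt_trans (by positivity) hα
  rw [expo_eq hα]
  have hspec := rr_spec α
  have h1α : α * (Real.log 2 - rr α * Real.log 3) = 1 := by
    rw [← hspec]
    field_simp
  rcases lt_or_ge 0 (FF (rr α)) with hF | hF
  · rw [max_eq_right (by positivity)]
    obtain ⟨δ₀, hδ₀, hup⟩ := straight_upper1 hα hF hε
    refine ⟨δ₀, hδ₀, fun δ hδ hδδ => ?_⟩
    obtain ⟨L₁, hL₁⟩ := hup δ hδ hδδ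
    obtain ⟨L₂, hL₂⟩ := lower_gen (rr_pos hα) (rr_lt_one hα0) hF hα0 h1α hε hδ
    refine ⟨max L₁ L₂, fun L hL => ?_⟩
    obtain ⟨X₁, hX₁, hu⟩ := hL₁ L ((le_max_left _ _).trans hL)
    obtain ⟨X₂, hX₂, hl⟩ := hL₂ L ((le_max_right _ _).trans hL)
    refine ⟨max X₁ X₂, fun x hx => ⟨(hl x ((le_max_right _ _).trans hx)).trans ?_,
      hu x ((le_max_left _ _).trans hx)⟩⟩
    have hsub : Str (rr α) α δ L x ⊆ St (rr α) δ L x := by
      rintro n ⟨hn2, hnx, k, hk, _, hw⟩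
      exact ⟨hn2, hnx, k, hk, hw⟩
    exact_mod_cast Set.ncard_le_ncard hsub (St_finite _ _ _ _)
  · have hαF : α * FF (rr α) ≤ 0 := mul_nonpos_of_nonneg_of_nonpos hα0.le hF
    rw [max_eq_left hαF, zero_add, zero_sub]
    obtain ⟨δ₀, hδ₀, hup⟩ := straight_upper2 hα hF hε
    refine ⟨δ₀, hδ₀, fun δ hδ hδδ => ?_⟩
    obtain ⟨L₁, hL₁⟩ := hup δ hδ hδδ
    refine ⟨max L₁ 2, fun L hL => ?_⟩
    obtain ⟨X₁, hX₁, hu⟩ := hL₁ L ((le_max_left _ _).trans hL)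
    have hL2 : 2 ≤ L := (le_max_right _ _).trans hL
    refine ⟨max X₁ 2, fun x hx => ⟨?_, hu x ((le_max_left _ _).trans hx)⟩⟩
    have hx2 : 2 ≤ x := (le_max_right _ _).trans hx
    have h2mem : 2 ∈ St (rr α) δ L x :=
      ⟨le_rfl, by exact_mod_cast hx2, 1, least_two, fun i hi => by omega⟩
    have h1 : 1 ≤ (St (rr α) δ L x).ncard := (Set.ncard_pos (St_finite _ _ _ _)).2 ⟨2, h2mem⟩
    have h3 : (1 : ℝ) ≤ ((St (rr α) δ L x).ncard : ℝ) := by exact_mod_cast h1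
    refine le_trans ?_ h3
    exact Real.rpow_le_one_of_one_le_of_nonpos (by linarith) (by linarith)

end Pool.Agent.Y966.UB
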