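import Pool.Agent.Y966.UB.Path5

/-!
Transfer of the local law from `3x+1` to `3x+d`, uniformly in `d`.
-/

set_option autoImplicit false
set_option linter.unusedVariables false

namespace Pool.Agent.Y966.UB

open Finset Pool.Agent.H395R2.G3
open Pool.Agent.Y966.LD

/-- the `3x+d` map -/
def TD (d m : ℤ) : ℤ := if m % 2 = 0 then m / 2 else (3 * m + d) / 2

/-- number of odd terms among the first `k` terms -/
def od (d : ℤ) (k : ℕ) (n : ℤ) : ℕ := ((range k).filter fun i => (TD d)^[i] n % 2 = 1).card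

/-- same parities -/
def Par (d : ℤ) (k : ℕ) (m M : ℤ) : Prop := ∀ i < k, (TD d)^[i] m % 2 = TZ^[i] M % 2

theorem od_zero (d n : ℤ) : od d 0 n = 0 := by simp [od]

theorem od_succ (d : ℤ) (k : ℕ) (n : ℤ) :
    od d (k + 1) n = od d k n + if (TD d)^[k] n % 2 = 1 then 1 else 0 := by
  unfold od
  rw [range_add_one, filter_insert]
  split_ifs with h
  · rw [card_insert_of_notMem (by simp)]
  · rfl

theorem Par_mono {d : ℤ} {k k' : ℕ} {m M : ℤ} (h : Par d k m M) (hk : k' ≤ k) : Par d k' m M :=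
  fun i hi => h i (by omega)

theorem Par_shift {d : ℤ} {j k : ℕ} {m M : ℤ} (h : Par d (j + k) m M) :
    Par d k ((TD d)^[j] m) (TZ^[j] M) := by
  intro i hi
  rw [← Function.iterate_add_apply, ← Function.iterate_add_apply]
  exact h _ (by omega)

theorem Par_od {d : ℤ} {k : ℕ} {m M : ℤ} (h : Par d k m M) : od d k m = oc k M := by
  unfold od oc
  congr 1
  apply filter_congr
  intro i hi
  rw [mem_range] at hi
  rw [h i hi]

theorem Par_od' {d : ℤ} {i j k : ℕ} {m M : ℤ} (h : Par d k m M) (hk : i + j ≤ k) :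
    od d j ((TD d)^[i] m) = oc j (TZ^[i] M) := Par_od (Par_shift (Par_mono h hk))

theorem TD_even {d a : ℤ} (h : a % 2 = 0) : a = 2 * TD d a := by
  unfold TD
  rw [if_pos h]
  omega

theorem TD_odd {d a : ℤ} (hd : d % 2 = 1) (h : a % 2 = 1) : 2 * TD d a = 3 * a + d := by
  unfold TD
  rw [if_neg (by omega)]
  omega

theorem TZ_two (X : ℤ) : TZ (2 * X) = X := by
  unfold TZ
  rw [if_pos (by omega)]
  omega

theorem TD_two (d X : ℤ) : TD d (2 * X) = X := by
  unfold TD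
  rw [if_pos (by omega)]
  omega

theorem three_dvd {d y : ℤ} (hd3 : ¬ (3 : ℤ) ∣ d) (h : (3 : ℤ) ∣ d * y) : (3 : ℤ) ∣ y := by
  rcases (Int.prime_three.dvd_mul).1 h with h | h
  · exact absurd h hd3
  · exact h

theorem fwd {d : ℤ} (hd : d % 2 = 1) (hd3 : ¬ (3 : ℤ) ∣ d) (k : ℕ) : ∀ a X m : ℤ,
    (3 : ℤ) ^ k ∣ d * X - a → (TD d)^[k] m = a → ∃ M : ℤ, TZ^[k] M = X ∧ Par d k m M := by
  induction k with
  | zero => intro a X m _ _; exact ⟨X, rfl, fun i hi => absurd hi (by omega)⟩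
  | succ k ih =>
    intro a X m hX hm
    rw [Function.iterate_succ_apply'] at hm
    set a' := (TD d)^[k] m with ha'
    have h3 : (3 : ℤ) ^ (k + 1) = 3 ^ k * 3 := pow_succ _ _
    rcases Int.emod_two_eq_zero_or_one a' with he | ho
    · have h1 : a' = 2 * a := by
        have := TD_even (d := d) he
        rw [hm] at this
        exact this
      obtain ⟨M, hM1, hM2⟩ := ih a' (2 * X) m (by
        obtain ⟨c, hc⟩ := hX
        refine ⟨3 * 2 * c, ?_⟩
        rw [h1, show d * (2 * X) - 2 * a = 2 * (d * X - a) by ring, hc, h3]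
        ring) rfl
      refine ⟨M, by rw [Function.iterate_succ_apply', hM1, TZ_two], fun i hi => ?_⟩
      rcases Nat.lt_or_ge i k with hik | hik
      · exact hM2 i hik
      · have : i = k := by omega
        subst this
        rw [hM1, ← ha', he]
        omega
    · have h1 : 2 * a = 3 * a' + d := by
        have := TD_odd hd ho
        rw [hm] at this
        exact this
      obtain ⟨c, hc⟩ := hX
      have h2 : d * (2 * X - 1) = 3 * (a' + 2 * (3 ^ k * c)) := by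
        have : d * (2 * X - 1) = 2 * (d * X - a) + 2 * a - d := by ring
        rw [this, hc, h1, h3]
        ring
      have h4 : (3 : ℤ) ∣ 2 * X - 1 := three_dvd hd3 ⟨_, h2⟩
      obtain ⟨X', hX'⟩ := h4
      have h5 : d * X' = a' + 2 * (3 ^ k * c) := by
        have : 3 * (d * X') = 3 * (a' + 2 * (3 ^ k * c)) := by
          rw [← h2, hX']
          ring
        linarith
      obtain ⟨M, hM1, hM2⟩ := ih a' X' m ⟨2 * c, by rw [h5]; ring⟩ rfl
      have hXo : X' % 2 = 1 := by omega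
      refine ⟨M, ?_, fun i hi => ?_⟩
      · rw [Function.iterate_succ_apply', hM1]
        unfold TZ
        rw [if_neg (by omega)]
        omega
      · rcases Nat.lt_or_ge i k with hik | hik
        · exact hM2 i hik
        · have : i = k := by omega
          subst this
          rw [hM1, ← ha', ho, hXo]

theorem bwd {d : ℤ} (hd : d % 2 = 1) (hd3 : ¬ (3 : ℤ) ∣ d) (k : ℕ) : ∀ a X M : ℤ,
    (3 : ℤ) ^ k ∣ d * X - a → TZ^[k] M = X → ∃ m : ℤ, (TD d)^[k] m = a ∧ Par d k m M := by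
  induction k with
  | zero => intro a X M _ _; exact ⟨a, rfl, fun i hi => absurd hi (by omega)⟩
  | succ k ih =>
    intro a X M hX hM
    rw [Function.iterate_succ_apply'] at hM
    set X' := TZ^[k] M with hX'
    have h3 : (3 : ℤ) ^ (k + 1) = 3 ^ k * 3 := pow_succ _ _
    obtain ⟨c, hc⟩ := hX
    rcases Int.emod_two_eq_zero_or_one X' with he | ho
    · have h1 : X' = 2 * X := by
        unfold TZ at hM
        rw [if_pos he] at hM
        omega
      obtain ⟨m, hm1, hm2⟩ := ih (2 * a) X' M ⟨3 * 2 * c, by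
        rw [h1, show d * (2 * X) - 2 * a = 2 * (d * X - a) by ring, hc, h3]
        ring⟩ rfl
      refine ⟨m, by rw [Function.iterate_succ_apply', hm1, TD_two], fun i hi => ?_⟩
      rcases Nat.lt_or_ge i k with hik | hik
      · exact hm2 i hik
      · have : i = k := by omega
        subst this
        rw [hm1, ← hX', he]
        omega
    · have h1 : 2 * X = 3 * X' + 1 := by
        unfold TZ at hM
        rw [if_neg (by omega)] at hM
        omega
      have h2 : 2 * a - d = 3 * (d * X' - 2 * (3 ^ k * c)) := by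
        have h6 : 2 * a = 2 * (d * X) - 2 * (d * X - a) := by ring
        have h7 : 2 * (d * X) = d * (2 * X) := by ring
        rw [h6, h7, hc, h1, h3]
        ring
      set a' := d * X' - 2 * (3 ^ k * c) with ha'
      obtain ⟨m, hm1, hm2⟩ := ih a' X' M ⟨2 * c, by rw [ha']; ring⟩ rfl
      have hao : a' % 2 = 1 := by omega
      refine ⟨m, ?_, fun i hi => ?_⟩
      · rw [Function.iterate_succ_apply', hm1]
        unfold TD
        rw [if_neg (by omega)]
        omega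
      · rcases Nat.lt_or_ge i k with hik | hik
        · exact hm2 i hik
        · have : i = k := by omega
          subst this
          rw [hm1, ← hX', ho, hao]

theorem TD_inj {d : ℤ} (hd : d % 2 = 1) (k : ℕ) : ∀ m m' : ℤ,
    (∀ i < k, (TD d)^[i] m % 2 = (TD d)^[i] m' % 2) → (TD d)^[k] m = (TD d)^[k] m' → m = m' := by
  induction k with
  | zero => intro m m' _ h; exact h
  | succ k ih =>
    intro m m' hp h
    apply ih m m' (fun i hi => hp i (by omega))
    rw [Function.iterate_succ_apply', Function.iterate_succ_apply'] at h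
    have hk := hp k (by omega)
    rcases Int.emod_two_eq_zero_or_one ((TD d)^[k] m) with he | ho
    · have h1 := TD_even (d := d) he
      have h2 := TD_even (d := d) (hk ▸ he)
      rw [h1, h2, h]
    · have h1 := TD_odd hd ho
      have h2 := TD_odd hd (hk ▸ ho)
      rw [h] at h1
      omega

theorem TZ_eq_TD (m : ℤ) : TZ m = TD 1 m := rfl

theorem TZ_iter_eq (k : ℕ) (m : ℤ) : TZ^[k] m = (TD 1)^[k] m := by
  have : TZ = TD 1 := funext TZ_eq_TD
  rw [this]

/-- TRANSFER -/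
theorem transfer {d : ℤ} (hd : d % 2 = 1) (hd3 : ¬ (3 : ℤ) ∣ d) (k : ℕ) {a X : ℤ}
    (hX : (3 : ℤ) ^ k ∣ d * X - a) {A B : ℤ → Prop} (hAB : ∀ m M, Par d k m M → (A m ↔ B M))
    (hf : {M : ℤ | TZ^[k] M = X ∧ B M}.Finite) :
    {m : ℤ | (TD d)^[k] m = a ∧ A m}.Finite ∧
    {m : ℤ | (TD d)^[k] m = a ∧ A m}.ncard = {M : ℤ | TZ^[k] M = X ∧ B M}.ncard := by
  classical
  have h1 : ∀ m : ℤ, ∃ M : ℤ, (TD d)^[k] m = a → (TZ^[k] M = X ∧ Par d k m M) := by
    intro m
    by_cases h : (TD d)^[k] m = a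
    · obtain ⟨M, hM⟩ := fwd hd hd3 k a X m hX h
      exact ⟨M, fun _ => hM⟩
    · exact ⟨0, fun h' => absurd h' h⟩
  have h2 : ∀ M : ℤ, ∃ m : ℤ, TZ^[k] M = X → ((TD d)^[k] m = a ∧ Par d k m M) := by
    intro M
    by_cases h : TZ^[k] M = X
    · obtain ⟨m, hm⟩ := bwd hd hd3 k a X M hX h
      exact ⟨m, fun _ => hm⟩
    · exact ⟨0, fun h' => absurd h' h⟩
  choose f hf1 using h1
  choose g hg1 using h2
  have fm : ∀ m ∈ {m : ℤ | (TD d)^[k] m = a ∧ A m}, f m ∈ {M : ℤ | TZ^[k] M = X ∧ B M} := by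
    rintro m ⟨hm, hA⟩
    obtain ⟨g1, g2⟩ := hf1 m hm
    exact ⟨g1, (hAB m _ g2).1 hA⟩
  have gm : ∀ M ∈ {M : ℤ | TZ^[k] M = X ∧ B M}, g M ∈ {m : ℤ | (TD d)^[k] m = a ∧ A m} := by
    rintro M ⟨hM, hB⟩
    obtain ⟨g1, g2⟩ := hg1 M hM
    exact ⟨g1, (hAB _ M g2).2 hB⟩
  have fi : Set.InjOn f {m : ℤ | (TD d)^[k] m = a ∧ A m} := by
    rintro m ⟨hm, _⟩ m' ⟨hm', _⟩ h
    obtain ⟨_, g2⟩ := hf1 m hm
    obtain ⟨_, g2'⟩ := hf1 m' hm'
    apply TD_inj hd k m m'
    · intro i hi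
      rw [g2 i hi, h, g2' i hi]
    · rw [hm, hm']
  have gi : Set.InjOn g {M : ℤ | TZ^[k] M = X ∧ B M} := by
    rintro M ⟨hM, _⟩ M' ⟨hM', _⟩ h
    obtain ⟨_, g2⟩ := hg1 M hM
    obtain ⟨_, g2'⟩ := hg1 M' hM'
    apply TD_inj (d := 1) (by norm_num) k M M'
    · intro i hi
      rw [← TZ_iter_eq, ← TZ_iter_eq, ← g2 i hi, h, g2' i hi]
    · rw [← TZ_iter_eq, ← TZ_iter_eq, hM, hM']
  have hfin : {m : ℤ | (TD d)^[k] m = a ∧ A m}.Finite := Set.Finite.of_injOn fm fi hf
  exact ⟨hfin, le_antisymm (Set.ncard_le_ncard_of_injOn f fm fi hf)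
    (Set.ncard_le_ncard_of_injOn g gm gi hfin)⟩

/-- a target for `3x+1` -/
theorem exists_target {d : ℤ} (hd3 : ¬ (3 : ℤ) ∣ d) (k : ℕ) (a : ℤ) :
    ∃ X : ℤ, (3 : ℤ) ^ k ∣ d * X - a ∧ (¬ (3 : ℤ) ∣ a → ¬ (3 : ℤ) ∣ X) := by
  have hc : IsCoprime d ((3 : ℤ) ^ (k + 1)) := by
    apply IsCoprime.pow_right
    exact ((Int.prime_three.coprime_iff_not_dvd).2 hd3).symm
  obtain ⟨u, v, huv⟩ := hc
  have h1 : d * (u * a) - a = 3 ^ (k + 1) * (-(v * a)) := by
    have : d * (u * a) - a = (u * d - 1) * a := by ring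
    rw [this, ← huv]
    ring
  refine ⟨u * a, ⟨3 * (-(v * a)), by rw [h1]; ring⟩, fun ha hX => ha ?_⟩
  have h2 : (3 : ℤ) ∣ d * (u * a) - a := ⟨3 ^ k * (-(v * a)), by rw [h1]; ring⟩
  have h3 : (3 : ℤ) ∣ d * (u * a) := Dvd.dvd.mul_left hX d
  have := dvd_sub h3 h2
  simpa using this

/-- the tube -/
def TbD (d : ℤ) (δ s : ℝ) : List (ℝ × ℝ) → ℤ → Prop
  | [], _ => True
  | p :: P, n => (∀ j ≤ ⌊p.1 * s⌋₊, |(od d j n : ℝ) - p.2 * j| ≤ δ * s) ∧
      TbD d δ s P ((TD d)^[⌊p.1 * s⌋₊] n)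

/-- steady -/
def StyD (d : ℤ) (η r : ℝ) (L : ℕ) (k : ℕ) (n : ℤ) : Prop :=
  ∀ i, i + L ≤ k → η * L ≤ (od d L ((TD d)^[i] n) : ℝ) ∧ (od d L ((TD d)^[i] n) : ℝ) ≤ r * L

theorem TbD_iff {d : ℤ} {δ s : ℝ} : ∀ (P : List (ℝ × ℝ)) (m M : ℤ), Par d (stp s P) m M →
    (TbD d δ s P m ↔ Tb δ s P M) := by
  intro P
  induction P with
  | nil => intro m M _; exact Iff.rfl
  | cons p P ih =>
    intro m M h
    have est : stp s (p :: P) = ⌊p.1 * s⌋₊ + stp s P := rfl
    rw [est] at h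
    have h1 := ih _ _ (Par_shift h)
    have h2 : ∀ j ≤ ⌊p.1 * s⌋₊, od d j m = oc j M := fun j hj =>
      Par_od (Par_mono h (by omega))
    constructor
    · rintro ⟨g1, g2⟩
      exact ⟨fun j hj => by rw [← h2 j hj]; exact g1 j hj, h1.1 g2⟩
    · rintro ⟨g1, g2⟩
      exact ⟨fun j hj => by rw [h2 j hj]; exact g1 j hj, h1.2 g2⟩

theorem StyD_iff {d : ℤ} {η r : ℝ} {L k : ℕ} {m M : ℤ} (h : Par d k m M) :
    StyD d η r L k m ↔ Sty η r L k M := by
  constructor
  · intro g i hi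
    rw [← Par_od' h hi]
    exact g i hi
  · intro g i hi
    rw [Par_od' h hi]
    exact g i hi

/-- size of the starting point -/
theorem size_d {d : ℤ} (hd : d % 2 = 1) (k : ℕ) : ∀ m : ℤ,
    (|m| : ℝ) ≤ 2 ^ k / 3 ^ (od d k m) * |((TD d)^[k] m : ℝ)| +
      |(d : ℝ)| * ∑ i ∈ range k, (2 : ℝ) ^ i / 3 ^ (od d i m) := by
  intro m
  induction k with
  | zero => simp [od_zero]
  | succ k ih =>
    set u := (TD d)^[k] m with hu
    have hA : (0 : ℝ) < 2 ^ k / 3 ^ (od d k m) := by positivity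
    set A : ℝ := 2 ^ k / 3 ^ (od d k m) with hAd
    rw [sum_range_succ, od_succ, Function.iterate_succ_apply', ← hu, ← hAd]
    have hd0 : 0 ≤ |(d : ℝ)| := abs_nonneg _
    rcases Int.emod_two_eq_zero_or_one u with he | ho
    · rw [if_neg (by omega)]
      have h1 : (u : ℝ) = 2 * (TD d u : ℤ) := by exact_mod_cast TD_even (d := d) he
      have h2 : |(u : ℝ)| = 2 * |((TD d u : ℤ) : ℝ)| := by
        rw [h1, abs_mul, abs_of_pos (by norm_num : (0 : ℝ) < 2)]
      have h3 : (2 : ℝ) ^ (k + 1) / 3 ^ (od d k m + 0) = 2 * A := by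
        rw [hAd, add_zero, pow_succ]
        ring
      rw [h3]
      rw [h2] at ih
      nlinarith [mul_nonneg hd0 hA.le]
    · rw [if_pos ho]
      have h1 : 2 * ((TD d u : ℤ) : ℝ) = 3 * u + d := by exact_mod_cast TD_odd hd ho
      have h2 : |(u : ℝ)| ≤ 2 / 3 * |((TD d u : ℤ) : ℝ)| + |(d : ℝ)| := by
        have h4 : (u : ℝ) = 2 / 3 * ((TD d u : ℤ) : ℝ) - 1 / 3 * d := by linarith
        rw [h4]
        refine (abs_sub _ _).trans ?_
        rw [abs_mul, abs_mul, abs_of_pos (by norm_num : (0 : ℝ) < 2 / 3),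
          abs_of_pos (by norm_num : (0 : ℝ) < 1 / 3)]
        linarith
      have h3 : (2 : ℝ) ^ (k + 1) / 3 ^ (od d k m + 1) = 2 / 3 * A := by
        rw [hAd, pow_succ, pow_succ]
        field_simp
      rw [h3]
      have h5 := mul_le_mul_of_nonneg_left h2 hA.le
      linarith

end Pool.Agent.Y966.UB
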