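import Pool.Agent.Y966.CC.Intv
import Pool.Agent.Y966.UB.Path7

/-!
The images of intervals under the iterates of the `3x+1` map, and least preimages.
-/

set_option autoImplicit false
set_option linter.unusedVariables false

namespace Pool.Agent.Y966.UB

open Finset Pool.Agent.H395R2.G3
open Pool.Agent.Y966.LD Pool.Agent.Y966.CC

/-- Chernoff bound for the number of odd terms -/
theorem high_count {ρ : ℝ} (h0 : 1 / 2 < ρ) (h1 : ρ < 1) (k : ℕ) (m : ℤ) :
    (((II k m).filter fun n => ρ * k < (oP 3 k n : ℝ)).card : ℝ) ≤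
      Real.exp (Real.binEntropy ρ * k) := by
  set z : ℝ := ρ / (1 - ρ) with hz
  have h1' : 0 < 1 - ρ := by linarith
  have hz1 : 1 ≤ z := by
    rw [hz, le_div_iff₀ h1']
    linarith
  have hz0 : 0 < z := by linarith
  -- the generating function
  have hgen : ∑ n ∈ II k m, z ^ (oP 3 k n) = (1 + z) ^ k := by
    have hmap : ∀ n ∈ II k m, oP 3 k n ∈ range (k + 1) := by
      intro n _
      rw [mem_range, Nat.lt_succ_iff]
      unfold oP
      calc _ ≤ (range k).card := card_filter_le _ _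
        _ = k := card_range k
    rw [← sum_fiberwise_of_maps_to hmap]
    have h2 : ∀ o ∈ range (k + 1), ∑ n ∈ (II k m).filter (fun n => oP 3 k n = o), z ^ (oP 3 k n) =
        z ^ o * (k.choose o : ℝ) := by
      intro o _
      rw [sum_congr rfl (fun n hn => by rw [(mem_filter.1 hn).2] : ∀ n ∈ (II k m).filter
        (fun n => oP 3 k n = o), z ^ (oP 3 k n) = z ^ o), sum_const,
        cntI (by decide : Odd 3) k o m, nsmul_eq_mul]
      ring
    rw [sum_congr rfl h2, add_comm (1 : ℝ) z, add_pow]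
    apply sum_congr rfl
    intro o _
    rw [one_pow]
    ring
  have h3 : (((II k m).filter fun n => ρ * k < (oP 3 k n : ℝ)).card : ℝ) * z ^ (ρ * k) ≤
      (1 + z) ^ k := by
    rw [← hgen]
    calc (((II k m).filter fun n => ρ * k < (oP 3 k n : ℝ)).card : ℝ) * z ^ (ρ * k)
        = ∑ n ∈ (II k m).filter fun n => ρ * k < (oP 3 k n : ℝ), z ^ (ρ * k) := by
          rw [sum_const, nsmul_eq_mul]
      _ ≤ ∑ n ∈ (II k m).filter fun n => ρ * k < (oP 3 k n : ℝ), z ^ (oP 3 k n) := by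
          apply sum_le_sum
          intro n hn
          have h4 := (mem_filter.1 hn).2
          rw [← Real.rpow_natCast z]
          exact Real.rpow_le_rpow_of_exponent_le hz1 h4.le
      _ ≤ ∑ n ∈ II k m, z ^ (oP 3 k n) :=
          sum_le_sum_of_subset_of_nonneg (filter_subset _ _) fun n _ _ => by positivity
  have h5 : (1 + z) ^ k = Real.exp (Real.binEntropy ρ * k) * z ^ (ρ * k) := by
    have hz' : 1 + z = 1 / (1 - ρ) := by
      rw [hz]
      field_simp
      ring
    have hlz : Real.log z = Real.log ρ - Real.log (1 - ρ) := by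
      rw [hz, Real.log_div (by linarith) h1'.ne']
    rw [Real.rpow_def_of_pos hz0, ← Real.exp_add, hz', ← Real.rpow_natCast,
      Real.rpow_def_of_pos (by positivity), Real.log_div one_ne_zero h1'.ne', Real.log_one, hlz,
      Real.binEntropy_eq_negMulLog_add_negMulLog_one_sub]
    unfold Real.negMulLog
    congr 1
    ring
  rw [h5] at h3
  exact le_of_mul_le_mul_right h3 (Real.rpow_pos_of_pos hz0 _)

theorem low_count {ρ : ℝ} (h0 : 0 < ρ) (k : ℕ) (m : ℤ) :
    ((((II k m).filter fun n => ¬ ρ * k < (oP 3 k n : ℝ)).image fun n => (TP 3)^[k] n).card : ℝ) ≤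
      3 * Real.exp (ρ * Real.log 3 * k) := by
  classical
  set O : ℕ := ⌊ρ * k⌋₊ with hO
  have hO1 : (O : ℝ) ≤ ρ * k := Nat.floor_le (by positivity)
  have hsub : (((II k m).filter fun n => ¬ ρ * k < (oP 3 k n : ℝ)).image fun n => (TP 3)^[k] n) ⊆
      (range (O + 1)).biUnion fun o => Ioc ((3 : ℤ) ^ o * (m / 2 ^ k))
        ((3 : ℤ) ^ o * (m / 2 ^ k) + 2 * (3 : ℤ) ^ o) := by
    intro a ha
    obtain ⟨n, hn, rfl⟩ := mem_image.1 ha
    obtain ⟨hn1, hn2⟩ := mem_filter.1 hn
    rw [mem_biUnion]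
    refine ⟨oP 3 k n, ?_, ?_⟩
    · rw [mem_range, Nat.lt_succ_iff]
      exact Nat.le_floor (not_lt.1 hn2)
    · have h := value_range (by decide : Odd 3) k hn1
      rw [mem_Ioc]
      exact_mod_cast h
  have h1 := (card_le_card hsub).trans card_biUnion_le
  have h2 : ∑ o ∈ range (O + 1), (Ioc ((3 : ℤ) ^ o * (m / 2 ^ k))
        ((3 : ℤ) ^ o * (m / 2 ^ k) + 2 * (3 : ℤ) ^ o)).card = ∑ o ∈ range (O + 1), 2 * 3 ^ o := by
    apply sum_congr rfl
    intro o _
    rw [Int.card_Ioc, add_sub_cancel_left]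
    have : (2 * (3 : ℤ) ^ o) = ((2 * 3 ^ o : ℕ) : ℤ) := by push_cast; ring
    rw [this, Int.toNat_natCast]
  have h3 : ∑ o ∈ range (O + 1), 2 * 3 ^ o ≤ 3 * 3 ^ O := by
    have : ∀ n : ℕ, ∑ o ∈ range n, 2 * 3 ^ o + 1 = 3 ^ n := by
      intro n
      induction n with
      | zero => simp
      | succ n ih =>
        rw [sum_range_succ, pow_succ]
        omega
    have h4 := this (O + 1)
    rw [pow_succ] at h4
    omega
  rw [h2] at h1
  have h4 : ((((II k m).filter fun n => ¬ ρ * k < (oP 3 k n : ℝ)).image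
      fun n => (TP 3)^[k] n).card : ℝ) ≤ 3 * 3 ^ O := by exact_mod_cast h1.trans h3
  refine h4.trans ?_
  apply mul_le_mul_of_nonneg_left _ (by norm_num)
  rw [← Real.rpow_natCast, Real.rpow_def_of_pos (by norm_num)]
  apply Real.exp_le_exp.2
  have hl3 : 0 < Real.log 3 := Real.log_pos (by norm_num)
  have := mul_le_mul_of_nonneg_left hO1 hl3.le
  linarith

/-- the image of `2 ^ k` consecutive integers -/
theorem image_block {ρ : ℝ} (h0 : 1 / 2 < ρ) (h1 : ρ < 1)
    (hF : Real.binEntropy ρ = ρ * Real.log 3) (k : ℕ) (m : ℤ) :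
    (((II k m).image fun n => (TP 3)^[k] n).card : ℝ) ≤ 4 * Real.exp (ρ * Real.log 3 * k) := by
  classical
  have hU : ((II k m).image fun n => (TP 3)^[k] n) ⊆
      (((II k m).filter fun n => ρ * k < (oP 3 k n : ℝ)).image fun n => (TP 3)^[k] n) ∪
      (((II k m).filter fun n => ¬ ρ * k < (oP 3 k n : ℝ)).image fun n => (TP 3)^[k] n) := by
    rw [← image_union, filter_union_filter_not_eq]
  have h2 := (card_le_card hU).trans (card_union_le _ _)
  have h3 := high_count h0 h1 k m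
  have h4 := low_count (ρ := ρ) (by linarith) k m
  have h5 : ((((II k m).filter fun n => ρ * k < (oP 3 k n : ℝ)).image
      fun n => (TP 3)^[k] n).card : ℝ) ≤ Real.exp (Real.binEntropy ρ * k) := by
    refine le_trans ?_ h3
    exact_mod_cast card_image_le
  have h6 : (((II k m).image fun n => (TP 3)^[k] n).card : ℝ) ≤
      ((((II k m).filter fun n => ρ * k < (oP 3 k n : ℝ)).image fun n => (TP 3)^[k] n).card : ℝ) +
      ((((II k m).filter fun n => ¬ ρ * k < (oP 3 k n : ℝ)).image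
        fun n => (TP 3)^[k] n).card : ℝ) := by exact_mod_cast h2
  rw [hF] at h5
  linarith

theorem TP3 : TP 3 = TZ := by
  funext m
  unfold TP TZ
  norm_num

/-- the image of an interval -/
theorem image_Ioc {ρ : ℝ} (h0 : 1 / 2 < ρ) (h1 : ρ < 1)
    (hF : Real.binEntropy ρ = ρ * Real.log 3) (k N : ℕ) (hN : 2 ^ k ≤ N) (m : ℤ) :
    ((TZ^[k] '' Set.Ioc m (m + N)).ncard : ℝ) ≤
      8 * N * Real.exp (-((Real.log 2 - ρ * Real.log 3) * k)) := by
  classical
  have h2k : 0 < 2 ^ k := by positivity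
  set J : ℕ := N / 2 ^ k with hJ
  set B : Finset ℤ := (range (J + 1)).biUnion fun j =>
    (II k (m + j * 2 ^ k)).image fun n => (TP 3)^[k] n with hB
  have hsub : TZ^[k] '' Set.Ioc m (m + N) ⊆ (B : Set ℤ) := by
    rintro a ⟨n, ⟨hn1, hn2⟩, rfl⟩
    rw [mem_coe, hB, mem_biUnion]
    have h3 : 0 ≤ n - m - 1 := by omega
    have h2k' : (0 : ℤ) < 2 ^ k := by positivity
    refine ⟨((n - m - 1) / 2 ^ k).toNat, ?_, ?_⟩
    · rw [mem_range, Nat.lt_succ_iff, Int.toNat_le, hJ]
      have h4 : ((N / 2 ^ k : ℕ) : ℤ) = (N : ℤ) / 2 ^ k := by push_cast; rfl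
      rw [h4]
      exact Int.ediv_le_ediv h2k' (by omega)
    · rw [mem_image]
      refine ⟨n, ?_, by rw [TP3]⟩
      have h5 : ((((n - m - 1) / 2 ^ k).toNat : ℕ) : ℤ) = (n - m - 1) / 2 ^ k :=
        Int.toNat_of_nonneg (Int.ediv_nonneg h3 h2k'.le)
      rw [II, mem_Ioc, h5]
      have h6 := Int.ediv_mul_le (n - m - 1) h2k'.ne'
      have h7 := Int.lt_ediv_add_one_mul_self (n - m - 1) h2k'
      constructor
      · linarith
      · have : ((n - m - 1) / 2 ^ k + 1) * 2 ^ k = (n - m - 1) / 2 ^ k * 2 ^ k + 2 ^ k := by ring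
        rw [this] at h7
        omega
  have h3 : ((TZ^[k] '' Set.Ioc m (m + N)).ncard : ℝ) ≤ (B.card : ℝ) := by
    have := Set.ncard_le_ncard hsub B.finite_toSet
    rw [Set.ncard_coe_finset] at this
    exact_mod_cast this
  have h4 : (B.card : ℝ) ≤ (J + 1) * (4 * Real.exp (ρ * Real.log 3 * k)) := by
    have h5 : (B.card : ℝ) ≤ ∑ j ∈ range (J + 1),
        (((II k (m + j * 2 ^ k)).image fun n => (TP 3)^[k] n).card : ℝ) := by
      exact_mod_cast card_biUnion_le
    refine h5.trans ((sum_le_sum fun (j : ℕ) _ =>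
      image_block h0 h1 hF k (m + (j : ℤ) * 2 ^ k)).trans ?_)
    rw [sum_const, card_range, nsmul_eq_mul]
    push_cast
    exact le_rfl
  refine h3.trans (h4.trans ?_)
  have h2kr : (0 : ℝ) < 2 ^ k := by positivity
  have h6 : ((J : ℝ) + 1) * 2 ^ k ≤ 2 * N := by
    have h7 : J * 2 ^ k ≤ N := Nat.div_mul_le_self _ _
    have h8 : (J : ℝ) * 2 ^ k ≤ N := by exact_mod_cast h7
    have h9 : (2 : ℝ) ^ k ≤ N := by exact_mod_cast hN
    linarith
  have h7 : Real.exp (ρ * Real.log 3 * k) =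
      2 ^ k * Real.exp (-((Real.log 2 - ρ * Real.log 3) * k)) := by
    rw [← Real.rpow_natCast, Real.rpow_def_of_pos (by norm_num), ← Real.exp_add]
    congr 1
    ring
  rw [h7]
  set E := Real.exp (-((Real.log 2 - ρ * Real.log 3) * k)) with hE
  have hE0 : 0 < E := Real.exp_pos _
  calc ((J : ℝ) + 1) * (4 * (2 ^ k * E)) = 4 * (((J : ℝ) + 1) * 2 ^ k) * E := by ring
    _ ≤ 4 * (2 * N) * E := by
        apply mul_le_mul_of_nonneg_right _ hE0.le
        linarith
    _ = 8 * N * E := by ring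

theorem TD_one : TD 1 = TZ := rfl

theorem od_one (k : ℕ) (n : ℤ) : od 1 k n = oc k n := rfl

/-- small preimages -/
theorem small_preimage {r δ : ℝ} (h0 : 0 < r) (h1 : r < 1) (hF : 0 < FF r)
    (hr : r * Real.log 3 ≤ Real.log 2) (hδ : 0 < δ) :
    ∃ k₀ : ℕ, ∀ k : ℕ, k₀ ≤ k → ∀ a : ℤ, ¬ (3 : ℤ) ∣ a →
      ∃ n : ℤ, TZ^[k] n = a ∧ 0 < n * a ∧
        |(n : ℝ)| ≤ |(a : ℝ)| * Real.exp ((Real.log 2 - r * Real.log 3 + δ) * k) := by
  have hl3 : 0 < Real.log 3 := Real.log_pos (by norm_num)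
  set δ' : ℝ := δ / (8 * Real.log 3) with hδ'
  have hδ'0 : 0 < δ' := by positivity
  have hδ'1 : δ' * Real.log 3 = δ / 8 := by
    rw [hδ']
    field_simp
  obtain ⟨C, hC, h⟩ := piece_lower h0 h1 hF hδ'0
  -- absorb the constants
  have habs : ∃ k₀ : ℕ, ∀ k : ℕ, k₀ ≤ k →
      Real.exp (2 * C * Real.log 3) * (1 + k) ≤ Real.exp (δ / 2 * k) := by
    set K : ℝ := Real.exp (2 * C * Real.log 3) with hK
    have hK0 : 0 < K := Real.exp_pos _
    obtain ⟨k₀, hk₀⟩ := exists_nat_ge ((|Real.log (K * (1 + 4 / δ))| + 1) / (δ / 4))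
    refine ⟨k₀, fun k hk => ?_⟩
    have hk' : (|Real.log (K * (1 + 4 / δ))| + 1) / (δ / 4) ≤ k := by
      refine hk₀.trans ?_
      exact_mod_cast hk
    rw [div_le_iff₀ (by positivity)] at hk'
    have h2 : K * (1 + 4 / δ) ≤ Real.exp (δ / 4 * k) := by
      rw [← Real.log_le_iff_le_exp (by positivity)]
      have := le_abs_self (Real.log (K * (1 + 4 / δ)))
      linarith
    have h3 := Real.add_one_le_exp (δ / 4 * k)
    have hk0 : (0 : ℝ) ≤ k := Nat.cast_nonneg _
    have h4 : (1 + (k : ℝ)) ≤ (1 + 4 / δ) * (δ / 4 * k + 1) := by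
      have : (1 + 4 / δ) * (δ / 4 * k + 1) = 1 + k + δ / 4 * k + 4 / δ := by
        field_simp
        ring
      rw [this]
      have : 0 ≤ δ / 4 * k := by positivity
      have : 0 ≤ 4 / δ := by positivity
      linarith
    calc K * (1 + k) ≤ K * ((1 + 4 / δ) * (δ / 4 * k + 1)) := mul_le_mul_of_nonneg_left h4 hK0.le
      _ = K * (1 + 4 / δ) * (δ / 4 * k + 1) := by ring
      _ ≤ Real.exp (δ / 4 * k) * Real.exp (δ / 4 * k) :=
          mul_le_mul h2 h3 (by positivity) (Real.exp_pos _).le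
      _ = Real.exp (δ / 2 * k) := by
          rw [← Real.exp_add]
          congr 1
          ring
  obtain ⟨k₀, hk₀⟩ := habs
  refine ⟨k₀, fun k hk a ha => ?_⟩
  obtain ⟨G, hG1, hG2⟩ := h k a ha
  have hGpos : 0 < G.card := by
    have : (0 : ℝ) < G.card := lt_of_lt_of_le (Real.exp_pos _) hG1
    exact_mod_cast this
  obtain ⟨n, hn⟩ := Finset.card_pos.1 hGpos
  obtain ⟨g1, g2, g3, g4, g5, g6⟩ := hG2 n hn
  have ha0 : a ≠ 0 := by
    rintro rfl
    exact ha (dvd_zero _)
  refine ⟨n, g4, ?_, ?_⟩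
  · rcases lt_or_gt_of_ne ha0 with hneg | hpos
    · exact mul_pos_of_neg_of_neg (g2 hneg) hneg
    · exact mul_pos (g1 hpos) hpos
  · have hsz := size_d (d := 1) (by norm_num) k n
    simp only [TD_one, od_one] at hsz
    rw [g4] at hsz
    have hk0 : (0 : ℝ) ≤ k := Nat.cast_nonneg _
    have hX : ∀ i ≤ k, (2 : ℝ) ^ i / 3 ^ (oc i n) ≤
        Real.exp (2 * C * Real.log 3) *
          Real.exp ((Real.log 2 - r * Real.log 3 + δ / 4) * k) := by
      intro i hi
      have h2 := g5 k le_rfl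
      have h3 := g5 (k - i) (by omega)
      rw [Nat.sub_self, Function.iterate_zero, id] at h2
      rw [show k - (k - i) = i by omega] at h3
      have h4 := oc_add i (k - i) n
      rw [show i + (k - i) = k by omega] at h4
      have h5 : ((k - i : ℕ) : ℝ) = k - i := by
        rw [Nat.cast_sub hi]
      rw [h4] at h2
      rw [h5] at h3
      push_cast at h2
      obtain ⟨a1, a2⟩ := abs_le.1 h2
      obtain ⟨b1, b2⟩ := abs_le.1 h3
      have hir : (i : ℝ) ≤ k := by exact_mod_cast hi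
      have hi0 : (0 : ℝ) ≤ i := Nat.cast_nonneg _
      -- lower bound for `oc i n`
      have h6 : r * i - (2 * δ' * k + 2 * C) ≤ oc i n := by
        nlinarith
      have h7 : (2 : ℝ) ^ i / 3 ^ (oc i n) =
          Real.exp ((i : ℝ) * Real.log 2 - oc i n * Real.log 3) := by
        rw [Real.exp_sub, ← Real.log_pow, ← Real.log_pow,
          Real.exp_log (by positivity), Real.exp_log (by positivity)]
      rw [h7, ← Real.exp_add]
      apply Real.exp_le_exp.2
      have h8 := mul_le_mul_of_nonneg_right h6 hl3.le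
      have h9 : (i : ℝ) * (Real.log 2 - r * Real.log 3) ≤ k * (Real.log 2 - r * Real.log 3) :=
        mul_le_mul_of_nonneg_right hir (by linarith)
      have h10 : δ' * k * Real.log 3 = δ / 8 * k := by
        rw [mul_right_comm, hδ'1]
      nlinarith
    have hsum : ∑ i ∈ range k, (2 : ℝ) ^ i / 3 ^ (oc i n) ≤ k *
        (Real.exp (2 * C * Real.log 3) *
          Real.exp ((Real.log 2 - r * Real.log 3 + δ / 4) * k)) := by
      refine (sum_le_sum fun i hi => hX i (mem_range.1 hi).le).trans ?_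
      rw [sum_const, card_range, nsmul_eq_mul]
    set X := Real.exp (2 * C * Real.log 3) *
      Real.exp ((Real.log 2 - r * Real.log 3 + δ / 4) * k) with hXdef
    have hX0 : 0 < X := by positivity
    have ha1 : 1 ≤ |(a : ℝ)| := by
      have : (1 : ℤ) ≤ |a| := Int.one_le_abs ha0
      exact_mod_cast this
    have h11 : |(n : ℝ)| ≤ |(a : ℝ)| * ((1 + k) * X) := by
      have h12 : |(n : ℝ)| = (|n| : ℝ) := rfl
      have h13 : |((1 : ℤ) : ℝ)| = 1 := by norm_num
      rw [h13, one_mul] at hsz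
      have h14 := mul_le_mul_of_nonneg_right (hX k le_rfl) (abs_nonneg (a : ℝ))
      have h15 : (k : ℝ) * X ≤ |(a : ℝ)| * (k * X) := by
        have : 0 ≤ (k : ℝ) * X := by positivity
        nlinarith
      rw [h12]
      linarith
    refine h11.trans (mul_le_mul_of_nonneg_left ?_ (abs_nonneg _))
    have h16 := hk₀ k hk
    calc (1 + (k : ℝ)) * X = Real.exp (2 * C * Real.log 3) * (1 + k) *
          Real.exp ((Real.log 2 - r * Real.log 3 + δ / 4) * k) := by rw [hXdef]; ring
      _ ≤ Real.exp (δ / 2 * k) * Real.exp ((Real.log 2 - r * Real.log 3 + δ / 4) * k) :=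
          mul_le_mul_of_nonneg_right h16 (Real.exp_pos _).le
      _ ≤ Real.exp ((Real.log 2 - r * Real.log 3 + δ) * k) := by
          rw [← Real.exp_add]
          apply Real.exp_le_exp.2
          have : 0 ≤ δ * k := by positivity
          nlinarith

end Pool.Agent.Y966.UB
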