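import Pool.Agent.Y966.UB.Upper
import Pool.Agent.Y966.LD.Up

/-!
The word of a trajectory of the `3x+1` map, and the number of starting points whose trajectory to
`a` is regular at the scale of `L` steps.
-/

set_option autoImplicit false
set_option linter.unusedVariables false

namespace Pool.Agent.Y966.UB

open Finset Pool.Agent.H320R2.PD Pool.Agent.H377R2.NK
open Pool.Agent.Y966.LD (TZ oc oc_zero oc_succ oc_succ' oc_add oc_le)

/-- the letters of the path of length `k` of `n` (read from its end), and the number of even terms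
at its beginning -/
def Pw : ℕ → ℤ → List ℕ × ℕ
  | 0, _ => ([], 0)
  | k + 1, n => if n % 2 = 1 then ((Pw k (TZ n)).1 ++ [(Pw k (TZ n)).2 + 1], 0)
      else ((Pw k (TZ n)).1, (Pw k (TZ n)).2 + 1)

theorem Pw_odd {k : ℕ} {n : ℤ} (h : n % 2 = 1) :
    Pw (k + 1) n = ((Pw k (TZ n)).1 ++ [(Pw k (TZ n)).2 + 1], 0) := by
  rw [Pw, if_pos h]

theorem Pw_even {k : ℕ} {n : ℤ} (h : ¬ n % 2 = 1) :
    Pw (k + 1) n = ((Pw k (TZ n)).1, (Pw k (TZ n)).2 + 1) := by
  rw [Pw, if_neg h]

theorem Pw_sum (k : ℕ) : ∀ n : ℤ, (Pw k n).1.sum + (Pw k n).2 = k := by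
  induction k with
  | zero => intro n; rfl
  | succ k ih =>
    intro n
    have := ih (TZ n)
    by_cases h : n % 2 = 1
    · rw [Pw_odd h]
      simp only [List.sum_append, List.sum_singleton]
      omega
    · rw [Pw_even h]
      simp only []
      omega

theorem Pw_len (k : ℕ) : ∀ n : ℤ, (Pw k n).1.length = oc k n := by
  induction k with
  | zero => intro n; rw [oc_zero]; rfl
  | succ k ih =>
    intro n
    have := ih (TZ n)
    rw [oc_succ']
    by_cases h : n % 2 = 1
    · rw [Pw_odd h, if_pos h]
      simp only [List.length_append, List.length_singleton]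
      omega
    · rw [Pw_even h, if_neg h]
      simp only []
      omega

theorem Pw_pos (k : ℕ) : ∀ n : ℤ, ∀ e ∈ (Pw k n).1, 1 ≤ e := by
  induction k with
  | zero => intro n e he; simp [Pw] at he
  | succ k ih =>
    intro n e he
    by_cases h : n % 2 = 1
    · rw [Pw_odd h] at he
      rcases List.mem_append.1 he with h1 | h1
      · exact ih _ e h1
      · rw [List.mem_singleton] at h1
        omega
    · rw [Pw_even h] at he
      exact ih _ e he

theorem Pw_val (k : ℕ) : ∀ n : ℤ, (3 : ℤ) ^ (Pw k n).1.length * n =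
    2 ^ (Pw k n).2 * (2 ^ (Pw k n).1.sum * TZ^[k] n - Wp 3 (Pw k n).1) := by
  induction k with
  | zero => intro n; simp [Pw, Wp]
  | succ k ih =>
    intro n
    have h1 := ih (TZ n)
    rw [Function.iterate_succ_apply]
    by_cases h : n % 2 = 1
    · rw [Pw_odd h]
      have hT : 2 * TZ n = 3 * n + 1 := by
        unfold TZ
        rw [if_neg (by omega)]
        omega
      simp only [List.length_append, List.length_singleton, List.sum_append, List.sum_singleton,
        Wp_append, pow_zero, one_mul]
      set w := (Pw k (TZ n)).1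
      set j := (Pw k (TZ n)).2
      have e1 : Wp 3 [j + 1] = 1 := by simp [Wp]
      rw [e1]
      push_cast
      have h2 : (3 : ℤ) ^ (w.length + 1) * n = 2 * ((3 : ℤ) ^ w.length * TZ n) - 3 ^ w.length := by
        have : (3 : ℤ) ^ (w.length + 1) * n = 3 ^ w.length * (3 * n + 1) - 3 ^ w.length := by
          rw [pow_succ]; ring
        rw [this, ← hT]
        ring
      rw [h2, h1, pow_add, pow_succ]
      ring
    · rw [Pw_even h]
      have hT : 2 * TZ n = n := by
        unfold TZ
        rw [if_pos (by omega)]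
        omega
      simp only []
      rw [pow_succ]
      have h2 : ∀ c : ℤ, c * n = 2 * (c * TZ n) := fun c => by linear_combination (-c) * hT
      rw [h2, h1]
      ring

theorem cop32 (i j : ℕ) : IsCoprime ((3 : ℤ) ^ i) ((2 : ℤ) ^ j) := by
  apply IsCoprime.pow
  exact ⟨1, -1, by norm_num⟩

theorem Pw_valid (k : ℕ) (n : ℤ) : (3 : ℤ) ^ (Pw k n).1.length ∣
    2 ^ (Pw k n).1.sum * TZ^[k] n - Wp 3 (Pw k n).1 := by
  have h := Pw_val k n
  exact (cop32 _ _).dvd_of_dvd_mul_left (Dvd.intro _ h)

/-- the word determines the starting point -/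
theorem Pw_inj {k : ℕ} {n n' : ℤ} (ha : TZ^[k] n = TZ^[k] n') (hw : (Pw k n).1 = (Pw k n').1) :
    n = n' := by
  have h1 := Pw_val k n
  have h2 := Pw_val k n'
  have h3 := Pw_sum k n
  have h4 := Pw_sum k n'
  rw [← hw] at h2 h4
  have h5 : (Pw k n').2 = (Pw k n).2 := by omega
  rw [h5, ← ha, ← h1] at h2
  exact (mul_left_cancel₀ (pow_ne_zero _ (by norm_num)) h2).symm

theorem oc_split {s t : ℕ} (h : s ≤ t) (m : ℤ) :
    oc t m = oc (t - s) m + oc s (TZ^[t - s] m) := by
  obtain ⟨c, rfl⟩ := Nat.exists_eq_add_of_le' h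
  rw [Nat.add_sub_cancel, oc_add]

/-- the prefixes of the word are the words of the ends of the path -/
theorem take_oc (k : ℕ) : ∀ (n : ℤ) (i : ℕ), i ≤ (Pw k n).1.length →
    ((Pw k n).1.take i).sum ≤ k ∧
      oc ((Pw k n).1.take i).sum (TZ^[k - ((Pw k n).1.take i).sum] n) = i := by
  induction k with
  | zero =>
    intro n i hi
    have : i = 0 := by simpa [Pw] using hi
    subst this
    simp [oc_zero]
  | succ k ih =>
    intro n i hi
    have hlow : ∀ i ≤ (Pw k (TZ n)).1.length, ((Pw k (TZ n)).1.take i).sum ≤ k + 1 ∧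
        oc ((Pw k (TZ n)).1.take i).sum (TZ^[k + 1 - ((Pw k (TZ n)).1.take i).sum] n) = i := by
      intro i hi
      obtain ⟨h1, h2⟩ := ih (TZ n) i hi
      refine ⟨by omega, ?_⟩
      have e : k + 1 - ((Pw k (TZ n)).1.take i).sum = (k - ((Pw k (TZ n)).1.take i).sum) + 1 := by
        omega
      rw [e, Function.iterate_succ_apply]
      exact h2
    by_cases h : n % 2 = 1
    · rw [Pw_odd h] at hi ⊢
      simp only [List.length_append, List.length_singleton] at hi
      simp only []
      rcases Nat.lt_or_ge (Pw k (TZ n)).1.length i with h1 | h1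
      · have hi' : i = (Pw k (TZ n)).1.length + 1 := by omega
        have e1 : ((Pw k (TZ n)).1 ++ [(Pw k (TZ n)).2 + 1]).take i =
            (Pw k (TZ n)).1 ++ [(Pw k (TZ n)).2 + 1] := by
          apply List.take_of_length_le
          simp only [List.length_append, List.length_singleton]
          omega
        have e2 := Pw_sum k (TZ n)
        rw [e1, List.sum_append, List.sum_singleton]
        have e3 : (Pw k (TZ n)).1.sum + ((Pw k (TZ n)).2 + 1) = k + 1 := by omega
        rw [e3, Nat.sub_self, Function.iterate_zero, id, oc_succ', if_pos h, ← Pw_len]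
        exact ⟨le_rfl, by omega⟩
      · rw [List.take_append_of_le_length h1]
        exact hlow i h1
    · rw [Pw_even h] at hi ⊢
      exact hlow i hi

/-- counts of odd terms along consecutive pieces of the word -/
theorem piece_oc {k : ℕ} {n : ℤ} {i c : ℕ} (h : i + c ≤ (Pw k n).1.length) :
    ∃ s t : ℕ, ((Pw k n).1.take i).sum = s ∧ ((Pw k n).1.take (i + c)).sum = t ∧ s ≤ t ∧ t ≤ k ∧
      oc (t - s) (TZ^[k - t] n) = c ∧ oc t (TZ^[k - t] n) = i + c := by
  obtain ⟨h1, h2⟩ := take_oc k n i (by omega)
  obtain ⟨h3, h4⟩ := take_oc k n (i + c) h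
  refine ⟨_, _, rfl, rfl, ?_, h3, ?_, h4⟩
  · rw [List.take_add, List.sum_append]
    omega
  · set s := ((Pw k n).1.take i).sum
    set t := ((Pw k n).1.take (i + c)).sum with ht
    have hst : s ≤ t := by
      rw [ht, List.take_add, List.sum_append]
      omega
    have h5 := oc_split hst (TZ^[k - t] n)
    rw [← Function.iterate_add_apply] at h5
    have e2 : (t - s) + (k - t) = k - s := by omega
    rw [e2, h2, h4] at h5
    omega

theorem oc_mono {j j' : ℕ} (h : j ≤ j') (n : ℤ) : oc j n ≤ oc j' n := by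
  obtain ⟨c, rfl⟩ := Nat.exists_eq_add_of_le h
  rw [oc_add]
  omega

/-- regularity at the scale of `L` steps: every window of `L` steps contains at least one and at
most `A` odd terms -/
def Win (L A k : ℕ) (n : ℤ) : Prop :=
  ∀ i, i + L ≤ k → 1 ≤ oc L (TZ^[i] n) ∧ oc L (TZ^[i] n) ≤ A

/-- `A + 1` consecutive letters have size at least `L` -/
theorem block_ge {L A k : ℕ} {n : ℤ} (hLk : L ≤ k) (hW : Win L A k n) {i : ℕ}
    (h : i + (A + 1) ≤ (Pw k n).1.length) :
    ((Pw k n).1.take i).sum + L ≤ ((Pw k n).1.take (i + (A + 1))).sum := by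
  obtain ⟨s, t, hs, ht, hst, htk, h1, h2⟩ := piece_oc h
  rw [hs, ht]
  by_contra hlt
  push Not at hlt
  rcases Nat.lt_or_ge t L with h3 | h3
  · have h4 := (hW (k - L) (by omega)).2
    have h5 := oc_split h3.le (TZ^[k - L] n)
    rw [← Function.iterate_add_apply] at h5
    have e2 : (L - t) + (k - L) = k - t := by omega
    rw [e2, h2] at h5
    omega
  · have h4 := (hW (k - t) (by omega)).2
    have h5 := oc_mono (show t - s ≤ L by omega) (TZ^[k - t] n)
    omega

/-- the letters are at most `2 L` -/
theorem letter_le {L A k : ℕ} {n : ℤ} (hL : 1 ≤ L) (hW : Win L A k n) :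
    ∀ e ∈ (Pw k n).1, e ≤ 2 * L := by
  intro e he
  obtain ⟨i, hi, rfl⟩ := List.mem_iff_getElem.1 he
  obtain ⟨s, t, hs, ht, hst, htk, h1, h2⟩ := piece_oc (k := k) (n := n) (i := i) (c := 1)
    (by omega)
  have e1 : t = s + (Pw k n).1[i] := by
    rw [← ht, ← hs, List.take_succ_eq_append_getElem hi, List.sum_append, List.sum_singleton]
  by_contra hlt
  push Not at hlt
  have h3 := (hW (k - t) (by omega)).1
  have h4 := (hW (k - t + L) (by omega)).1
  have h5 := oc_mono (show L + L ≤ t - s by omega) (TZ^[k - t] n)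
  rw [oc_add, ← Function.iterate_add_apply, add_comm L (k - t), h1] at h5
  omega

/-- words of `W.b * j` letters all of whose aligned blocks are in the alphabet -/
theorem mem_Bw_of {W : Alph} {L Q : ℕ}
    (hU : ∀ u : List ℕ, u.length = W.b → (∀ e ∈ u, 1 ≤ e ∧ e ≤ Q) → L ≤ u.sum → u ∈ W.U)
    (j : ℕ) : ∀ w : List ℕ, w.length = W.b * j → (∀ e ∈ w, 1 ≤ e ∧ e ≤ Q) →
      (∀ i < j, (w.take (W.b * i)).sum + L ≤ (w.take (W.b * (i + 1))).sum) → w ∈ Bw W j := by
  induction j with
  | zero =>
    intro w hl _ _
    have : w = [] := List.length_eq_zero_iff.1 (by simpa using hl)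
    rw [this]
    simp [Bw]
  | succ j ih =>
    intro w hl he hs
    rw [mem_Bw_succ]
    refine ⟨w.take W.b, ?_, w.drop W.b, ?_, List.take_append_drop _ _⟩
    · apply hU
      · rw [List.length_take, hl]
        have : W.b ≤ W.b * (j + 1) := Nat.le_mul_of_pos_right _ (by omega)
        omega
      · exact fun e h => he e (List.mem_of_mem_take h)
      · have := hs 0 (by omega)
        simpa using this
    · apply ih
      · rw [List.length_drop, hl, mul_add, mul_one, Nat.add_sub_cancel]
      · exact fun e h => he e (List.mem_of_mem_drop h)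
      · intro i hi
        have h1 := hs (i + 1) (by omega)
        have key : ∀ c : ℕ, (w.take (W.b * (c + 1))).sum =
            (w.take W.b).sum + ((w.drop W.b).take (W.b * c)).sum := by
          intro c
          have e1 : W.b * (c + 1) = W.b + W.b * c := by ring
          rw [e1, List.take_add, List.sum_append]
        rw [key, key] at h1
        omega

end Pool.Agent.Y966.UB
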