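import Pool.Agent.Y966.UB.Chain
import Pool.Agent.Y966.UB.Traj
import Pool.Agent.Y966.LD.Main3b

/-!
Many starting points with a straight trajectory to `x` of prescribed length.
-/

set_option autoImplicit false
set_option linter.unusedVariables false

namespace Pool.Agent.Y966.UB

open Finset Pool.Agent.H395R2.G3
open Pool.Agent.Y966.LD

/-- suffix windows -/
def Suff (r δ C : ℝ) (k : ℕ) (m : ℤ) : Prop :=
  ∀ t, t ≤ k → |(oc t (TZ^[k - t] m) : ℝ) - r * t| ≤ δ * t + C

theorem TZ_pow_sub {k t : ℕ} (h : t ≤ k) (x : ℤ) : TZ^[k - t] (2 ^ k * x) = 2 ^ t * x := by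
  obtain ⟨c, rfl⟩ := Nat.exists_eq_add_of_le h
  rw [Nat.add_sub_cancel_left, pow_add, mul_comm ((2 : ℤ) ^ t), mul_assoc]
  exact (TZ_pow c _).1

theorem piece_lower {r : ℝ} (h0 : 0 < r) (h1 : r < 1) (hF : 0 < FF r) {δ : ℝ} (hδ : 0 < δ) :
    ∃ C : ℝ, 0 < C ∧ ∀ (k : ℕ) (x : ℤ), ¬ (3 : ℤ) ∣ x →
      ∃ G : Finset ℤ, Real.exp ((FF r - δ) * k - C) ≤ (G.card : ℝ) ∧
        ∀ m ∈ G, (0 < x → 0 < m) ∧ (x < 0 → m < 0) ∧ ¬ (3 : ℤ) ∣ m ∧ TZ^[k] m = x ∧
          Suff r δ C k m ∧ Wind r δ C k m := by
  classical
  set δ₁ : ℝ := min (δ / 2) (FF r) with hδ₁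
  have hδ₁0 : 0 < δ₁ := lt_min (by positivity) hF
  have hδ₁a : δ₁ ≤ δ / 2 := min_le_left _ _
  have hδ₁b : δ₁ ≤ FF r := min_le_right _ _
  obtain ⟨n₀, hn₀⟩ := joint_lower h0 h1 hF hδ₁0
  set n : ℕ := n₀ + 1 with hn
  have hn1 : 1 ≤ n := by omega
  have hnr : (0 : ℝ) < n := by exact_mod_cast hn1
  have hF1 : FF r < 1 := FF_lt_one h0
  set C : ℝ := n / r + δ₁ * n with hC
  have hC0 : 0 < C := by positivity
  refine ⟨C, hC0, fun k => ?_⟩
  induction k using Nat.strong_induction_on with
  | _ k ih =>
    intro x hx
    obtain ⟨s, hs1, hs2⟩ := hn₀ n (by omega) x hx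
    have hsC : (s : ℝ) ≤ C := by
      have := (abs_le.1 hs1).2
      rw [hC]
      linarith
    -- `s ≥ n`
    have hns : n ≤ s := by
      by_contra hlt
      push Not at hlt
      have h2 : (Bl s n x).ncard = 0 := by
        have : Bl s n x = ∅ := by
          ext m
          simp only [Bl, Set.mem_setOf_eq, Set.mem_empty_iff_false, iff_false]
          rintro ⟨_, h2, _⟩
          have := oc_le s m
          omega
        rw [this, Set.ncard_empty]
      have h3 : Real.exp ((FF r / r - δ₁) * n) ≤ ((Bl s n x).ncard : ℝ) := hs2
      rw [h2] at h3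
      have := Real.exp_pos ((FF r / r - δ₁) * n)
      push_cast at h3
      linarith
    have hns' : (n : ℝ) ≤ s := by exact_mod_cast hns
    rcases Nat.lt_or_ge k s with hks | hks
    · -- short
      have hkC : (k : ℝ) ≤ C := by
        have : (k : ℝ) ≤ s := by exact_mod_cast hks.le
        linarith
      refine ⟨{2 ^ k * x}, ?_, ?_⟩
      · rw [card_singleton, Nat.cast_one, Real.exp_le_one_iff]
        have hk0 : (0 : ℝ) ≤ k := Nat.cast_nonneg k
        have h2 : (FF r - δ) * k ≤ 1 * k := mul_le_mul_of_nonneg_right (by linarith) hk0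
        linarith
      · intro m hm
        rw [mem_singleton] at hm
        subst hm
        have h2k : (0 : ℤ) < 2 ^ k := by positivity
        refine ⟨fun h => by positivity, fun h => mul_neg_of_pos_of_neg h2k h, ?_, (TZ_pow k x).1,
          ?_, ?_⟩
        · intro h3
          apply hx
          exact (cop32 1 k).dvd_of_dvd_mul_left (by simpa using h3)
        · intro t ht
          exact (triv h0 h1 ht hkC _).trans (by
            have : 0 ≤ δ * (t : ℝ) := by positivity
            linarith)
        · intro t t' ht
          exact (triv h0 h1 (show t' ≤ k by omega) hkC _).trans (by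
            have : 0 ≤ δ * (t' : ℝ) := by positivity
            linarith)
    · -- long
      obtain ⟨c, rfl⟩ := Nat.exists_eq_add_of_le' hks
      set B : Finset ℤ := (Bl_finite s n x).toFinset with hB
      have hBcard : Real.exp ((FF r / r - δ₁) * n) ≤ (B.card : ℝ) := by
        have h3 : Real.exp ((FF r / r - δ₁) * n) ≤ ((Bl s n x).ncard : ℝ) := hs2
        rwa [Set.ncard_eq_toFinset_card _ (Bl_finite s n x)] at h3
      have hBmem : ∀ m ∈ B, m ∈ Bl s n x := by
        intro m hm
        rw [hB] at hm
        simpa using hm
      have hG : ∀ m₁ : ℤ, ∃ G : Finset ℤ, m₁ ∈ B → (Real.exp ((FF r - δ) * c - C) ≤ (G.card : ℝ) ∧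
          ∀ m ∈ G, (0 < m₁ → 0 < m) ∧ (m₁ < 0 → m < 0) ∧ ¬ (3 : ℤ) ∣ m ∧ TZ^[c] m = m₁ ∧
          Suff r δ C c m ∧ Wind r δ C c m) := by
        intro m₁
        by_cases hm : m₁ ∈ B
        · obtain ⟨G, hG⟩ := ih c (by omega) m₁ (hBmem m₁ hm).2.2.2.1
          exact ⟨G, fun _ => hG⟩
        · exact ⟨∅, fun h => absurd h hm⟩
      choose G hG using hG
      have hdisj : Set.PairwiseDisjoint (B : Set ℤ) G := by
        intro a ha b hb hab
        rw [Function.onFun, disjoint_left]
        intro m hma hmb
        apply hab
        rw [← ((hG a ha).2 m hma).2.2.2.1, ← ((hG b hb).2 m hmb).2.2.2.1]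
      refine ⟨B.biUnion G, ?_, ?_⟩
      · rw [card_biUnion hdisj]
        push_cast
        have e1 : (B.card : ℝ) * Real.exp ((FF r - δ) * c - C) ≤ ∑ m₁ ∈ B, ((G m₁).card : ℝ) := by
          rw [← nsmul_eq_mul, ← sum_const]
          exact sum_le_sum fun m₁ hm => (hG m₁ hm).1
        refine le_trans ?_ e1
        have e2 : Real.exp ((FF r - δ) * ((c : ℝ) + s) - C) ≤
            Real.exp ((FF r / r - δ₁) * n) * Real.exp ((FF r - δ) * c - C) := by
          rw [← Real.exp_add]
          apply Real.exp_le_exp.2
          have e3 : (FF r - δ) * s ≤ (FF r / r - δ₁) * n := by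
            rcases le_total (FF r) δ with h | h
            · have e4 : (FF r - δ) * s ≤ 0 :=
                mul_nonpos_of_nonpos_of_nonneg (by linarith) (Nat.cast_nonneg s)
              have e5 : FF r ≤ FF r / r := by
                rw [le_div_iff₀ h0]
                nlinarith
              have e6 : 0 ≤ (FF r / r - δ₁) * n := mul_nonneg (by linarith) hnr.le
              linarith
            · have e4 : (FF r - δ) * s ≤ (FF r - δ) * C :=
                mul_le_mul_of_nonneg_left hsC (by linarith)
              refine e4.trans ?_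
              have e5 : (FF r - δ) * C = ((FF r - δ) * (1 / r + δ₁)) * n := by
                rw [hC]
                ring
              rw [e5]
              apply mul_le_mul_of_nonneg_right _ hnr.le
              have e6 : (FF r - δ) * (1 / r + δ₁) = FF r / r - δ / r + (FF r - δ) * δ₁ := by ring
              rw [e6]
              have e7 : δ ≤ δ / r := by
                rw [le_div_iff₀ h0]
                nlinarith
              have e8 : (FF r - δ) * δ₁ ≤ 1 * δ₁ :=
                mul_le_mul_of_nonneg_right (by linarith) hδ₁0.le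
              linarith
          nlinarith
        exact e2.trans (mul_le_mul_of_nonneg_right hBcard (Real.exp_pos _).le)
      · intro m hm
        obtain ⟨m₁, hm₁, hmG⟩ := mem_biUnion.1 hm
        obtain ⟨b1, b2, b3, b4, b5, b6⟩ := hBmem m₁ hm₁
        obtain ⟨g1, g2, g3, g4, g5, g6⟩ := (hG m₁ hm₁).2 m hmG
        have hfull : |(n : ℝ) - r * s| ≤ δ * s := by
          have e : (n : ℝ) - r * s = -(r * (s - n / r)) := by
            field_simp
            ring
          rw [e, abs_neg, abs_mul, abs_of_pos h0]
          calc r * |(s : ℝ) - n / r| ≤ 1 * (δ₁ * n) :=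
                mul_le_mul h1.le hs1 (abs_nonneg _) (by norm_num)
            _ ≤ δ * s := by
                rw [one_mul]
                exact mul_le_mul (by linarith) hns' hnr.le hδ.le
        refine ⟨fun h => g1 (b5 h), fun h => g2 (b6 h), g3, ?_, ?_, ?_⟩
        · rw [add_comm, Function.iterate_add_apply, g4, b1]
        · -- suffixes
          intro t ht
          rcases Nat.lt_or_ge s t with h | h
          · obtain ⟨u, rfl⟩ := Nat.exists_eq_add_of_le' h.le
            have e0 : c + s - (u + s) = c - u := by omega
            rw [e0, oc_add, ← Function.iterate_add_apply]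
            have e1 : u + (c - u) = c := by omega
            rw [e1, g4, b2]
            have h3 := g5 u (by omega)
            have e2 : (((oc u (TZ^[c - u] m) + n : ℕ) : ℝ)) - r * ((u + s : ℕ) : ℝ) =
                ((oc u (TZ^[c - u] m) : ℕ) - r * (u : ℝ)) + (n - r * s) := by
              push_cast
              ring
            rw [e2]
            refine (abs_add_le _ _).trans ?_
            push_cast
            linarith
          · refine (triv h0 h1 h hsC _).trans ?_
            have : 0 ≤ δ * (t : ℝ) := by positivity
            linarith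
        · -- windows
          intro t t' ht
          rcases Nat.lt_or_ge c (t + t') with h | h
          · rcases Nat.lt_or_ge t c with h' | h'
            · -- crossing
              obtain ⟨u, rfl⟩ : ∃ u, t' = (c - t) + u := ⟨t' - (c - t), by omega⟩
              have e1 : oc ((c - t) + u) (TZ^[t] m) = oc (c - t) (TZ^[t] m) + oc u m₁ := by
                rw [oc_add, ← Function.iterate_add_apply]
                have : c - t + t = c := by omega
                rw [this, g4]
              rw [e1]
              have h3 := triv h0 h1 (show u ≤ s by omega) hsC m₁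
              have h4 := g5 (c - t) (by omega)
              have e0 : c - (c - t) = t := by omega
              rw [e0] at h4
              have e2 : (((oc (c - t) (TZ^[t] m) + oc u m₁ : ℕ) : ℝ)) -
                  r * (((c - t) + u : ℕ) : ℝ) =
                  ((oc (c - t) (TZ^[t] m) : ℕ) - r * ((c - t : ℕ) : ℝ)) +
                  ((oc u m₁ : ℕ) - r * (u : ℝ)) := by
                push_cast
                ring
              rw [e2]
              refine (abs_add_le _ _).trans ?_
              have h5 : 0 ≤ δ * (u : ℝ) := by positivity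
              push_cast at *
              linarith
            · have h3 := triv h0 h1 (show t' ≤ s by omega) hsC (TZ^[t] m)
              have h4 : 0 ≤ δ * (t' : ℝ) := by positivity
              linarith
          · exact g6 t t' h

end Pool.Agent.Y966.UB
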