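import Pool.Agent.Y966.UB.Path1

/-!
Paths with finitely many pieces: definitions, and the lower bound for the number of steady
trajectories along a path.
-/

set_option autoImplicit false
set_option linter.unusedVariables false

namespace Pool.Agent.Y966.UB

open Finset Pool.Agent.H395R2.G3
open Pool.Agent.Y966.LD

/-- number of steps of a path at the scale `s` -/
noncomputable def stp (s : ℝ) : List (ℝ × ℝ) → ℕ
  | [] => 0
  | p :: P => ⌊p.1 * s⌋₊ + stp s P

/-- following a path -/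
def Fol (δ s : ℝ) : List (ℝ × ℝ) → ℤ → Prop
  | [], _ => True
  | p :: P, n => |(oc ⌊p.1 * s⌋₊ n : ℝ) - p.2 * (p.1 * s)| ≤ δ * s ∧
      Fol δ s P (TZ^[⌊p.1 * s⌋₊] n)

/-- growth exponent of the number of starting points -/
noncomputable def gn : List (ℝ × ℝ) → ℝ
  | [] => 0
  | p :: P => p.1 * FF p.2 + gn P

/-- windows -/
def WinR (lo hi C : ℝ) (k : ℕ) (m : ℤ) : Prop :=
  ∀ t t', t + t' ≤ k → lo * t' - C ≤ (oc t' (TZ^[t] m) : ℝ) ∧ (oc t' (TZ^[t] m) : ℝ) ≤ hi * t' + C

theorem list_lower {lo hi : ℝ} (hlo : 0 < lo) (hhi : hi < 1) : ∀ (P : List (ℝ × ℝ)),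
    (∀ p ∈ P, 0 < p.1 ∧ lo < p.2 ∧ p.2 < hi ∧ 0 < FF p.2) → ∀ {ε : ℝ}, 0 < ε → ∀ {δ : ℝ}, 0 < δ →
    ∃ C : ℝ, 0 < C ∧ ∃ s₀ : ℝ, 0 < s₀ ∧ ∀ s : ℝ, s₀ ≤ s → ∀ x : ℤ, ¬ (3 : ℤ) ∣ x →
      ∃ G : Finset ℤ, Real.exp ((gn P - ε) * s) ≤ (G.card : ℝ) ∧
        ∀ m ∈ G, (0 < x → 0 < m) ∧ (x < 0 → m < 0) ∧ ¬ (3 : ℤ) ∣ m ∧ TZ^[stp s P] m = x ∧
          Fol δ s P m ∧ WinR lo hi C (stp s P) m := by
  classical
  intro P
  induction P with
  | nil =>
    intro _ ε hε δ hδ
    refine ⟨1, one_pos, 1, one_pos, fun s hs x hx => ⟨{x}, ?_, ?_⟩⟩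
    · rw [card_singleton, Nat.cast_one, Real.exp_le_one_iff]
      unfold gn
      nlinarith
    · intro m hm
      rw [mem_singleton] at hm
      subst hm
      refine ⟨fun h => h, fun h => h, hx, rfl, trivial, ?_⟩
      intro t t' ht
      have h1 : t + t' ≤ 0 := ht
      have : t' = 0 := by omega
      subst this
      simp [oc_zero]
  | cons p P ih =>
    intro hP ε hε δ hδ
    obtain ⟨hp1, hp2, hp3, hp4⟩ := hP p (List.mem_cons_self)
    obtain ⟨C₁, hC₁, s₁, hs₁, h₁⟩ := ih (fun q hq => hP q (List.mem_cons_of_mem _ hq))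
      (show 0 < ε / 2 by positivity) hδ
    have hr0 : 0 < p.2 := hlo.trans hp2
    have hr1 : p.2 < 1 := hp3.trans hhi
    set δ' : ℝ := min (min (p.2 - lo) (hi - p.2)) (min (δ / (2 * p.1)) (ε / (4 * p.1))) with hδ'
    have hδ'0 : 0 < δ' := lt_min (lt_min (by linarith) (by linarith))
      (lt_min (by positivity) (by positivity))
    have d1 : δ' ≤ p.2 - lo := (min_le_left _ _).trans (min_le_left _ _)
    have d2 : δ' ≤ hi - p.2 := (min_le_left _ _).trans (min_le_right _ _)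
    have d3 : δ' * (2 * p.1) ≤ δ := by
      have : δ' ≤ δ / (2 * p.1) := (min_le_right _ _).trans (min_le_left _ _)
      rwa [le_div_iff₀ (by positivity)] at this
    have d4 : δ' * (4 * p.1) ≤ ε := by
      have : δ' ≤ ε / (4 * p.1) := (min_le_right _ _).trans (min_le_right _ _)
      rwa [le_div_iff₀ (by positivity)] at this
    obtain ⟨C₂, hC₂, h₂⟩ := piece_lower hr0 hr1 hp4 hδ'0
    refine ⟨2 * C₂ + C₁, by positivity, max s₁ (max (4 * (C₂ + 1) / ε) (4 * (C₂ + 1) / δ)),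
      lt_max_of_lt_left hs₁, fun s hs x hx => ?_⟩
    have hss1 : s₁ ≤ s := (le_max_left _ _).trans hs
    have hs0 : 0 < s := lt_of_lt_of_le hs₁ hss1
    have hsa : 4 * (C₂ + 1) ≤ s * ε := by
      have : 4 * (C₂ + 1) / ε ≤ s := (le_max_left _ _).trans ((le_max_right _ _).trans hs)
      rwa [div_le_iff₀ hε] at this
    have hsb : 4 * (C₂ + 1) ≤ s * δ := by
      have : 4 * (C₂ + 1) / δ ≤ s := (le_max_right _ _).trans ((le_max_right _ _).trans hs)
      rwa [div_le_iff₀ hδ] at this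
    set k : ℕ := ⌊p.1 * s⌋₊ with hk
    have hk1 : (k : ℝ) ≤ p.1 * s := Nat.floor_le (by positivity)
    have hk2 : p.1 * s < k + 1 := Nat.lt_floor_add_one _
    obtain ⟨G₁, hG₁, hG₁'⟩ := h₁ s hss1 x hx
    have hG : ∀ m₁ : ℤ, ∃ G : Finset ℤ, m₁ ∈ G₁ →
        (Real.exp ((FF p.2 - δ') * k - C₂) ≤ (G.card : ℝ) ∧
        ∀ m ∈ G, (0 < m₁ → 0 < m) ∧ (m₁ < 0 → m < 0) ∧ ¬ (3 : ℤ) ∣ m ∧ TZ^[k] m = m₁ ∧
          Suff p.2 δ' C₂ k m ∧ Wind p.2 δ' C₂ k m) := by
      intro m₁
      by_cases hm : m₁ ∈ G₁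
      · obtain ⟨G, hG⟩ := h₂ k m₁ (hG₁' m₁ hm).2.2.1
        exact ⟨G, fun _ => hG⟩
      · exact ⟨∅, fun h => absurd h hm⟩
    choose G hG using hG
    have hdisj : Set.PairwiseDisjoint (G₁ : Set ℤ) G := by
      intro a ha b hb hab
      rw [Function.onFun, disjoint_left]
      intro m hma hmb
      apply hab
      rw [← ((hG a ha).2 m hma).2.2.2.1, ← ((hG b hb).2 m hmb).2.2.2.1]
    refine ⟨G₁.biUnion G, ?_, ?_⟩
    · rw [card_biUnion hdisj]
      push_cast
      have e1 : (G₁.card : ℝ) * Real.exp ((FF p.2 - δ') * k - C₂) ≤ ∑ m₁ ∈ G₁, ((G m₁).card : ℝ) := by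
        rw [← nsmul_eq_mul, ← sum_const]
        exact sum_le_sum fun m₁ hm => (hG m₁ hm).1
      refine le_trans ?_ e1
      have e2 : Real.exp ((gn (p :: P) - ε) * s) ≤
          Real.exp ((gn P - ε / 2) * s) * Real.exp ((FF p.2 - δ') * k - C₂) := by
        rw [← Real.exp_add]
        apply Real.exp_le_exp.2
        have e3 : gn (p :: P) = p.1 * FF p.2 + gn P := rfl
        rw [e3]
        have hF1 : FF p.2 < 1 := FF_lt_one hr0
        have e4 : FF p.2 * (p.1 * s) - FF p.2 ≤ FF p.2 * k := by nlinarith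
        have e5 : δ' * k ≤ δ' * (p.1 * s) := mul_le_mul_of_nonneg_left hk1 hδ'0.le
        nlinarith
      exact e2.trans (mul_le_mul_of_nonneg_right hG₁ (Real.exp_pos _).le)
    · intro m hm
      obtain ⟨m₁, hm₁, hmG⟩ := mem_biUnion.1 hm
      obtain ⟨f1, f2, f3, f4, f5, f6⟩ := hG₁' m₁ hm₁
      obtain ⟨g1, g2, g3, g4, g5, g6⟩ := (hG m₁ hm₁).2 m hmG
      have est : stp s (p :: P) = k + stp s P := rfl
      refine ⟨fun h => g1 (f1 h), fun h => g2 (f2 h), g3, ?_, ⟨?_, ?_⟩, ?_⟩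
      · rw [est, add_comm, Function.iterate_add_apply, g4, f4]
      · rw [← hk]
        have h3 := g5 k le_rfl
        rw [Nat.sub_self, Function.iterate_zero, id] at h3
        have e1 : (oc k m : ℝ) - p.2 * (p.1 * s) = (oc k m - p.2 * k) + p.2 * (k - p.1 * s) := by
          ring
        rw [e1]
        refine (abs_add_le _ _).trans ?_
        have e2 : |p.2 * ((k : ℝ) - p.1 * s)| ≤ 1 := by
          rw [abs_mul, abs_of_pos hr0]
          have : |(k : ℝ) - p.1 * s| ≤ 1 := by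
            rw [abs_le]
            constructor <;> linarith
          calc p.2 * |(k : ℝ) - p.1 * s| ≤ 1 * 1 := mul_le_mul hr1.le this (abs_nonneg _) zero_le_one
            _ = 1 := one_mul 1
        have e3 : δ' * (k : ℝ) ≤ δ' * (p.1 * s) := mul_le_mul_of_nonneg_left hk1 hδ'0.le
        nlinarith
      · rw [← hk, g4]
        exact f5
      · -- windows
        intro t t' ht
        rw [est] at ht
        have key : ∀ u v : ℕ, u + v ≤ k → lo * v - 2 * C₂ ≤ (oc v (TZ^[u] m) : ℝ) ∧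
            (oc v (TZ^[u] m) : ℝ) ≤ hi * v + 2 * C₂ := by
          intro u v huv
          have h3 := abs_le.1 (g6 u v huv)
          have hv : (0 : ℝ) ≤ v := Nat.cast_nonneg v
          have h4 : δ' * v ≤ (p.2 - lo) * v := mul_le_mul_of_nonneg_right d1 hv
          have h5 : δ' * v ≤ (hi - p.2) * v := mul_le_mul_of_nonneg_right d2 hv
          constructor <;> linarith [h3.1, h3.2]
        rcases Nat.lt_or_ge k (t + t') with h | h
        · rcases Nat.lt_or_ge t k with h' | h'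
          · obtain ⟨u, rfl⟩ : ∃ u, t' = (k - t) + u := ⟨t' - (k - t), by omega⟩
            have e1 : oc ((k - t) + u) (TZ^[t] m) = oc (k - t) (TZ^[t] m) + oc u m₁ := by
              rw [oc_add, ← Function.iterate_add_apply]
              have : k - t + t = k := by omega
              rw [this, g4]
            rw [e1]
            have h3 := key t (k - t) (by omega)
            have h4 := f6 0 u (by omega)
            rw [Function.iterate_zero, id] at h4
            push_cast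
            constructor <;> nlinarith [h3.1, h3.2, h4.1, h4.2]
          · obtain ⟨u, rfl⟩ := Nat.exists_eq_add_of_le' h'
            rw [Function.iterate_add_apply, g4]
            have h4 := f6 u t' (by omega)
            constructor <;> linarith [h4.1, h4.2]
        · have h3 := key t t' h
          constructor <;> linarith [h3.1, h3.2]

end Pool.Agent.Y966.UB
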