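import Pool.Agent.Y966.UB.Path2
import Pool.Agent.Y966.UB.Fin4

/-!
Upper bounds for the number of starting points whose trajectory follows a path, uniformly in the
target.
-/

set_option autoImplicit false
set_option linter.unusedVariables false

namespace Pool.Agent.Y966.UB

open Finset Filter Topology Pool.Agent.H395R2.G3
open Pool.Agent.Y966.LD

/-- cardinality of a union -/
theorem ncard_bU {ι : Type*} (F : Finset ι) (S : ι → Set ℤ) (hfin : ∀ i ∈ F, (S i).Finite)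
    (A : Set ℤ) (h : ∀ a ∈ A, ∃ i ∈ F, a ∈ S i) : A.Finite ∧ A.ncard ≤ ∑ i ∈ F, (S i).ncard := by
  classical
  have hU : (⋃ i ∈ F, S i).Finite := Set.Finite.biUnion F.finite_toSet fun i hi => hfin i hi
  have hsub : A ⊆ ⋃ i ∈ F, S i := by
    intro a ha
    obtain ⟨i, hi, hai⟩ := h a ha
    exact Set.mem_biUnion (by exact_mod_cast hi) hai
  refine ⟨hU.subset hsub, (Set.ncard_le_ncard hsub hU).trans ?_⟩
  clear hsub h
  induction F using Finset.induction_on with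
  | empty => simp
  | insert i F hi ih =>
    rw [sum_insert hi]
    have e : (⋃ j ∈ insert i F, S j) = S i ∪ ⋃ j ∈ F, S j := by
      ext x
      simp
    rw [e]
    refine (Set.ncard_union_le _ _).trans (Nat.add_le_add_left ?_ _)
    exact ih (fun j hj => hfin j (mem_insert_of_mem hj))
      (Set.Finite.biUnion F.finite_toSet fun j hj => hfin j (mem_insert_of_mem hj))

/-- starting points of one piece -/
def Pc (Q : ℕ → ℤ → Prop) (δ s : ℝ) (p : ℝ × ℝ) (a : ℤ) : Set ℤ :=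
  {n : ℤ | TZ^[⌊p.1 * s⌋₊] n = a ∧ |(oc ⌊p.1 * s⌋₊ n : ℝ) - p.2 * (p.1 * s)| ≤ δ * s ∧
    Q ⌊p.1 * s⌋₊ n}

/-- starting points of a path -/
def PP (Q : ℕ → ℤ → Prop) (δ s : ℝ) (P : List (ℝ × ℝ)) (a : ℤ) : Set ℤ :=
  {n : ℤ | TZ^[stp s P] n = a ∧ Fol δ s P n ∧ Q (stp s P) n}

/-- bound for one piece -/
theorem piece_core {Q : ℕ → ℤ → Prop} {C₀ a₀ μ ε₁ τ ρ δ : ℝ} (hC₀ : 0 < C₀) (ha₀ : 0 ≤ a₀)
    (hε₁ : 0 ≤ ε₁) (hτ : 0 < τ) (hδ : 0 ≤ δ)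
    (hb : ∀ (k o : ℕ) (a : ℤ), ({n : ℤ | TZ^[k] n = a ∧ oc k n = o ∧ Q k n}.ncard : ℝ) ≤
      C₀ * Real.exp (ε₁ * k + k * a₀ + o * μ)) {ε₂ : ℝ} (hε₂ : 0 < ε₂) :
    ∃ C : ℝ, 0 < C ∧ ∀ s : ℝ, 0 ≤ s → ∀ a : ℤ, (Pc Q δ s (τ, ρ) a).Finite ∧
      ((Pc Q δ s (τ, ρ) a).ncard : ℝ) ≤
        C * Real.exp ((τ * (a₀ + ρ * μ) + ε₁ * τ + δ * |μ| + ε₂) * s) := by
  classical
  refine ⟨C₀ * (1 + τ / ε₂), by positivity, fun s hs a => ?_⟩
  set k : ℕ := ⌊τ * s⌋₊ with hk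
  have hk1 : (k : ℝ) ≤ τ * s := Nat.floor_le (by positivity)
  set F : Finset ℕ := (range (k + 1)).filter fun o => |(o : ℝ) - ρ * (τ * s)| ≤ δ * s with hF
  have hfin : ∀ o ∈ F, ({n : ℤ | TZ^[k] n = a ∧ oc k n = o ∧ Q k n}).Finite := fun o _ =>
    (ncard_le_WO k o a).1.subset fun n hn => ⟨hn.1, hn.2.1⟩
  obtain ⟨h1, h2⟩ := ncard_bU F (fun o => {n : ℤ | TZ^[k] n = a ∧ oc k n = o ∧ Q k n}) hfin
    (Pc Q δ s (τ, ρ) a) (by
      rintro n ⟨hn1, hn2, hn3⟩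
      refine ⟨oc k n, ?_, hn1, rfl, hn3⟩
      rw [hF, mem_filter, mem_range]
      exact ⟨Nat.lt_succ_of_le (oc_le k n), hn2⟩)
  refine ⟨h1, ?_⟩
  have h3 : ((Pc Q δ s (τ, ρ) a).ncard : ℝ) ≤
      ∑ o ∈ F, (({n : ℤ | TZ^[k] n = a ∧ oc k n = o ∧ Q k n}).ncard : ℝ) := by exact_mod_cast h2
  refine h3.trans ?_
  have h4 : ∀ o ∈ F, (({n : ℤ | TZ^[k] n = a ∧ oc k n = o ∧ Q k n}).ncard : ℝ) ≤
      C₀ * Real.exp ((τ * (a₀ + ρ * μ) + ε₁ * τ + δ * |μ|) * s) := by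
    intro o ho
    rw [hF, mem_filter] at ho
    refine (hb k o a).trans (mul_le_mul_of_nonneg_left (Real.exp_le_exp.2 ?_) hC₀.le)
    have e1 : ε₁ * k ≤ ε₁ * (τ * s) := mul_le_mul_of_nonneg_left hk1 hε₁
    have e2 : (k : ℝ) * a₀ ≤ τ * s * a₀ := mul_le_mul_of_nonneg_right hk1 ha₀
    have e3 : ((o : ℝ) - ρ * (τ * s)) * μ ≤ δ * s * |μ| := by
      calc ((o : ℝ) - ρ * (τ * s)) * μ ≤ |((o : ℝ) - ρ * (τ * s)) * μ| := le_abs_self _
        _ = |(o : ℝ) - ρ * (τ * s)| * |μ| := abs_mul _ _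
        _ ≤ δ * s * |μ| := mul_le_mul_of_nonneg_right ho.2 (abs_nonneg _)
    nlinarith
  refine (sum_le_sum h4).trans ?_
  rw [sum_const, nsmul_eq_mul]
  have h5 : (F.card : ℝ) ≤ τ * s + 1 := by
    have : F.card ≤ k + 1 := (card_filter_le _ _).trans (le_of_eq (card_range _))
    have h6 : (F.card : ℝ) ≤ ((k + 1 : ℕ) : ℝ) := by exact_mod_cast this
    push_cast at h6
    linarith
  have h6 : τ * s + 1 ≤ (1 + τ / ε₂) * Real.exp (ε₂ * s) := by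
    have h7 := Real.add_one_le_exp (ε₂ * s)
    have h8 : (1 + τ / ε₂) * (ε₂ * s + 1) = ε₂ * s + 1 + τ * s + τ / ε₂ := by
      field_simp
      ring
    have h9 : 0 ≤ ε₂ * s := by positivity
    have h10 : 0 ≤ τ / ε₂ := by positivity
    nlinarith
  have h7 : Real.exp ((τ * (a₀ + ρ * μ) + ε₁ * τ + δ * |μ| + ε₂) * s) =
      Real.exp ((τ * (a₀ + ρ * μ) + ε₁ * τ + δ * |μ|) * s) * Real.exp (ε₂ * s) := by
    rw [← Real.exp_add]
    congr 1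
    ring
  rw [h7]
  have h8 : (0 : ℝ) < C₀ * Real.exp ((τ * (a₀ + ρ * μ) + ε₁ * τ + δ * |μ|) * s) := by positivity
  calc (F.card : ℝ) * (C₀ * Real.exp ((τ * (a₀ + ρ * μ) + ε₁ * τ + δ * |μ|) * s))
      ≤ ((1 + τ / ε₂) * Real.exp (ε₂ * s)) *
        (C₀ * Real.exp ((τ * (a₀ + ρ * μ) + ε₁ * τ + δ * |μ|) * s)) :=
        mul_le_mul_of_nonneg_right (h5.trans h6) h8.le
    _ = _ := by ring

/-- bound for a path -/
theorem list_upper {Q : ℕ → ℤ → Prop} (hQ : ∀ k k' n, Q (k + k') n → Q k n ∧ Q k' (TZ^[k] n))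
    {δ ε' : ℝ} : ∀ (P : List (ℝ × ℝ)), (∀ p ∈ P, ∃ C : ℝ, 0 < C ∧ ∀ s : ℝ, 0 ≤ s → ∀ a : ℤ,
      (Pc Q δ s p a).Finite ∧ ((Pc Q δ s p a).ncard : ℝ) ≤
        C * Real.exp ((p.1 * FF p.2 + ε') * s)) →
    ∃ C : ℝ, 0 < C ∧ ∀ s : ℝ, 0 ≤ s → ∀ a : ℤ, (PP Q δ s P a).Finite ∧
      ((PP Q δ s P a).ncard : ℝ) ≤ C * Real.exp ((gn P + P.length * ε') * s) := by
  classical
  intro P
  induction P with
  | nil =>
    intro _
    refine ⟨1, one_pos, fun s hs a => ?_⟩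
    have hsub : PP Q δ s [] a ⊆ {a} := by
      rintro n ⟨hn, _⟩
      exact hn
    refine ⟨(Set.finite_singleton a).subset hsub, ?_⟩
    have h1 : (PP Q δ s [] a).ncard ≤ 1 := by
      have := Set.ncard_le_ncard hsub (Set.finite_singleton a)
      rwa [Set.ncard_singleton] at this
    have h2 : ((PP Q δ s [] a).ncard : ℝ) ≤ 1 := by exact_mod_cast h1
    simpa [gn] using h2
  | cons p P ih =>
    intro h
    obtain ⟨C₁, hC₁, h₁⟩ := h p (List.mem_cons_self)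
    obtain ⟨C₂, hC₂, h₂⟩ := ih fun q hq => h q (List.mem_cons_of_mem _ hq)
    refine ⟨C₁ * C₂, by positivity, fun s hs a => ?_⟩
    set k : ℕ := ⌊p.1 * s⌋₊ with hk
    obtain ⟨f1, f2⟩ := h₂ s hs a
    set F : Finset ℤ := f1.toFinset with hF
    obtain ⟨g1, g2⟩ := ncard_bU F (fun m => Pc Q δ s p m) (fun m _ => (h₁ s hs m).1)
      (PP Q δ s (p :: P) a) (by
        rintro n ⟨hn1, ⟨hn2, hn3⟩, hn4⟩
        have est : stp s (p :: P) = k + stp s P := rfl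
        rw [est] at hn1 hn4
        obtain ⟨q1, q2⟩ := hQ k (stp s P) n hn4
        refine ⟨TZ^[k] n, ?_, rfl, hn2, q1⟩
        rw [hF, Set.Finite.mem_toFinset]
        refine ⟨?_, hn3, q2⟩
        rw [← Function.iterate_add_apply, add_comm, hn1])
    refine ⟨g1, ?_⟩
    have g3 : ((PP Q δ s (p :: P) a).ncard : ℝ) ≤ ∑ m ∈ F, ((Pc Q δ s p m).ncard : ℝ) := by
      exact_mod_cast g2
    refine g3.trans ((sum_le_sum fun m _ => (h₁ s hs m).2).trans ?_)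
    rw [sum_const, nsmul_eq_mul]
    have e1 : (F.card : ℝ) ≤ C₂ * Real.exp ((gn P + P.length * ε') * s) := by
      rw [hF, ← Set.ncard_eq_toFinset_card _ f1]
      exact f2
    have e2 : gn (p :: P) = p.1 * FF p.2 + gn P := rfl
    have e3 : ((p :: P).length : ℝ) = P.length + 1 := by simp
    calc (F.card : ℝ) * (C₁ * Real.exp ((p.1 * FF p.2 + ε') * s))
        ≤ (C₂ * Real.exp ((gn P + P.length * ε') * s)) *
          (C₁ * Real.exp ((p.1 * FF p.2 + ε') * s)) := by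
          apply mul_le_mul_of_nonneg_right e1
          positivity
      _ = C₁ * C₂ * (Real.exp ((gn P + P.length * ε') * s) *
            Real.exp ((p.1 * FF p.2 + ε') * s)) := by ring
      _ = C₁ * C₂ * Real.exp ((gn (p :: P) + (p :: P).length * ε') * s) := by
          rw [← Real.exp_add, e2, e3]
          congr 2
          ring

/-- the windows of a steady trajectory -/
def Sty (η r : ℝ) (L : ℕ) (k : ℕ) (n : ℤ) : Prop :=
  ∀ i, i + L ≤ k → η * L ≤ (oc L (TZ^[i] n) : ℝ) ∧ (oc L (TZ^[i] n) : ℝ) ≤ r * L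

theorem Sty_add (η r : ℝ) (L k k' : ℕ) (n : ℤ) (h : Sty η r L (k + k') n) :
    Sty η r L k n ∧ Sty η r L k' (TZ^[k] n) := by
  refine ⟨fun i hi => h i (by omega), fun i hi => ?_⟩
  have := h (i + k) (by omega)
  rwa [Function.iterate_add_apply] at this

/-- steady pieces -/
theorem piece_steady {η r : ℝ} (hη : 0 < η) (hr1 : r < 1) (hH : 0 ≤ FF r) {τ ρ : ℝ} (hτ : 0 < τ)
    (hρ0 : 0 < ρ) (hρr : ρ < r) {ε : ℝ} (hε : 0 < ε) :
    ∃ δ₀ : ℝ, 0 < δ₀ ∧ ∃ L₀ : ℕ, ∀ L : ℕ, L₀ ≤ L → ∀ δ : ℝ, 0 ≤ δ → δ ≤ δ₀ →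
      ∃ C : ℝ, 0 < C ∧ ∀ s : ℝ, 0 ≤ s → ∀ a : ℤ, (Pc (Sty η r L) δ s (τ, ρ) a).Finite ∧
      ((Pc (Sty η r L) δ s (τ, ρ) a).ncard : ℝ) ≤ C * Real.exp ((τ * FF ρ + ε) * s) := by
  have hρ1 : ρ < 1 := hρr.trans hr1
  have hr0 : 0 < r := hρ0.trans hρr
  set z : ℝ := 1 - ρ with hz
  have hz0 : 0 < z := by linarith
  have hz1 : z < 1 := by linarith
  have hgibbs := gibbs_FF hρ0 hρ1 hr0 hr1 hρr.ne
  rw [← hz] at hgibbs
  set a₀ : ℝ := -Real.log z with ha₀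
  have ha₀0 : 0 < a₀ := by
    have := Real.log_neg hz0 hz1
    linarith
  set μ : ℝ := -Real.log (3 * (1 - z) / z) with hμ
  have hFeq : a₀ + ρ * μ = FF ρ := phi_eq hρ0 hρ1
  set Δ : ℝ := a₀ + r * μ with hΔ
  have hΔ0 : 0 < Δ := lt_of_le_of_lt hH hgibbs
  obtain ⟨L₀, hL₀⟩ := exists_nat_ge (max (1 / η) (|μ| / Δ))
  refine ⟨ε / (3 * (|μ| + 1)), by positivity, L₀ + 1, fun L hL δ hδ0 hδ => ?_⟩
  have hδ' : δ * |μ| ≤ ε / 3 := by
    rw [le_div_iff₀ (by positivity)] at hδ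
    nlinarith [abs_nonneg μ]
  have hL1 : 1 ≤ L := by omega
  have hLr : (L₀ : ℝ) ≤ L := by exact_mod_cast (by omega : L₀ ≤ L)
  have hLa : 1 / η ≤ L := (le_max_left _ _).trans (hL₀.trans hLr)
  have hLb : |μ| / Δ ≤ L := (le_max_right _ _).trans (hL₀.trans hLr)
  rw [div_le_iff₀ hη] at hLa
  rw [div_le_iff₀ hΔ0] at hLb
  have hL0 : (0 : ℝ) ≤ L := Nat.cast_nonneg L
  set A : ℕ := ⌊r * L⌋₊ with hA
  have hA1 : (A : ℝ) ≤ r * L := Nat.floor_le (by positivity)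
  have hA2 : r * L < A + 1 := Nat.lt_floor_add_one _
  have hP2 : z ^ L ≤ Real.exp ((A + 1) * μ) := by
    apply P2_of hz0
    rw [← ha₀]
    have h5 : ((A : ℝ) + 1 - r * L) * (-|μ|) ≤ ((A : ℝ) + 1 - r * L) * μ :=
      mul_le_mul_of_nonneg_left (neg_abs_le μ) (by linarith)
    have h6 : ((A : ℝ) + 1 - r * L) * |μ| ≤ 1 * |μ| :=
      mul_le_mul_of_nonneg_right (by linarith) (abs_nonneg _)
    have h7 : (L : ℝ) * Δ = L * a₀ + r * L * μ := by rw [hΔ]; ring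
    linarith
  obtain ⟨C₀, hC₀, hup⟩ := reg_upper hL1 hz0 hz1 (P1_eq hz0 hz1 A) hP2
    (show 0 < ε / (3 * τ) by positivity)
  obtain ⟨C, hC, h⟩ := piece_core (Q := Sty η r L) (C₀ := C₀) (a₀ := a₀) (μ := μ)
    (ε₁ := ε / (3 * τ)) (τ := τ) (ρ := ρ) (δ := δ) hC₀ ha₀0.le (by positivity) hτ hδ0
    (fun k o a => by
      refine le_trans ?_ (hup k o a)
      have hsub : {n : ℤ | TZ^[k] n = a ∧ oc k n = o ∧ Sty η r L k n} ⊆ Rg L A k o a := by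
        rintro n ⟨h1, h2, h3⟩
        refine ⟨h1, h2, fun i hi => ?_⟩
        obtain ⟨w1, w2⟩ := h3 i hi
        constructor
        · have h4 : (1 : ℝ) ≤ (oc L (TZ^[i] n) : ℝ) := by linarith
          exact_mod_cast h4
        · exact Nat.le_floor w2
      exact_mod_cast Set.ncard_le_ncard hsub (Rg_finite L A k o a))
    (show 0 < ε / 3 by positivity)
  refine ⟨C, hC, fun s hs a => ⟨(h s hs a).1, (h s hs a).2.trans ?_⟩⟩
  apply mul_le_mul_of_nonneg_left _ hC.le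
  apply Real.exp_le_exp.2
  apply mul_le_mul_of_nonneg_right _ hs
  rw [hFeq]
  have e1 : ε / (3 * τ) * τ = ε / 3 := by field_simp
  linarith

/-- fast pieces -/
theorem piece_fast {τ ρ : ℝ} (hτ : 0 < τ) (hρ0 : 0 < ρ) (hρ3 : ρ ≤ 1 / 3) {ε : ℝ} (hε : 0 < ε) :
    ∃ δ₀ : ℝ, 0 < δ₀ ∧ ∀ δ : ℝ, 0 ≤ δ → δ ≤ δ₀ →
      ∃ C : ℝ, 0 < C ∧ ∀ s : ℝ, 0 ≤ s → ∀ a : ℤ, (Pc (fun _ _ => True) δ s (τ, ρ) a).Finite ∧
      ((Pc (fun _ _ => True) δ s (τ, ρ) a).ncard : ℝ) ≤ C * Real.exp ((τ * FF ρ + ε) * s) := by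
  obtain ⟨z, hz1, hz2, hphi, _⟩ := exists_z hρ0 hρ3 (show 0 < ε / (4 * τ) by positivity)
  have hz0 : 0 < z := by linarith
  set a₀ : ℝ := -Real.log z with ha₀
  have ha₀0 : 0 < a₀ := by
    have := Real.log_neg hz0 hz2
    linarith
  set μ : ℝ := -Real.log (3 * (1 - z) / z) with hμ
  have hphi' : a₀ + ρ * μ ≤ FF ρ + ε / (4 * τ) := hphi
  obtain ⟨C₀, hC₀, hup⟩ := joint_upper hz1 hz2 (show 0 < ε / (4 * τ) by positivity)
  refine ⟨ε / (4 * (|μ| + 1)), by positivity, fun δ hδ0 hδ => ?_⟩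
  have hδ' : δ * |μ| ≤ ε / 4 := by
    rw [le_div_iff₀ (by positivity)] at hδ
    nlinarith [abs_nonneg μ]
  obtain ⟨C, hC, h⟩ := piece_core (Q := fun _ _ => True) (C₀ := C₀) (a₀ := a₀) (μ := μ)
    (ε₁ := ε / (4 * τ)) (τ := τ) (ρ := ρ) (δ := δ) hC₀ ha₀0.le (by positivity) hτ hδ0
    (fun k o a => by
      have hth : Pool.Agent.Y966.NZ.th 3 z = 3 * (1 - z) / z := by
        unfold Pool.Agent.Y966.NZ.th
        push_cast
        rfl
      have hth0 : 0 < 3 * (1 - z) / z := by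
        have : 0 < 1 - z := by linarith
        positivity
      have h2 := hup k o a
      rw [hth] at h2
      have e0 : {n : ℤ | TZ^[k] n = a ∧ oc k n = o ∧ True} = {n : ℤ | TZ^[k] n = a ∧ oc k n = o} := by
        ext n
        simp
      rw [e0]
      have h3 : 0 < (3 * (1 - z) / z) ^ o * z ^ k := by positivity
      rw [mul_comm, ← le_div_iff₀ h3] at h2
      refine h2.trans (le_of_eq ?_)
      have e1 : (3 * (1 - z) / z) ^ o = Real.exp (-(o * μ)) := by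
        have : -((o : ℝ) * μ) = o * Real.log (3 * (1 - z) / z) := by rw [hμ]; ring
        rw [this, Real.exp_nat_mul, Real.exp_log hth0]
      have e2 : z ^ k = Real.exp (-(k * a₀)) := by
        have : -((k : ℝ) * a₀) = k * Real.log z := by rw [ha₀]; ring
        rw [this, Real.exp_nat_mul, Real.exp_log hz0]
      rw [e1, e2, ← Real.exp_add, mul_div_assoc, ← Real.exp_sub]
      congr 2
      ring)
    (show 0 < ε / 4 by positivity)
  refine ⟨C, hC, fun s hs a => ⟨(h s hs a).1, (h s hs a).2.trans ?_⟩⟩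
  apply mul_le_mul_of_nonneg_left _ hC.le
  apply Real.exp_le_exp.2
  apply mul_le_mul_of_nonneg_right _ hs
  have e1 : ε / (4 * τ) * τ = ε / 4 := by field_simp
  have e2 : τ * (a₀ + ρ * μ) ≤ τ * (FF ρ + ε / (4 * τ)) := mul_le_mul_of_nonneg_left hphi' hτ.le
  have e3 : τ * (FF ρ + ε / (4 * τ)) = τ * FF ρ + ε / 4 := by field_simp
  linarith

end Pool.Agent.Y966.UB
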