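import Pool.Agent.Y966.UB.Path3

/-!
The local law of steady trajectories along a path, uniformly in the target; the fast regime; sizes.
-/

set_option autoImplicit false
set_option linter.unusedVariables false

namespace Pool.Agent.Y966.UB

open Finset Filter Topology Pool.Agent.H395R2.G3
open Pool.Agent.Y966.LD

theorem list_unif {R : (ℝ × ℝ) → ℝ → ℕ → Prop} : ∀ P : List (ℝ × ℝ),
    (∀ p ∈ P, ∃ δ₀ : ℝ, 0 < δ₀ ∧ ∃ L₀ : ℕ, ∀ L : ℕ, L₀ ≤ L → ∀ δ : ℝ, 0 ≤ δ → δ ≤ δ₀ → R p δ L) →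
    ∃ δ₀ : ℝ, 0 < δ₀ ∧ ∃ L₀ : ℕ, ∀ L : ℕ, L₀ ≤ L → ∀ δ : ℝ, 0 ≤ δ → δ ≤ δ₀ → ∀ p ∈ P, R p δ L := by
  intro P
  induction P with
  | nil => intro _; exact ⟨1, one_pos, 0, fun _ _ _ _ _ p hp => absurd hp (List.not_mem_nil)⟩
  | cons q P ih =>
    intro h
    obtain ⟨d₁, hd₁, L₁, h₁⟩ := h q (List.mem_cons_self)
    obtain ⟨d₂, hd₂, L₂, h₂⟩ := ih fun p hp => h p (List.mem_cons_of_mem _ hp)
    refine ⟨min d₁ d₂, lt_min hd₁ hd₂, max L₁ L₂, fun L hL δ hδ0 hδ p hp => ?_⟩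
    rcases List.mem_cons.1 hp with rfl | hp
    · exact h₁ L ((le_max_left _ _).trans hL) δ hδ0 (hδ.trans (min_le_left _ _))
    · exact h₂ L ((le_max_right _ _).trans hL) δ hδ0 (hδ.trans (min_le_right _ _)) p hp

theorem list_lo {η : ℝ} : ∀ P : List (ℝ × ℝ), (∀ p ∈ P, η < p.2) →
    ∃ lo : ℝ, η < lo ∧ ∀ p ∈ P, lo < p.2 := by
  intro P
  induction P with
  | nil => intro _; exact ⟨η + 1, by linarith, fun p hp => absurd hp (List.not_mem_nil)⟩
  | cons q P ih =>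
    intro h
    obtain ⟨lo, h1, h2⟩ := ih fun p hp => h p (List.mem_cons_of_mem _ hp)
    have hq := h q (List.mem_cons_self)
    refine ⟨min lo ((η + q.2) / 2), lt_min h1 (by linarith), fun p hp => ?_⟩
    rcases List.mem_cons.1 hp with rfl | hp
    · exact lt_of_le_of_lt (min_le_right _ _) (by linarith)
    · exact lt_of_le_of_lt (min_le_left _ _) (h2 p hp)

theorem list_hi {r : ℝ} : ∀ P : List (ℝ × ℝ), (∀ p ∈ P, p.2 < r) →
    ∃ hi : ℝ, hi < r ∧ ∀ p ∈ P, p.2 < hi := by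
  intro P
  induction P with
  | nil => intro _; exact ⟨r - 1, by linarith, fun p hp => absurd hp (List.not_mem_nil)⟩
  | cons q P ih =>
    intro h
    obtain ⟨hi, h1, h2⟩ := ih fun p hp => h p (List.mem_cons_of_mem _ hp)
    have hq := h q (List.mem_cons_self)
    refine ⟨max hi ((r + q.2) / 2), max_lt h1 (by linarith), fun p hp => ?_⟩
    rcases List.mem_cons.1 hp with rfl | hp
    · exact lt_of_lt_of_le (by linarith) (le_max_right _ _)
    · exact lt_of_lt_of_le (h2 p hp) (le_max_left _ _)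

/-- absorbing a constant -/
theorem absorb {C ε : ℝ} (hC : 0 < C) (hε : 0 < ε) : ∃ s₀ : ℝ, 0 < s₀ ∧ ∀ s : ℝ, s₀ ≤ s →
    C ≤ Real.exp (ε * s) := by
  refine ⟨(|Real.log C| + 1) / ε, by positivity, fun s hs => ?_⟩
  rw [div_le_iff₀ hε] at hs
  rw [← Real.log_le_iff_le_exp hC]
  have := le_abs_self (Real.log C)
  linarith

/-- upper bound, steady trajectories, with a constant -/
theorem steady_list {η r : ℝ} (hη : 0 < η) (hr1 : r < 1) (hH : 0 ≤ FF r) (P : List (ℝ × ℝ))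
    (hP : ∀ p ∈ P, 0 < p.1 ∧ η < p.2 ∧ p.2 < r) {ε : ℝ} (hε : 0 < ε) :
    ∃ δ₀ : ℝ, 0 < δ₀ ∧ ∃ L₀ : ℕ, ∀ L : ℕ, L₀ ≤ L → ∀ δ : ℝ, 0 ≤ δ → δ ≤ δ₀ →
      ∃ C : ℝ, 0 < C ∧ ∀ s : ℝ, 0 ≤ s → ∀ a : ℤ, (PP (Sty η r L) δ s P a).Finite ∧
        ((PP (Sty η r L) δ s P a).ncard : ℝ) ≤ C * Real.exp ((gn P + ε) * s) := by
  set ε' : ℝ := ε / (P.length + 1) with hε'
  have hl : (0 : ℝ) < (P.length : ℝ) + 1 := by positivity
  have hε'0 : 0 < ε' := by positivity
  have hlen : (P.length : ℝ) * ε' ≤ ε := by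
    have : ((P.length : ℝ) + 1) * ε' = ε := by rw [hε']; field_simp
    linarith
  obtain ⟨δ₀, hδ₀, L₀, h⟩ := list_unif (R := fun p δ L => ∃ C : ℝ, 0 < C ∧ ∀ s : ℝ, 0 ≤ s →
    ∀ a : ℤ, (Pc (Sty η r L) δ s p a).Finite ∧ ((Pc (Sty η r L) δ s p a).ncard : ℝ) ≤
      C * Real.exp ((p.1 * FF p.2 + ε') * s)) P (fun p hp => by
    obtain ⟨h1, h2, h3⟩ := hP p hp
    exact piece_steady (τ := p.1) (ρ := p.2) hη hr1 hH h1 (hη.trans h2) h3 hε'0)
  refine ⟨δ₀, hδ₀, L₀, fun L hL δ hδ0 hδ => ?_⟩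
  obtain ⟨C, hC, hu⟩ := list_upper (Sty_add η r L) P (h L hL δ hδ0 hδ)
  refine ⟨C, hC, fun s hs a => ⟨(hu s hs a).1, (hu s hs a).2.trans ?_⟩⟩
  apply mul_le_mul_of_nonneg_left _ hC.le
  apply Real.exp_le_exp.2
  apply mul_le_mul_of_nonneg_right _ hs
  linarith

/-- upper bound, all trajectories in the fast regime -/
theorem fast_list (P : List (ℝ × ℝ)) (hP : ∀ p ∈ P, 0 < p.1 ∧ 0 < p.2 ∧ p.2 ≤ 1 / 3)
    {ε : ℝ} (hε : 0 < ε) :
    ∃ δ₀ : ℝ, 0 < δ₀ ∧ ∀ δ : ℝ, 0 ≤ δ → δ ≤ δ₀ →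
      ∃ C : ℝ, 0 < C ∧ ∀ s : ℝ, 0 ≤ s → ∀ a : ℤ, (PP (fun _ _ => True) δ s P a).Finite ∧
        ((PP (fun _ _ => True) δ s P a).ncard : ℝ) ≤ C * Real.exp ((gn P + ε) * s) := by
  set ε' : ℝ := ε / (P.length + 1) with hε'
  have hl : (0 : ℝ) < (P.length : ℝ) + 1 := by positivity
  have hε'0 : 0 < ε' := by positivity
  have hlen : (P.length : ℝ) * ε' ≤ ε := by
    have : ((P.length : ℝ) + 1) * ε' = ε := by rw [hε']; field_simp
    linarith
  obtain ⟨δ₀, hδ₀, L₀, h⟩ := list_unif (R := fun p δ L => ∃ C : ℝ, 0 < C ∧ ∀ s : ℝ, 0 ≤ s →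
    ∀ a : ℤ, (Pc (fun _ _ => True) δ s p a).Finite ∧
      ((Pc (fun _ _ => True) δ s p a).ncard : ℝ) ≤
      C * Real.exp ((p.1 * FF p.2 + ε') * s)) P (fun p hp => by
    obtain ⟨h1, h2, h3⟩ := hP p hp
    obtain ⟨d, hd, h4⟩ := piece_fast (τ := p.1) (ρ := p.2) h1 h2 h3 hε'0
    exact ⟨d, hd, 0, fun L _ δ hδ0 hδ => h4 δ hδ0 hδ⟩)
  refine ⟨δ₀, hδ₀, fun δ hδ0 hδ => ?_⟩
  obtain ⟨C, hC, hu⟩ := list_upper (Q := fun _ _ => True) (fun _ _ _ _ => ⟨trivial, trivial⟩) P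
    (h L₀ le_rfl δ hδ0 hδ)
  refine ⟨C, hC, fun s hs a => ⟨(hu s hs a).1, (hu s hs a).2.trans ?_⟩⟩
  apply mul_le_mul_of_nonneg_left _ hC.le
  apply Real.exp_le_exp.2
  apply mul_le_mul_of_nonneg_right _ hs
  linarith

/-- many steady trajectories -/
theorem steady_many {η r : ℝ} (hη : 0 < η) (hr1 : r < 1) (hH : 0 ≤ FF r) (P : List (ℝ × ℝ))
    (hP : ∀ p ∈ P, 0 < p.1 ∧ η < p.2 ∧ p.2 < r) {ε : ℝ} (hε : 0 < ε) {δ : ℝ} (hδ : 0 < δ) :
    ∃ L₀ : ℕ, ∀ L : ℕ, L₀ ≤ L → ∃ s₀ : ℝ, 0 < s₀ ∧ ∀ s : ℝ, s₀ ≤ s → ∀ a : ℤ, ¬ (3 : ℤ) ∣ a →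
      ∃ G : Finset ℤ, Real.exp ((gn P - ε) * s) ≤ (G.card : ℝ) ∧
        ∀ m ∈ G, (0 < a → 0 < m) ∧ (a < 0 → m < 0) ∧ m ∈ PP (Sty η r L) δ s P a := by
  obtain ⟨lo, hlo1, hlo2⟩ := list_lo P fun p hp => (hP p hp).2.1
  obtain ⟨hi, hhi1, hhi2⟩ := list_hi P fun p hp => (hP p hp).2.2
  obtain ⟨C, hC, s₀, hs₀, h⟩ := list_lower (lo := lo) (hi := hi) (hη.trans hlo1)
    (hhi1.trans hr1) P (fun p hp => ⟨(hP p hp).1, hlo2 p hp, hhi2 p hp,
      FF_pos_of (hη.trans (hP p hp).2.1) (hP p hp).2.2 hr1.le hH⟩) hε hδ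
  obtain ⟨L₀, hL₀⟩ := exists_nat_ge (max (C / (lo - η)) (C / (r - hi)))
  refine ⟨L₀, fun L hL => ⟨s₀, hs₀, fun s hs a ha => ?_⟩⟩
  obtain ⟨G, hG1, hG2⟩ := h s hs a ha
  refine ⟨G, hG1, fun m hm => ?_⟩
  obtain ⟨g1, g2, g3, g4, g5, g6⟩ := hG2 m hm
  refine ⟨g1, g2, g4, g5, fun i hi' => ?_⟩
  have hLr : (L₀ : ℝ) ≤ L := by exact_mod_cast hL
  have h1 : C / (lo - η) ≤ L := (le_max_left _ _).trans (hL₀.trans hLr)
  have h2 : C / (r - hi) ≤ L := (le_max_right _ _).trans (hL₀.trans hLr)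
  rw [div_le_iff₀ (by linarith)] at h1 h2
  obtain ⟨w1, w2⟩ := g6 i L hi'
  constructor <;> nlinarith

/-- LOCAL LAW -/
theorem local_law {η r : ℝ} (hη : 0 < η) (hr1 : r < 1) (hH : 0 ≤ FF r) (P : List (ℝ × ℝ))
    (hP : ∀ p ∈ P, 0 < p.1 ∧ η < p.2 ∧ p.2 < r) {ε : ℝ} (hε : 0 < ε) :
    ∃ δ₀ : ℝ, 0 < δ₀ ∧ ∀ δ : ℝ, 0 < δ → δ ≤ δ₀ → ∃ L₀ : ℕ, ∀ L : ℕ, L₀ ≤ L →
      ∃ s₀ : ℝ, 0 < s₀ ∧ ∀ s : ℝ, s₀ ≤ s → ∀ a : ℤ, (PP (Sty η r L) δ s P a).Finite ∧
        ((PP (Sty η r L) δ s P a).ncard : ℝ) ≤ Real.exp ((gn P + ε) * s) ∧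
        (¬ (3 : ℤ) ∣ a → Real.exp ((gn P - ε) * s) ≤ ((PP (Sty η r L) δ s P a).ncard : ℝ)) := by
  obtain ⟨δ₀, hδ₀, L₁, hup⟩ := steady_list hη hr1 hH P hP (show 0 < ε / 2 by positivity)
  refine ⟨δ₀, hδ₀, fun δ hδ0 hδ => ?_⟩
  obtain ⟨L₂, hlow⟩ := steady_many hη hr1 hH P hP hε hδ0
  refine ⟨max L₁ L₂, fun L hL => ?_⟩
  obtain ⟨C, hC, hu⟩ := hup L ((le_max_left _ _).trans hL) δ hδ0.le hδ
  obtain ⟨s₂, hs₂, hl⟩ := hlow L ((le_max_right _ _).trans hL)
  obtain ⟨s₁, hs₁, hab⟩ := absorb hC (show 0 < ε / 2 by positivity)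
  refine ⟨max s₁ s₂, lt_max_of_lt_left hs₁, fun s hs a => ?_⟩
  have hs1 := (le_max_left _ _).trans hs
  have hs2 := (le_max_right _ _).trans hs
  obtain ⟨f1, f2⟩ := hu s (hs₁.le.trans hs1) a
  refine ⟨f1, f2.trans ?_, fun ha => ?_⟩
  · calc C * Real.exp ((gn P + ε / 2) * s) ≤
        Real.exp (ε / 2 * s) * Real.exp ((gn P + ε / 2) * s) :=
          mul_le_mul_of_nonneg_right (hab s hs1) (Real.exp_pos _).le
      _ = Real.exp ((gn P + ε) * s) := by
          rw [← Real.exp_add]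
          congr 1
          ring
  · obtain ⟨G, hG1, hG2⟩ := hl s hs2 a ha
    refine hG1.trans ?_
    have h1 : (G : Set ℤ).ncard ≤ (PP (Sty η r L) δ s P a).ncard :=
      Set.ncard_le_ncard (fun m hm => (hG2 m hm).2.2) f1
    rw [Set.ncard_coe_finset] at h1
    exact_mod_cast h1

/-! ### sizes -/

theorem TZ_pos {n : ℤ} (h : 0 < n) : 0 < TZ n := by
  unfold TZ
  split_ifs <;> omega

theorem TZ_iter_pos {n : ℤ} (h : 0 < n) (k : ℕ) : 0 < TZ^[k] n := by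
  induction k generalizing n with
  | zero => exact h
  | succ k ih =>
    rw [Function.iterate_succ_apply]
    exact ih (TZ_pos h)

/-- lower bound for the iterates -/
theorem size_low {n : ℤ} (h : 0 < n) (k : ℕ) :
    (3 : ℝ) ^ oc k n * n ≤ 2 ^ k * (TZ^[k] n : ℤ) := by
  induction k generalizing n with
  | zero => simp [oc_zero]
  | succ k ih =>
    have h1 := ih (TZ_pos h)
    rw [oc_succ', Function.iterate_succ_apply, pow_succ (2 : ℝ), add_comm]
    by_cases ho : n % 2 = 1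
    · have hT : 2 * TZ n = 3 * n + 1 := by
        unfold TZ
        rw [if_neg (by omega)]
        omega
      have hT' : 2 * (TZ n : ℝ) = 3 * n + 1 := by exact_mod_cast hT
      rw [if_pos ho, pow_succ]
      have h3 : (0 : ℝ) < 3 ^ oc k (TZ n) := by positivity
      nlinarith
    · have hT : 2 * TZ n = n := by
        unfold TZ
        rw [if_pos (by omega)]
        omega
      have hT' : 2 * (TZ n : ℝ) = n := by exact_mod_cast hT
      rw [if_neg ho, add_zero]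
      have h3 : (0 : ℝ) < 3 ^ oc k (TZ n) := by positivity
      nlinarith

/-- upper bound for the iterates as long as they are large -/
theorem size_high {M : ℝ} (hM : 0 < M) (k : ℕ) : ∀ {n : ℤ}, 0 < n →
    (∀ i < k, M ≤ (TZ^[i] n : ℤ)) →
    (2 : ℝ) ^ k * (TZ^[k] n : ℤ) ≤ (3 : ℝ) ^ oc k n * n * Real.exp (k / (3 * M)) := by
  induction k with
  | zero => intro n h _; simp [oc_zero]
  | succ k ih =>
    intro n h hm
    have h0 := hm 0 (by omega)
    rw [Function.iterate_zero, id] at h0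
    have h1 := ih (TZ_pos h) fun i hi => by
      have := hm (i + 1) (by omega)
      rwa [Function.iterate_succ_apply] at this
    rw [oc_succ', Function.iterate_succ_apply, pow_succ (2 : ℝ), add_comm]
    have hn : (0 : ℝ) < n := by exact_mod_cast h
    have e1 : Real.exp (((k + 1 : ℕ) : ℝ) / (3 * M)) =
        Real.exp (k / (3 * M)) * Real.exp (1 / (3 * M)) := by
      rw [← Real.exp_add]
      congr 1
      push_cast
      ring
    rw [e1]
    set E := Real.exp ((k : ℝ) / (3 * M)) with hE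
    have hE0 : 0 < E := Real.exp_pos _
    have hex : 1 + 1 / (3 * M) ≤ Real.exp (1 / (3 * M)) := by
      have := Real.add_one_le_exp (1 / (3 * M))
      linarith
    have hq : (0 : ℝ) < 3 ^ oc k (TZ n) := by positivity
    have h2 : 2 * (TZ n : ℝ) ≤ (if n % 2 = 1 then 3 else 1) * n * Real.exp (1 / (3 * M)) := by
      by_cases ho : n % 2 = 1
      · have hT : 2 * TZ n = 3 * n + 1 := by
          unfold TZ
          rw [if_neg (by omega)]
          omega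
        have hT' : 2 * (TZ n : ℝ) = 3 * n + 1 := by exact_mod_cast hT
        rw [if_pos ho, hT']
        have h3 : 3 * (n : ℝ) + 1 ≤ 3 * n * (1 + 1 / (3 * M)) := by
          have : 3 * (n : ℝ) * (1 + 1 / (3 * M)) = 3 * n + n / M := by
            field_simp
          rw [this]
          have : 1 ≤ (n : ℝ) / M := by rwa [le_div_iff₀ hM, one_mul]
          linarith
        exact h3.trans (mul_le_mul_of_nonneg_left hex (by positivity))
      · have hT : 2 * TZ n = n := by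
          unfold TZ
          rw [if_pos (by omega)]
          omega
        have hT' : 2 * (TZ n : ℝ) = n := by exact_mod_cast hT
        rw [if_neg ho, hT', one_mul]
        have : 1 ≤ Real.exp (1 / (3 * M)) := Real.one_le_exp (by positivity)
        nlinarith
    have h3 : (3 : ℝ) ^ (oc k (TZ n) + if n % 2 = 1 then 1 else 0) =
        3 ^ oc k (TZ n) * (if n % 2 = 1 then 3 else 1) := by
      split_ifs
      · rw [pow_succ]
      · rw [add_zero, mul_one]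
    rw [h3]
    calc (2 : ℝ) ^ k * 2 * ((TZ^[k] (TZ n) : ℤ) : ℝ) = 2 * (2 ^ k * ((TZ^[k] (TZ n) : ℤ) : ℝ)) := by
          ring
      _ ≤ 2 * (3 ^ oc k (TZ n) * (TZ n : ℝ) * E) := by linarith
      _ = 3 ^ oc k (TZ n) * E * (2 * (TZ n : ℝ)) := by ring
      _ ≤ 3 ^ oc k (TZ n) * E * ((if n % 2 = 1 then 3 else 1) * n * Real.exp (1 / (3 * M))) :=
          mul_le_mul_of_nonneg_left h2 (by positivity)
      _ = _ := by ring

/-- the density of odd terms is below `log 2 / log 3` -/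
theorem r_log {r : ℝ} (hr1 : r < 1) (hH : 0 ≤ FF r) : r * Real.log 3 < Real.log 2 := by
  have hr : r ≤ 4905 / 8053 := by
    by_contra h
    push Not at h
    have := FF_pos_of (show (0 : ℝ) < 4905 / 8053 by norm_num) h hr1.le hH
    linarith [FF_high]
  have hl3 : 0 < Real.log 3 := Real.log_pos (by norm_num)
  have h1 : r * Real.log 3 ≤ 4905 / 8053 * Real.log 3 := mul_le_mul_of_nonneg_right hr hl3.le
  refine lt_of_le_of_lt h1 ?_
  -- `3 ^ 8 < 2 ^ 13`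
  have h2 : 8 * Real.log 3 < 13 * Real.log 2 := by
    have h3 : (3 : ℝ) ^ 8 < 2 ^ 13 := by norm_num
    have h4 := Real.log_lt_log (by positivity) h3
    rwa [Real.log_pow, Real.log_pow, Nat.cast_ofNat, Nat.cast_ofNat] at h4
  have hl2 : 0 < Real.log 2 := Real.log_pos (by norm_num)
  nlinarith

/-- sizes of the iterates of a steady trajectory -/
theorem steady_size {η r : ℝ} (hη : 0 < η) (hr1 : r < 1) (hr0 : 0 ≤ r) (hH : 0 ≤ FF r) {L : ℕ}
    (hL : 1 ≤ L) {M : ℝ} (hM : 1 ≤ M) (hMr : 1 / (3 * M) ≤ Real.log 2 - r * Real.log 3) {k : ℕ}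
    {n : ℤ} (hn : 0 < n) (hS : Sty η r L k n) :
    ((TZ^[k] n : ℤ) : ℝ) ≤ 2 * M * 3 ^ L ∨
      (2 : ℝ) ^ k * (TZ^[k] n : ℤ) ≤ (3 : ℝ) ^ oc k n * n * Real.exp (k / (3 * M)) := by
  classical
  have hM0 : 0 < M := by linarith
  have h3L : (1 : ℝ) ≤ 3 ^ L := one_le_pow₀ (by norm_num)
  by_cases hex : ∃ i ≤ k, ((TZ^[i] n : ℤ) : ℝ) < M
  · left
    obtain ⟨i, hik, hi⟩ := hex
    set t := Nat.findGreatest (fun i => ((TZ^[i] n : ℤ) : ℝ) < M) k with ht
    have h1 : ((TZ^[t] n : ℤ) : ℝ) < M := Nat.findGreatest_spec (P := fun i =>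
      ((TZ^[i] n : ℤ) : ℝ) < M) hik hi
    have htk : t ≤ k := Nat.findGreatest_le k
    have h2 : ∀ j, t < j → j ≤ k → M ≤ ((TZ^[j] n : ℤ) : ℝ) := fun j hj hjk => by
      have := Nat.findGreatest_is_greatest (P := fun i => ((TZ^[i] n : ℤ) : ℝ) < M) hj hjk
      exact not_lt.1 this
    rcases Nat.eq_or_lt_of_le htk with h | h
    · rw [← h]
      nlinarith
    · obtain ⟨c, hc⟩ := Nat.exists_eq_add_of_lt h
      set m := TZ^[t + 1] n with hm
      have hm0 : 0 < m := TZ_iter_pos hn _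
      have hmM : (m : ℝ) ≤ 2 * M := by
        have e1 : m = TZ (TZ^[t] n) := by
          rw [hm, Function.iterate_succ_apply']
        have h5' : ∀ y : ℤ, 0 < y → 2 * TZ y ≤ 3 * y + 1 := by
          intro y hy
          unfold TZ
          split_ifs <;> omega
        have h5 := h5' _ (TZ_iter_pos hn t)
        rw [← e1] at h5
        have h6 : 2 * (m : ℝ) ≤ 3 * (TZ^[t] n : ℤ) + 1 := by exact_mod_cast h5
        linarith
      have hiter : ∀ i, TZ^[i] m = TZ^[i + (t + 1)] n := fun i => by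
        rw [hm, ← Function.iterate_add_apply]
      have hk : TZ^[k] n = TZ^[c] m := by
        rw [hiter, hc]
        congr 1
        ring_nf
      have h3 := size_high hM0 c hm0 fun i hi' => by
        rw [hiter]
        exact h2 _ (by omega) (by omega)
      have h4 : (oc c m : ℝ) ≤ r * c + L := tot_le hr0 hL c m fun i hi' => by
        rw [hiter]
        exact (hS _ (by omega)).2
      rw [hk]
      have hc0 : (0 : ℝ) ≤ c := Nat.cast_nonneg c
      have hl3 : 0 < Real.log 3 := Real.log_pos (by norm_num)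
      have e3 : (3 : ℝ) ^ oc c m = Real.exp (oc c m * Real.log 3) := by
        rw [Real.exp_nat_mul, Real.exp_log (by norm_num)]
      have e2 : (2 : ℝ) ^ c = Real.exp (c * Real.log 2) := by
        rw [Real.exp_nat_mul, Real.exp_log (by norm_num)]
      have e3L : (3 : ℝ) ^ L = Real.exp (L * Real.log 3) := by
        rw [Real.exp_nat_mul, Real.exp_log (by norm_num)]
      rw [e2, e3] at h3
      rw [e3L]
      have h5 : Real.exp (oc c m * Real.log 3) * m * Real.exp (c / (3 * M)) ≤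
          Real.exp (c * Real.log 2) * (2 * M * Real.exp (L * Real.log 3)) := by
        have h6 : Real.exp (oc c m * Real.log 3) * Real.exp (c / (3 * M)) ≤
            Real.exp (c * Real.log 2) * Real.exp (L * Real.log 3) := by
          rw [← Real.exp_add, ← Real.exp_add]
          apply Real.exp_le_exp.2
          have h7 : (oc c m : ℝ) * Real.log 3 ≤ (r * c + L) * Real.log 3 :=
            mul_le_mul_of_nonneg_right h4 hl3.le
          have h8 : c * (1 / (3 * M)) ≤ c * (Real.log 2 - r * Real.log 3) :=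
            mul_le_mul_of_nonneg_left hMr hc0
          have h9 : (c : ℝ) / (3 * M) = c * (1 / (3 * M)) := by ring
          rw [h9]
          linarith
        have hm0' : (0 : ℝ) ≤ m := by exact_mod_cast hm0.le
        calc Real.exp (oc c m * Real.log 3) * m * Real.exp (c / (3 * M))
            = (Real.exp (oc c m * Real.log 3) * Real.exp (c / (3 * M))) * m := by ring
          _ ≤ (Real.exp (c * Real.log 2) * Real.exp (L * Real.log 3)) * (2 * M) :=
              mul_le_mul h6 hmM hm0' (by positivity)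
          _ = _ := by ring
      exact le_of_mul_le_mul_left (h3.trans h5) (Real.exp_pos _)
  · right
    push Not at hex
    exact size_high hM0 k hn fun i hi => hex i hi.le

end Pool.Agent.Y966.UB
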