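import Pool.Agent.Y966.UB.Path4

/-!
The tube around a path: local and global laws, with a general side condition.
-/

set_option autoImplicit false
set_option linter.unusedVariables false

namespace Pool.Agent.Y966.UB

open Finset Filter Topology Pool.Agent.H395R2.G3
open Pool.Agent.Y966.LD

/-- total loss of size along a path -/
noncomputable def dr : List (ℝ × ℝ) → ℝ
  | [] => 0
  | p :: P => p.1 * (Real.log 2 - p.2 * Real.log 3) + dr P

/-- total time -/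
noncomputable def tm : List (ℝ × ℝ) → ℝ
  | [] => 0
  | p :: P => p.1 + tm P

/-- the tube around a path -/
def Tb (δ s : ℝ) : List (ℝ × ℝ) → ℤ → Prop
  | [], _ => True
  | p :: P, n => (∀ j ≤ ⌊p.1 * s⌋₊, |(oc j n : ℝ) - p.2 * j| ≤ δ * s) ∧
      Tb δ s P (TZ^[⌊p.1 * s⌋₊] n)

theorem tm_nonneg : ∀ {P : List (ℝ × ℝ)}, (∀ p ∈ P, 0 < p.1) → 0 ≤ tm P := by
  intro P
  induction P with
  | nil => intro _; exact le_rfl
  | cons p P ih =>
    intro h
    have h1 := h p (List.mem_cons_self)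
    have h2 := ih fun q hq => h q (List.mem_cons_of_mem _ hq)
    have e : tm (p :: P) = p.1 + tm P := rfl
    rw [e]
    linarith

theorem dr_nonneg : ∀ {P : List (ℝ × ℝ)}, (∀ p ∈ P, 0 < p.1 ∧ p.2 * Real.log 3 ≤ Real.log 2) →
    0 ≤ dr P := by
  intro P
  induction P with
  | nil => intro _; exact le_rfl
  | cons p P ih =>
    intro h
    obtain ⟨h1, h1'⟩ := h p (List.mem_cons_self)
    have h2 := ih fun q hq => h q (List.mem_cons_of_mem _ hq)
    have e : dr (p :: P) = p.1 * (Real.log 2 - p.2 * Real.log 3) + dr P := rfl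
    rw [e]
    have : 0 ≤ p.1 * (Real.log 2 - p.2 * Real.log 3) := mul_nonneg h1.le (by linarith)
    linarith

theorem Tb_mono {δ δ' s : ℝ} (h : δ ≤ δ') (hs : 0 ≤ s) : ∀ (P : List (ℝ × ℝ)) (n : ℤ),
    Tb δ s P n → Tb δ' s P n := by
  intro P
  induction P with
  | nil => intro n _; trivial
  | cons p P ih =>
    rintro n ⟨h1, h2⟩
    exact ⟨fun j hj => (h1 j hj).trans (mul_le_mul_of_nonneg_right h hs), ih _ h2⟩

/-- the tube is contained in the set of the trajectories which follow the path at the ends of the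
pieces -/
theorem Fol_of_Tb {δ s : ℝ} (hs : 0 ≤ s) (h1s : 1 ≤ δ * s) : ∀ (P : List (ℝ × ℝ)),
    (∀ p ∈ P, 0 < p.1 ∧ 0 < p.2 ∧ p.2 < 1) → ∀ n : ℤ, Tb δ s P n → Fol (2 * δ) s P n := by
  intro P
  induction P with
  | nil => intro _ n _; trivial
  | cons p P ih =>
    rintro hP n ⟨h1, h2⟩
    obtain ⟨p1, p2, p3⟩ := hP p (List.mem_cons_self)
    refine ⟨?_, ih (fun q hq => hP q (List.mem_cons_of_mem _ hq)) _ h2⟩
    have h3 := h1 _ le_rfl
    set k : ℕ := ⌊p.1 * s⌋₊ with hk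
    have hk1 : (k : ℝ) ≤ p.1 * s := Nat.floor_le (by positivity)
    have hk2 : p.1 * s < k + 1 := Nat.lt_floor_add_one _
    obtain ⟨a1, a2⟩ := abs_le.1 h3
    rw [abs_le]
    constructor <;> nlinarith

/-- the logarithmic sizes in the tube -/
theorem Tb_total {δ s : ℝ} (hδ : 0 ≤ δ) (hs : 0 ≤ s) : ∀ (P : List (ℝ × ℝ)),
    (∀ p ∈ P, 0 < p.1 ∧ 0 < p.2 ∧ p.2 * Real.log 3 ≤ Real.log 2) → ∀ n : ℤ, Tb δ s P n →
    (∀ j ≤ stp s P, (j : ℝ) * Real.log 2 - oc j n * Real.log 3 ≤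
      dr P * s + P.length * (δ * s * Real.log 3 + Real.log 2)) ∧
    dr P * s - P.length * (δ * s * Real.log 3 + Real.log 2) ≤
      (stp s P : ℝ) * Real.log 2 - oc (stp s P) n * Real.log 3 ∧
    (stp s P : ℝ) ≤ tm P * s := by
  have hl2 : 0 < Real.log 2 := Real.log_pos (by norm_num)
  have hl3 : 0 < Real.log 3 := Real.log_pos (by norm_num)
  intro P
  induction P with
  | nil =>
    intro _ n _
    have e : stp s [] = 0 := rfl
    rw [e]
    refine ⟨fun j hj => ?_, ?_, ?_⟩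
    · have : j = 0 := by omega
      subst this
      simp [dr, oc_zero]
    · simp [dr, oc_zero]
    · simp [tm]
  | cons p P ih =>
    rintro hP n ⟨h1, h2⟩
    obtain ⟨p1, p2, p3⟩ := hP p (List.mem_cons_self)
    have hP' : ∀ q ∈ P, 0 < q.1 ∧ 0 < q.2 ∧ q.2 * Real.log 3 ≤ Real.log 2 :=
      fun q hq => hP q (List.mem_cons_of_mem _ hq)
    obtain ⟨g1, g2, g3⟩ := ih hP' _ h2
    have hdr : 0 ≤ dr P := dr_nonneg fun q hq => ⟨(hP' q hq).1, (hP' q hq).2.2⟩
    set k : ℕ := ⌊p.1 * s⌋₊ with hk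
    have hk1 : (k : ℝ) ≤ p.1 * s := Nat.floor_le (by positivity)
    have hk2 : p.1 * s < k + 1 := Nat.lt_floor_add_one _
    have est : stp s (p :: P) = k + stp s P := rfl
    have edr : dr (p :: P) = p.1 * (Real.log 2 - p.2 * Real.log 3) + dr P := rfl
    have etm : tm (p :: P) = p.1 + tm P := rfl
    have elen : ((p :: P).length : ℝ) = P.length + 1 := by simp
    set E : ℝ := δ * s * Real.log 3 + Real.log 2 with hE
    have hE0 : 0 ≤ E := by positivity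
    have hd : 0 ≤ Real.log 2 - p.2 * Real.log 3 := by linarith
    have hlen0 : (0 : ℝ) ≤ P.length := Nat.cast_nonneg _
    -- inside the first piece
    have key : ∀ j ≤ k, (j : ℝ) * Real.log 2 - oc j n * Real.log 3 ≤
        j * (Real.log 2 - p.2 * Real.log 3) + δ * s * Real.log 3 ∧
        j * (Real.log 2 - p.2 * Real.log 3) - δ * s * Real.log 3 ≤
        (j : ℝ) * Real.log 2 - oc j n * Real.log 3 := by
      intro j hj
      obtain ⟨a1, a2⟩ := abs_le.1 (h1 j hj)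
      have c1 := mul_le_mul_of_nonneg_right a1 hl3.le
      have c2 := mul_le_mul_of_nonneg_right a2 hl3.le
      constructor <;> linarith
    have hkd : (k : ℝ) * (Real.log 2 - p.2 * Real.log 3) ≤
        p.1 * s * (Real.log 2 - p.2 * Real.log 3) := mul_le_mul_of_nonneg_right hk1 hd
    have hkd' : p.1 * s * (Real.log 2 - p.2 * Real.log 3) - Real.log 2 ≤
        (k : ℝ) * (Real.log 2 - p.2 * Real.log 3) := by
      have h5 : (p.1 * s - 1) * (Real.log 2 - p.2 * Real.log 3) ≤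
          (k : ℝ) * (Real.log 2 - p.2 * Real.log 3) :=
        mul_le_mul_of_nonneg_right (by linarith) hd
      have h6 : 0 < p.2 * Real.log 3 := by positivity
      linarith
    rw [est, edr, etm, elen]
    refine ⟨fun j hj => ?_, ?_, ?_⟩
    · rcases Nat.lt_or_ge k j with hjk | hjk
      · obtain ⟨i, rfl⟩ := Nat.exists_eq_add_of_le hjk.le
        rw [oc_add]
        push_cast
        have h3 := (key k le_rfl).1
        have h4 := g1 i (by omega)
        have h5 : 0 < Real.log 2 := hl2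
        linarith
      · have h3 := (key j hjk).1
        have h4 : (j : ℝ) * (Real.log 2 - p.2 * Real.log 3) ≤
            k * (Real.log 2 - p.2 * Real.log 3) := by
          apply mul_le_mul_of_nonneg_right _ hd
          exact_mod_cast hjk
        have h5 : 0 ≤ dr P * s := by positivity
        have h6 : 0 ≤ (P.length : ℝ) * E := by positivity
        linarith
    · rw [oc_add]
      push_cast
      have h3 := (key k le_rfl).2
      linarith
    · push_cast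
      linarith

/-- many steady trajectories in the tube -/
theorem tube_lower {lo hi : ℝ} (hlo : 0 < lo) (hhi : hi < 1) : ∀ (P : List (ℝ × ℝ)),
    (∀ p ∈ P, 0 < p.1 ∧ lo < p.2 ∧ p.2 < hi ∧ 0 < FF p.2) → ∀ {ε : ℝ}, 0 < ε → ∀ {δ : ℝ}, 0 < δ →
    ∃ C : ℝ, 0 < C ∧ ∃ s₀ : ℝ, 0 < s₀ ∧ ∀ s : ℝ, s₀ ≤ s → ∀ x : ℤ, ¬ (3 : ℤ) ∣ x →
      ∃ G : Finset ℤ, Real.exp ((gn P - ε) * s) ≤ (G.card : ℝ) ∧
        ∀ m ∈ G, (0 < x → 0 < m) ∧ (x < 0 → m < 0) ∧ ¬ (3 : ℤ) ∣ m ∧ TZ^[stp s P] m = x ∧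
          Tb δ s P m ∧ WinR lo hi C (stp s P) m := by
  classical
  intro P
  induction P with
  | nil =>
    intro _ ε hε δ hδ
    refine ⟨1, one_pos, 1, one_pos, fun s hs x hx => ⟨{x}, ?_, ?_⟩⟩
    · rw [card_singleton, Nat.cast_one, Real.exp_le_one_iff]
      unfold gn
      nlinarith
    · intro m hm
      rw [mem_singleton] at hm
      subst hm
      refine ⟨fun h => h, fun h => h, hx, rfl, trivial, ?_⟩
      intro t t' ht
      have h1 : t + t' ≤ 0 := ht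
      have : t' = 0 := by omega
      subst this
      simp [oc_zero]
  | cons p P ih =>
    intro hP ε hε δ hδ
    obtain ⟨hp1, hp2, hp3, hp4⟩ := hP p (List.mem_cons_self)
    obtain ⟨C₁, hC₁, s₁, hs₁, h₁⟩ := ih (fun q hq => hP q (List.mem_cons_of_mem _ hq))
      (show 0 < ε / 2 by positivity) hδ
    have hr0 : 0 < p.2 := hlo.trans hp2
    have hr1 : p.2 < 1 := hp3.trans hhi
    set δ' : ℝ := min (min (p.2 - lo) (hi - p.2)) (min (δ / (2 * p.1)) (ε / (4 * p.1))) with hδ'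
    have hδ'0 : 0 < δ' := lt_min (lt_min (by linarith) (by linarith))
      (lt_min (by positivity) (by positivity))
    have d1 : δ' ≤ p.2 - lo := (min_le_left _ _).trans (min_le_left _ _)
    have d2 : δ' ≤ hi - p.2 := (min_le_left _ _).trans (min_le_right _ _)
    have d3 : δ' * (2 * p.1) ≤ δ := by
      have : δ' ≤ δ / (2 * p.1) := (min_le_right _ _).trans (min_le_left _ _)
      rwa [le_div_iff₀ (by positivity)] at this
    have d4 : δ' * (4 * p.1) ≤ ε := by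
      have : δ' ≤ ε / (4 * p.1) := (min_le_right _ _).trans (min_le_right _ _)
      rwa [le_div_iff₀ (by positivity)] at this
    obtain ⟨C₂, hC₂, h₂⟩ := piece_lower hr0 hr1 hp4 hδ'0
    refine ⟨2 * C₂ + C₁, by positivity, max s₁ (max (4 * (C₂ + 1) / ε) (4 * (C₂ + 1) / δ)),
      lt_max_of_lt_left hs₁, fun s hs x hx => ?_⟩
    have hss1 : s₁ ≤ s := (le_max_left _ _).trans hs
    have hs0 : 0 < s := lt_of_lt_of_le hs₁ hss1
    have hsa : 4 * (C₂ + 1) ≤ s * ε := by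
      have : 4 * (C₂ + 1) / ε ≤ s := (le_max_left _ _).trans ((le_max_right _ _).trans hs)
      rwa [div_le_iff₀ hε] at this
    have hsb : 4 * (C₂ + 1) ≤ s * δ := by
      have : 4 * (C₂ + 1) / δ ≤ s := (le_max_right _ _).trans ((le_max_right _ _).trans hs)
      rwa [div_le_iff₀ hδ] at this
    set k : ℕ := ⌊p.1 * s⌋₊ with hk
    have hk1 : (k : ℝ) ≤ p.1 * s := Nat.floor_le (by positivity)
    have hk2 : p.1 * s < k + 1 := Nat.lt_floor_add_one _
    obtain ⟨G₁, hG₁, hG₁'⟩ := h₁ s hss1 x hx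
    have hG : ∀ m₁ : ℤ, ∃ G : Finset ℤ, m₁ ∈ G₁ →
        (Real.exp ((FF p.2 - δ') * k - C₂) ≤ (G.card : ℝ) ∧
        ∀ m ∈ G, (0 < m₁ → 0 < m) ∧ (m₁ < 0 → m < 0) ∧ ¬ (3 : ℤ) ∣ m ∧ TZ^[k] m = m₁ ∧
          Suff p.2 δ' C₂ k m ∧ Wind p.2 δ' C₂ k m) := by
      intro m₁
      by_cases hm : m₁ ∈ G₁
      · obtain ⟨G, hG⟩ := h₂ k m₁ (hG₁' m₁ hm).2.2.1
        exact ⟨G, fun _ => hG⟩
      · exact ⟨∅, fun h => absurd h hm⟩
    choose G hG using hG
    have hdisj : Set.PairwiseDisjoint (G₁ : Set ℤ) G := by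
      intro a ha b hb hab
      rw [Function.onFun, disjoint_left]
      intro m hma hmb
      apply hab
      rw [← ((hG a ha).2 m hma).2.2.2.1, ← ((hG b hb).2 m hmb).2.2.2.1]
    refine ⟨G₁.biUnion G, ?_, ?_⟩
    · rw [card_biUnion hdisj]
      push_cast
      have e1 : (G₁.card : ℝ) * Real.exp ((FF p.2 - δ') * k - C₂) ≤ ∑ m₁ ∈ G₁, ((G m₁).card : ℝ) := by
        rw [← nsmul_eq_mul, ← sum_const]
        exact sum_le_sum fun m₁ hm => (hG m₁ hm).1
      refine le_trans ?_ e1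
      have e2 : Real.exp ((gn (p :: P) - ε) * s) ≤
          Real.exp ((gn P - ε / 2) * s) * Real.exp ((FF p.2 - δ') * k - C₂) := by
        rw [← Real.exp_add]
        apply Real.exp_le_exp.2
        have e3 : gn (p :: P) = p.1 * FF p.2 + gn P := rfl
        rw [e3]
        have hF1 : FF p.2 < 1 := FF_lt_one hr0
        have e4 : FF p.2 * (p.1 * s) - FF p.2 ≤ FF p.2 * k := by nlinarith
        have e5 : δ' * k ≤ δ' * (p.1 * s) := mul_le_mul_of_nonneg_left hk1 hδ'0.le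
        nlinarith
      exact e2.trans (mul_le_mul_of_nonneg_right hG₁ (Real.exp_pos _).le)
    · intro m hm
      obtain ⟨m₁, hm₁, hmG⟩ := mem_biUnion.1 hm
      obtain ⟨f1, f2, f3, f4, f5, f6⟩ := hG₁' m₁ hm₁
      obtain ⟨g1, g2, g3, g4, g5, g6⟩ := (hG m₁ hm₁).2 m hmG
      have est : stp s (p :: P) = k + stp s P := rfl
      refine ⟨fun h => g1 (f1 h), fun h => g2 (f2 h), g3, ?_, ⟨?_, ?_⟩, ?_⟩
      · rw [est, add_comm, Function.iterate_add_apply, g4, f4]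
      · intro j hj
        rw [← hk] at hj
        have h3 := g6 0 j (by omega)
        rw [Function.iterate_zero, id] at h3
        refine h3.trans ?_
        have hj' : (j : ℝ) ≤ k := by exact_mod_cast hj
        have e3 : δ' * (j : ℝ) ≤ δ' * (p.1 * s) :=
          mul_le_mul_of_nonneg_left (hj'.trans hk1) hδ'0.le
        nlinarith
      · rw [← hk, g4]
        exact f5
      · -- windows
        intro t t' ht
        rw [est] at ht
        have key : ∀ u v : ℕ, u + v ≤ k → lo * v - 2 * C₂ ≤ (oc v (TZ^[u] m) : ℝ) ∧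
            (oc v (TZ^[u] m) : ℝ) ≤ hi * v + 2 * C₂ := by
          intro u v huv
          have h3 := abs_le.1 (g6 u v huv)
          have hv : (0 : ℝ) ≤ v := Nat.cast_nonneg v
          have h4 : δ' * v ≤ (p.2 - lo) * v := mul_le_mul_of_nonneg_right d1 hv
          have h5 : δ' * v ≤ (hi - p.2) * v := mul_le_mul_of_nonneg_right d2 hv
          constructor <;> linarith [h3.1, h3.2]
        rcases Nat.lt_or_ge k (t + t') with h | h
        · rcases Nat.lt_or_ge t k with h' | h'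
          · obtain ⟨u, rfl⟩ : ∃ u, t' = (k - t) + u := ⟨t' - (k - t), by omega⟩
            have e1 : oc ((k - t) + u) (TZ^[t] m) = oc (k - t) (TZ^[t] m) + oc u m₁ := by
              rw [oc_add, ← Function.iterate_add_apply]
              have : k - t + t = k := by omega
              rw [this, g4]
            rw [e1]
            have h3 := key t (k - t) (by omega)
            have h4 := f6 0 u (by omega)
            rw [Function.iterate_zero, id] at h4
            push_cast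
            constructor <;> nlinarith [h3.1, h3.2, h4.1, h4.2]
          · obtain ⟨u, rfl⟩ := Nat.exists_eq_add_of_le' h'
            rw [Function.iterate_add_apply, g4]
            have h4 := f6 u t' (by omega)
            constructor <;> linarith [h4.1, h4.2]
        · have h3 := key t t' h
          constructor <;> linarith [h3.1, h3.2]

/-- the starting points in the tube with the target `a` -/
def TT (Q : ℕ → ℤ → Prop) (δ s : ℝ) (P : List (ℝ × ℝ)) (a : ℤ) : Set ℤ :=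
  {n : ℤ | TZ^[stp s P] n = a ∧ Tb δ s P n ∧ Q (stp s P) n}

/-- upper bounds -/
def Upp (Q : ℕ → ℤ → Prop) (δ ε : ℝ) (P : List (ℝ × ℝ)) : Prop :=
  ∃ C : ℝ, 0 < C ∧ ∀ s : ℝ, 0 ≤ s → ∀ a : ℤ, (PP Q δ s P a).Finite ∧
    ((PP Q δ s P a).ncard : ℝ) ≤ C * Real.exp ((gn P + ε) * s)

/-- lower bounds -/
def Low (Q : ℕ → ℤ → Prop) (δ ε : ℝ) (P : List (ℝ × ℝ)) : Prop :=
  ∃ s₀ : ℝ, 0 < s₀ ∧ ∀ s : ℝ, s₀ ≤ s → ∀ a : ℤ, ¬ (3 : ℤ) ∣ a →
    ∃ G : Finset ℤ, Real.exp ((gn P - ε) * s) ≤ (G.card : ℝ) ∧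
      ∀ m ∈ G, (0 < a → 0 < m) ∧ (a < 0 → m < 0) ∧ m ∈ TT Q δ s P a

theorem low_steady {η r : ℝ} (hη : 0 < η) (hr1 : r < 1) (hH : 0 ≤ FF r) (P : List (ℝ × ℝ))
    (hP : ∀ p ∈ P, 0 < p.1 ∧ η < p.2 ∧ p.2 < r) {ε : ℝ} (hε : 0 < ε) {δ : ℝ} (hδ : 0 < δ) :
    ∃ L₀ : ℕ, ∀ L : ℕ, L₀ ≤ L → Low (Sty η r L) δ ε P := by
  obtain ⟨lo, hlo1, hlo2⟩ := list_lo P fun p hp => (hP p hp).2.1
  obtain ⟨hi, hhi1, hhi2⟩ := list_hi P fun p hp => (hP p hp).2.2
  obtain ⟨C, hC, s₀, hs₀, h⟩ := tube_lower (lo := lo) (hi := hi) (hη.trans hlo1)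
    (hhi1.trans hr1) P (fun p hp => ⟨(hP p hp).1, hlo2 p hp, hhi2 p hp,
      FF_pos_of (hη.trans (hP p hp).2.1) (hP p hp).2.2 hr1.le hH⟩) hε hδ
  obtain ⟨L₀, hL₀⟩ := exists_nat_ge (max (C / (lo - η)) (C / (r - hi)))
  refine ⟨L₀, fun L hL => ⟨s₀, hs₀, fun s hs a ha => ?_⟩⟩
  obtain ⟨G, hG1, hG2⟩ := h s hs a ha
  refine ⟨G, hG1, fun m hm => ?_⟩
  obtain ⟨g1, g2, g3, g4, g5, g6⟩ := hG2 m hm
  refine ⟨g1, g2, g4, g5, fun i hi' => ?_⟩
  have hLr : (L₀ : ℝ) ≤ L := by exact_mod_cast hL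
  have h1 : C / (lo - η) ≤ L := (le_max_left _ _).trans (hL₀.trans hLr)
  have h2 : C / (r - hi) ≤ L := (le_max_right _ _).trans (hL₀.trans hLr)
  rw [div_le_iff₀ (by linarith)] at h1 h2
  obtain ⟨w1, w2⟩ := g6 i L hi'
  constructor <;> nlinarith

theorem FF_third : 0 < FF (1 / 3) :=
  FF_pos_of (show (0 : ℝ) < 1 / 3 by norm_num) (show (1 : ℝ) / 3 < 4771 / 7833 by norm_num)
    (by norm_num) FF_low.le

theorem low_all (P : List (ℝ × ℝ)) (hP : ∀ p ∈ P, 0 < p.1 ∧ 0 < p.2 ∧ p.2 ≤ 1 / 3) {ε : ℝ}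
    (hε : 0 < ε) {δ : ℝ} (hδ : 0 < δ) : Low (fun _ _ => True) δ ε P := by
  obtain ⟨lo, hlo1, hlo2⟩ := list_lo P fun p hp => (hP p hp).2.1
  have hhalf : 0 ≤ FF (1 / 2) := by
    have h2 : (1 : ℝ) / 2 < 4771 / 7833 := by norm_num
    exact (FF_pos_of (show (0 : ℝ) < 1 / 2 by norm_num) h2 (by norm_num) FF_low.le).le
  obtain ⟨L₀, h⟩ := low_steady (η := lo) (r := 1 / 2) hlo1 (by norm_num) hhalf P
    (fun p hp => ⟨(hP p hp).1, hlo2 p hp, lt_of_le_of_lt (hP p hp).2.2 (by norm_num)⟩) hε hδ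
  obtain ⟨s₀, hs₀, h1⟩ := h L₀ le_rfl
  refine ⟨s₀, hs₀, fun s hs a ha => ?_⟩
  obtain ⟨G, hG1, hG2⟩ := h1 s hs a ha
  refine ⟨G, hG1, fun m hm => ?_⟩
  obtain ⟨g1, g2, g3, g4, _⟩ := hG2 m hm
  exact ⟨g1, g2, g3, g4, trivial⟩

/-- LOCAL LAW -/
theorem local_gen {Q : ℕ → ℤ → Prop} {P : List (ℝ × ℝ)}
    (hP : ∀ p ∈ P, 0 < p.1 ∧ 0 < p.2 ∧ p.2 < 1) {δ ε : ℝ} (hδ : 0 < δ) (hε : 0 < ε)
    (hU : Upp Q (2 * δ) (ε / 2) P) (hL : Low Q δ ε P) :
    ∃ s₀ : ℝ, 0 < s₀ ∧ ∀ s : ℝ, s₀ ≤ s → ∀ a : ℤ, (TT Q δ s P a).Finite ∧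
        ((TT Q δ s P a).ncard : ℝ) ≤ Real.exp ((gn P + ε) * s) ∧
        (¬ (3 : ℤ) ∣ a → ∃ G : Finset ℤ, Real.exp ((gn P - ε) * s) ≤ (G.card : ℝ) ∧
          ∀ m ∈ G, (0 < a → 0 < m) ∧ (a < 0 → m < 0) ∧ m ∈ TT Q δ s P a) := by
  obtain ⟨C, hC, hu⟩ := hU
  obtain ⟨s₂, hs₂, hl⟩ := hL
  obtain ⟨s₁, hs₁, hab⟩ := absorb hC (show 0 < ε / 2 by positivity)
  refine ⟨max (max s₁ s₂) (1 / δ), lt_max_of_lt_left (lt_max_of_lt_left hs₁), fun s hs a => ?_⟩
  have hs1 : s₁ ≤ s := (le_max_left _ _).trans ((le_max_left _ _).trans hs)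
  have hs2 : s₂ ≤ s := (le_max_right _ _).trans ((le_max_left _ _).trans hs)
  have hs3 : 1 ≤ δ * s := by
    have : 1 / δ ≤ s := (le_max_right _ _).trans hs
    rw [div_le_iff₀ hδ] at this
    linarith
  have hs0 : 0 ≤ s := hs₁.le.trans hs1
  obtain ⟨f1, f2⟩ := hu s hs0 a
  have hsub : TT Q δ s P a ⊆ PP Q (2 * δ) s P a := by
    rintro n ⟨h1, h2, h3⟩
    exact ⟨h1, Fol_of_Tb hs0 hs3 P hP n h2, h3⟩
  refine ⟨f1.subset hsub, ?_, fun ha => hl s hs2 a ha⟩
  have h1 : ((TT Q δ s P a).ncard : ℝ) ≤ ((PP Q (2 * δ) s P a).ncard : ℝ) := by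
    exact_mod_cast Set.ncard_le_ncard hsub f1
  refine h1.trans (f2.trans ?_)
  calc C * Real.exp ((gn P + ε / 2) * s) ≤
      Real.exp (ε / 2 * s) * Real.exp ((gn P + ε / 2) * s) :=
        mul_le_mul_of_nonneg_right (hab s hs1) (Real.exp_pos _).le
    _ = Real.exp ((gn P + ε) * s) := by
        rw [← Real.exp_add]
        congr 1
        ring

end Pool.Agent.Y966.UB
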