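import Pool.Agent.Y966.UB.Path5

/-!
The global law in the tube around a path.
-/

set_option autoImplicit false
set_option linter.unusedVariables false

namespace Pool.Agent.Y966.UB

open Finset Filter Topology Pool.Agent.H395R2.G3
open Pool.Agent.Y966.LD

/-- starting points of size `e^s` in the tube -/
def GT (Q : ℕ → ℤ → Prop) (δ s : ℝ) (P : List (ℝ × ℝ)) : Set ℤ :=
  {n : ℤ | 1 ≤ n ∧ Real.exp ((1 - δ) * s) ≤ (n : ℝ) ∧ (n : ℝ) ≤ Real.exp s ∧ Tb δ s P n ∧
    Q (stp s P) n}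

theorem GT_finite (Q : ℕ → ℤ → Prop) (δ s : ℝ) (P : List (ℝ × ℝ)) : (GT Q δ s P).Finite := by
  apply (Set.finite_Icc (1 : ℤ) ⌊Real.exp s⌋).subset
  rintro n ⟨h1, _, h2, _⟩
  exact ⟨h1, Int.le_floor.2 h2⟩

/-- numbers prime to `3` near `Y` -/
theorem many_prime (Y : ℝ) (hY : 12 ≤ Y) : ∃ F : Finset ℤ, Y / 12 ≤ (F.card : ℝ) ∧
    ∀ a ∈ F, Y / 12 ≤ (a : ℝ) ∧ (a : ℝ) ≤ Y ∧ ¬ (3 : ℤ) ∣ a := by
  classical
  set J : ℕ := ⌊Y / 6⌋₊ with hJ
  have hJ1 : (J : ℝ) ≤ Y / 6 := Nat.floor_le (by linarith)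
  have hJ2 : Y / 6 < J + 1 := Nat.lt_floor_add_one _
  have hJ3 : 1 ≤ J := by
    have : (1 : ℝ) < J + 1 := by linarith
    have h2 : 0 < (J : ℝ) := by linarith
    exact_mod_cast h2
  refine ⟨(range J).image (fun j : ℕ => 3 * ((j : ℤ) + J) + 1), ?_, ?_⟩
  · rw [card_image_of_injective _ (fun i j h => by simpa using h), card_range]
    linarith
  · intro a ha
    obtain ⟨j, hj, rfl⟩ := mem_image.1 ha
    rw [mem_range] at hj
    have h1 : (j : ℝ) + 1 ≤ J := by exact_mod_cast hj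
    have h2 : (0 : ℝ) ≤ j := Nat.cast_nonneg j
    refine ⟨?_, ?_, by omega⟩
    · push_cast
      linarith
    · push_cast
      linarith

/-- GLOBAL LAW, upper bound -/
theorem global_upper {Q : ℕ → ℤ → Prop} {P : List (ℝ × ℝ)}
    (hP : ∀ p ∈ P, 0 < p.1 ∧ 0 < p.2 ∧ p.2 < 1 ∧ p.2 * Real.log 3 ≤ Real.log 2)
    (hdr : dr P < 1) {ε : ℝ} (hε : 0 < ε) {δ : ℝ} (hδ : 0 < δ)
    (hδ1 : δ * (8 * ((P.length : ℝ) + 1)) ≤ min (ε / 4) (1 - dr P))
    (hU : Upp Q (2 * δ) (ε / 4) P) :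
    ∃ s₀ : ℝ, 0 < s₀ ∧ ∀ s : ℝ, s₀ ≤ s →
      ((GT Q δ s P).ncard : ℝ) ≤ Real.exp ((1 - dr P + gn P + ε) * s) := by
  classical
  have hl2 : 0 < Real.log 2 := Real.log_pos (by norm_num)
  have hl3 : 0 < Real.log 3 := Real.log_pos (by norm_num)
  have hl3' : Real.log 3 < 2 := by
    have := Real.log_three_lt_d9
    linarith
  have hP1 : ∀ p ∈ P, 0 < p.1 := fun p hp => (hP p hp).1
  have hP2 : ∀ p ∈ P, 0 < p.1 ∧ 0 < p.2 ∧ p.2 * Real.log 3 ≤ Real.log 2 :=
    fun p hp => ⟨(hP p hp).1, (hP p hp).2.1, (hP p hp).2.2.2⟩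
  have hP3 : ∀ p ∈ P, 0 < p.1 ∧ 0 < p.2 ∧ p.2 < 1 :=
    fun p hp => ⟨(hP p hp).1, (hP p hp).2.1, (hP p hp).2.2.1⟩
  have htm := tm_nonneg hP1
  set θ : ℝ := 1 - dr P with hθ
  have hθ0 : 0 < θ := by linarith
  set l : ℝ := (P.length : ℝ) with hl
  have hl0 : 0 ≤ l := Nat.cast_nonneg _
  have hδa : δ * (8 * (l + 1)) ≤ ε / 4 := hδ1.trans (min_le_left _ _)
  have hδb : δ * (8 * (l + 1)) ≤ θ := hδ1.trans (min_le_right _ _)
  obtain ⟨C, hC, hu⟩ := hU
  obtain ⟨s₁, hs₁, hab1⟩ := absorb hC (show 0 < ε / 4 by positivity)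
  obtain ⟨s₂, hs₂, hab2⟩ := absorb (show 0 < tm P * (4 / θ) + 1 by positivity)
    (show 0 < θ / 4 by positivity)
  obtain ⟨s₃, hs₃, hab3⟩ := absorb (show 0 < Real.exp (l * Real.log 2 + 1) by positivity)
    (show 0 < min (ε / 16) (θ / 8) by positivity)
  refine ⟨max (max s₁ s₂) (max s₃ (1 / δ)), lt_max_of_lt_left (lt_max_of_lt_left hs₁),
    fun s hs => ?_⟩
  have hs1 : s₁ ≤ s := (le_max_left _ _).trans ((le_max_left _ _).trans hs)
  have hs2 : s₂ ≤ s := (le_max_right _ _).trans ((le_max_left _ _).trans hs)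
  have hs3 : s₃ ≤ s := (le_max_left _ _).trans ((le_max_right _ _).trans hs)
  have hs4 : 1 ≤ δ * s := by
    have : 1 / δ ≤ s := (le_max_right _ _).trans ((le_max_right _ _).trans hs)
    rw [div_le_iff₀ hδ] at this
    linarith
  have hs0 : 0 < s := hs₁.trans_le hs1
  have hc1 : l * Real.log 2 + 1 ≤ min (ε / 16) (θ / 8) * s := by
    have := hab3 s hs3
    rwa [Real.exp_le_exp] at this
  have hc2 : l * Real.log 2 + 1 ≤ ε / 16 * s :=
    hc1.trans (mul_le_mul_of_nonneg_right (min_le_left _ _) hs0.le)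
  have hc3 : l * Real.log 2 + 1 ≤ θ / 8 * s :=
    hc1.trans (mul_le_mul_of_nonneg_right (min_le_right _ _) hs0.le)
  -- `tm P * s ≤ exp (θ s / 2)`
  have htms : tm P * s ≤ Real.exp (θ / 2 * s) := by
    have h1 := Real.add_one_le_exp (θ / 4 * s)
    have h2 := hab2 s hs2
    have h3 : Real.exp (θ / 2 * s) = Real.exp (θ / 4 * s) * Real.exp (θ / 4 * s) := by
      rw [← Real.exp_add]
      congr 1
      ring
    rw [h3]
    have h4 : tm P * s ≤ (tm P * (4 / θ) + 1) * (θ / 4 * s) := by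
      have h5 : (tm P * (4 / θ) + 1) * (θ / 4 * s) = tm P * s + θ / 4 * s := by
        field_simp
      rw [h5]
      have : 0 ≤ θ / 4 * s := by positivity
      linarith
    refine h4.trans (mul_le_mul h2 (by linarith) (by positivity) (Real.exp_pos _).le)
  set Y : ℝ := Real.exp ((θ + ε / 4) * s) with hY
  have hY0 : 0 < Y := Real.exp_pos _
  set F : Finset ℤ := Finset.Icc 1 ⌊Y⌋ with hF
  have hFc : (F.card : ℝ) ≤ Y := by
    rw [hF, Int.card_Icc]
    have h1 : ((⌊Y⌋ + 1 - 1).toNat : ℤ) = ⌊Y⌋ := by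
      rw [add_sub_cancel_right]
      exact Int.toNat_of_nonneg (Int.floor_nonneg.2 hY0.le)
    have h2 : (((⌊Y⌋ + 1 - 1).toNat : ℕ) : ℝ) = (⌊Y⌋ : ℤ) := by exact_mod_cast h1
    rw [h2]
    exact Int.floor_le Y
  obtain ⟨g1, g2⟩ := ncard_bU F (fun a => PP Q (2 * δ) s P a) (fun a _ => (hu s hs0.le a).1)
    (GT Q δ s P) (by
      rintro n ⟨hn1, hn2, hn3, hn4, hn5⟩
      have hn0 : 0 < n := by omega
      have hnr : (0 : ℝ) < n := by exact_mod_cast hn0
      have ha0 := TZ_iter_pos hn0 (stp s P)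
      have hnl : (1 - δ) * s ≤ Real.log n := by
        rw [Real.le_log_iff_exp_le hnr]
        exact hn2
      have hnu : Real.log n ≤ s := by
        rw [Real.log_le_iff_le_exp hnr]
        exact hn3
      obtain ⟨t1, t2, t3⟩ := Tb_total hδ.le hs0.le P hP2 n hn4
      -- the terms are large
      have hbig : ∀ j < stp s P, Real.exp (θ / 2 * s) ≤ ((TZ^[j] n : ℤ) : ℝ) := by
        intro j hj
        have h1 := size_low hn0 j
        have h2 := t1 j hj.le
        have hjr : (0 : ℝ) < ((TZ^[j] n : ℤ) : ℝ) := by exact_mod_cast TZ_iter_pos hn0 j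
        have h4 := Real.log_le_log (by positivity) h1
        rw [Real.log_mul (by positivity) hnr.ne', Real.log_mul (by positivity) hjr.ne',
          Real.log_pow, Real.log_pow] at h4
        rw [← Real.le_log_iff_exp_le hjr]
        have h5 : l * (δ * s * Real.log 3 + Real.log 2) ≤ l * (δ * s * 2) + l * Real.log 2 := by
          have : δ * s * Real.log 3 ≤ δ * s * 2 :=
            mul_le_mul_of_nonneg_left hl3'.le (by positivity)
          nlinarith
        have h6 : δ * (8 * (l + 1)) * s ≤ θ * s := mul_le_mul_of_nonneg_right hδb hs0.le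
        have h7 : 0 ≤ δ * s := by positivity
        have h8 : dr P * s = s - θ * s := by rw [hθ]; ring
        nlinarith
      have h1 := size_high (Real.exp_pos (θ / 2 * s)) (stp s P) hn0 hbig
      refine ⟨TZ^[stp s P] n, ?_, rfl, Fol_of_Tb hs0.le hs4 P hP3 n hn4, hn5⟩
      rw [hF, Finset.mem_Icc]
      refine ⟨by omega, Int.le_floor.2 ?_⟩
      have har : (0 : ℝ) < ((TZ^[stp s P] n : ℤ) : ℝ) := by exact_mod_cast ha0
      have h4 := Real.log_le_log (by positivity) h1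
      rw [Real.log_mul (by positivity) har.ne', Real.log_mul (by positivity)
        (Real.exp_pos _).ne', Real.log_mul (by positivity) hnr.ne', Real.log_exp,
        Real.log_pow, Real.log_pow] at h4
      have h7 : (stp s P : ℝ) / (3 * Real.exp (θ / 2 * s)) ≤ 1 := by
        rw [div_le_one (by positivity)]
        have : 0 < Real.exp (θ / 2 * s) := Real.exp_pos _
        linarith
      rw [hY, ← Real.log_le_iff_le_exp har]
      have h5 : l * (δ * s * Real.log 3 + Real.log 2) ≤ l * (δ * s * 2) + l * Real.log 2 := by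
        have : δ * s * Real.log 3 ≤ δ * s * 2 :=
          mul_le_mul_of_nonneg_left hl3'.le (by positivity)
        nlinarith
      have h6 : δ * (8 * (l + 1)) * s ≤ ε / 4 * s := mul_le_mul_of_nonneg_right hδa hs0.le
      have h8 : dr P * s = s - θ * s := by rw [hθ]; ring
      have h9 : 0 ≤ δ * s := by positivity
      nlinarith)
  have g3 : ((GT Q δ s P).ncard : ℝ) ≤
      ∑ a ∈ F, ((PP Q (2 * δ) s P a).ncard : ℝ) := by exact_mod_cast g2
  refine g3.trans ((sum_le_sum fun a _ => (hu s hs0.le a).2).trans ?_)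
  rw [sum_const, nsmul_eq_mul]
  calc (F.card : ℝ) * (C * Real.exp ((gn P + ε / 4) * s))
      ≤ Y * (Real.exp (ε / 4 * s) * Real.exp ((gn P + ε / 4) * s)) := by
        apply mul_le_mul hFc _ (by positivity) hY0.le
        exact mul_le_mul_of_nonneg_right (hab1 s hs1) (Real.exp_pos _).le
    _ ≤ Real.exp ((θ + gn P + ε) * s) := by
        rw [hY, ← Real.exp_add, ← Real.exp_add]
        apply Real.exp_le_exp.2
        have : 0 ≤ ε / 4 * s := by positivity
        nlinarith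

/-- GLOBAL LAW, lower bound -/
theorem global_lower {Q : ℕ → ℤ → Prop} {η' r' : ℝ} {L' : ℕ} (hη' : 0 < η') (hr0' : 0 ≤ r')
    (hr1' : r' < 1) (hH' : 0 ≤ FF r') (hL' : 1 ≤ L') (hQ : ∀ k n, Sty η' r' L' k n → Q k n)
    {P : List (ℝ × ℝ)} (hP : ∀ p ∈ P, 0 < p.1 ∧ 0 < p.2 ∧ p.2 * Real.log 3 ≤ Real.log 2)
    (hdr : dr P < 1) {ε : ℝ} (hε : 0 < ε) {δ δ' : ℝ} (hδ : 0 < δ) (hδ' : 0 < δ')
    (hδ1 : δ' * (16 * ((P.length : ℝ) + 1)) ≤ min (min (δ / 4) (ε / 8)) ((1 - dr P) / 2))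
    (hL : Low (Sty η' r' L') δ' (ε / 8) P) :
    ∃ s₀ : ℝ, 0 < s₀ ∧ ∀ s : ℝ, s₀ ≤ s →
      Real.exp ((1 - dr P + gn P - ε) * s) ≤ ((GT Q δ s P).ncard : ℝ) := by
  classical
  have hl2 : 0 < Real.log 2 := Real.log_pos (by norm_num)
  have hl3 : 0 < Real.log 3 := Real.log_pos (by norm_num)
  have hl3' : Real.log 3 < 2 := by
    have := Real.log_three_lt_d9
    linarith
  have hP1 : ∀ p ∈ P, 0 < p.1 := fun p hp => (hP p hp).1
  have htm := tm_nonneg hP1
  set θ : ℝ := 1 - dr P with hθ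
  have hθ0 : 0 < θ := by linarith
  set l : ℝ := (P.length : ℝ) with hl
  have hl0 : 0 ≤ l := Nat.cast_nonneg _
  set κ : ℝ := min (min (δ / 4) (ε / 8)) (θ / 2) with hκ
  have hκ0 : 0 < κ := lt_min (lt_min (by positivity) (by positivity)) (by positivity)
  have hκ1 : κ ≤ δ / 4 := (min_le_left _ _).trans (min_le_left _ _)
  have hκ2 : κ ≤ ε / 8 := (min_le_left _ _).trans (min_le_right _ _)
  have hκ3 : κ ≤ θ / 2 := min_le_right _ _
  obtain ⟨s₁, hs₁, hl₁⟩ := hL
  -- the size parameter `M`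
  have hrl := r_log hr1' hH'
  set M : ℝ := max 1 (max (1 / (Real.log 2 - r' * Real.log 3)) (4 * tm P / δ)) with hM
  have hM1 : 1 ≤ M := le_max_left _ _
  have hM0 : 0 < M := by linarith
  have hM2 : 1 / (3 * M) ≤ Real.log 2 - r' * Real.log 3 := by
    have h1 : 1 / (Real.log 2 - r' * Real.log 3) ≤ M := (le_max_left _ _).trans (le_max_right _ _)
    rw [div_le_iff₀ (by linarith)] at h1
    rw [div_le_iff₀ (by positivity)]
    nlinarith
  have hM3 : tm P / (3 * M) ≤ δ / 4 := by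
    have h1 : 4 * tm P / δ ≤ M := (le_max_right _ _).trans (le_max_right _ _)
    rw [div_le_iff₀ hδ] at h1
    rw [div_le_iff₀ (by positivity)]
    nlinarith
  obtain ⟨s₂, hs₂, hab2⟩ := absorb (show 0 < 24 * M * 3 ^ L' + 12 by positivity)
    (show 0 < θ - κ by linarith)
  obtain ⟨s₃, hs₃, hab3⟩ := absorb (show 0 < Real.exp (l * Real.log 2 + Real.log 12) by positivity)
    (show 0 < κ / 2 by positivity)
  refine ⟨max s₁ (max s₂ (max s₃ 1)), lt_max_of_lt_left hs₁, fun s hs => ?_⟩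
  have hs1 : s₁ ≤ s := (le_max_left _ _).trans hs
  have hs2 : s₂ ≤ s := (le_max_left _ _).trans ((le_max_right _ _).trans hs)
  have hs3 : s₃ ≤ s := (le_max_left _ _).trans ((le_max_right _ _).trans
    ((le_max_right _ _).trans hs))
  have hs0 : 0 < s := hs₁.trans_le hs1
  have hc1 : l * Real.log 2 + Real.log 12 ≤ κ / 2 * s := by
    have := hab3 s hs3
    rwa [Real.exp_le_exp] at this
  have hl12 : 0 < Real.log 12 := Real.log_pos (by norm_num)
  have hc0 : 0 ≤ l * Real.log 2 := by positivity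
  set Y : ℝ := Real.exp ((θ - κ) * s) with hY
  have hY12 : 24 * M * 3 ^ L' + 12 ≤ Y := hab2 s hs2
  have hMp : 0 < M * 3 ^ L' := by positivity
  have hY1 : 12 ≤ Y := by linarith
  obtain ⟨F, hF1, hF2⟩ := many_prime Y hY1
  have hG : ∀ a : ℤ, ∃ G : Finset ℤ, a ∈ F → (Real.exp ((gn P - ε / 8) * s) ≤ (G.card : ℝ) ∧
      ∀ m ∈ G, (0 < a → 0 < m) ∧ (a < 0 → m < 0) ∧ m ∈ TT (Sty η' r' L') δ' s P a) := by
    intro a
    by_cases ha : a ∈ F
    · obtain ⟨G, hG⟩ := hl₁ s hs1 a (hF2 a ha).2.2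
      exact ⟨G, fun _ => hG⟩
    · exact ⟨∅, fun h => absurd h ha⟩
  choose G hG using hG
  have hdisj : Set.PairwiseDisjoint (F : Set ℤ) G := by
    intro a ha b hb hab
    rw [Function.onFun, disjoint_left]
    intro m hma hmb
    apply hab
    rw [← ((hG a ha).2 m hma).2.2.1, ← ((hG b hb).2 m hmb).2.2.1]
  have hδδ : δ' ≤ δ := by
    have : δ' * (16 * (l + 1)) ≤ κ := hδ1
    nlinarith
  have hsub : ((F.biUnion G : Finset ℤ) : Set ℤ) ⊆ GT Q δ s P := by
    intro m hm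
    rw [mem_coe, mem_biUnion] at hm
    obtain ⟨a, ha, hmG⟩ := hm
    obtain ⟨g1, _, g2, g3, g4⟩ := (hG a ha).2 m hmG
    obtain ⟨a1, a2, _⟩ := hF2 a ha
    have har : (0 : ℝ) < a := by linarith
    have ha0 : 0 < a := by exact_mod_cast har
    have hm0 : 0 < m := g1 ha0
    have hmr : (0 : ℝ) < m := by exact_mod_cast hm0
    obtain ⟨t1, t2, t3⟩ := Tb_total hδ'.le hs0.le P hP m g3
    have ht1 := t1 _ le_rfl
    have h1 := size_low hm0 (stp s P)
    rw [g2] at h1
    have h4 := Real.log_le_log (by positivity) h1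
    rw [Real.log_mul (by positivity) hmr.ne', Real.log_mul (by positivity) har.ne',
      Real.log_pow, Real.log_pow] at h4
    have h5 : Real.log a ≤ (θ - κ) * s := by
      rw [Real.log_le_iff_le_exp har]
      exact a2
    have h5' : (θ - κ) * s - Real.log 12 ≤ Real.log a := by
      have : Real.log (Y / 12) = (θ - κ) * s - Real.log 12 := by
        rw [hY, Real.log_div (Real.exp_pos _).ne' (by norm_num), Real.log_exp]
      rw [← this]
      exact Real.log_le_log (by positivity) a1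
    have h6 : l * (δ' * s * Real.log 3 + Real.log 2) ≤ κ / 4 * s + l * Real.log 2 := by
      have h7 : δ' * s * Real.log 3 ≤ δ' * s * 2 :=
        mul_le_mul_of_nonneg_left hl3'.le (by positivity)
      have h8 : δ' * (16 * (l + 1)) * s ≤ κ * s := mul_le_mul_of_nonneg_right hδ1 hs0.le
      have h9 : 0 ≤ δ' * s := by positivity
      nlinarith
    have h8 : dr P * s = s - θ * s := by rw [hθ]; ring
    refine ⟨by omega, ?_, ?_, Tb_mono hδδ hs0.le P m g3, hQ _ _ g4⟩
    · rw [← Real.le_log_iff_exp_le hmr]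
      rcases steady_size hη' hr1' hr0' hH' hL' hM1 hM2 hm0 g4 with h | h
      · exfalso
        rw [g2] at h
        linarith
      · rw [g2] at h
        have h10 := Real.log_le_log (by positivity) h
        rw [Real.log_mul (by positivity) har.ne', Real.log_mul (by positivity)
          (Real.exp_pos _).ne', Real.log_mul (by positivity) hmr.ne', Real.log_exp,
          Real.log_pow, Real.log_pow] at h10
        have h7 : (stp s P : ℝ) / (3 * M) ≤ δ / 4 * s := by
          have h8 : (stp s P : ℝ) / (3 * M) ≤ tm P * s / (3 * M) :=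
            div_le_div_of_nonneg_right t3 (by positivity)
          have h9 : tm P * s / (3 * M) = tm P / (3 * M) * s := by ring
          rw [h9] at h8
          exact h8.trans (mul_le_mul_of_nonneg_right hM3 hs0.le)
        have h11 : κ * s ≤ δ / 4 * s := mul_le_mul_of_nonneg_right hκ1 hs0.le
        nlinarith
    · rw [← Real.log_le_iff_le_exp hmr]
      nlinarith
  have h7 := Set.ncard_le_ncard hsub (GT_finite Q δ s P)
  rw [Set.ncard_coe_finset, card_biUnion hdisj] at h7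
  have h8 : (∑ a ∈ F, ((G a).card : ℝ)) ≤ ((GT Q δ s P).ncard : ℝ) := by exact_mod_cast h7
  refine le_trans ?_ h8
  have h9 : (F.card : ℝ) * Real.exp ((gn P - ε / 8) * s) ≤ ∑ a ∈ F, ((G a).card : ℝ) := by
    rw [← nsmul_eq_mul, ← sum_const]
    exact sum_le_sum fun a ha => (hG a ha).1
  refine le_trans ?_ h9
  have h11 : Y / 12 * Real.exp ((gn P - ε / 8) * s) ≤ (F.card : ℝ) * Real.exp ((gn P - ε / 8) * s) :=
    mul_le_mul_of_nonneg_right hF1 (Real.exp_pos _).le
  refine le_trans ?_ h11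
  have h12 : Y / 12 = Real.exp ((θ - κ) * s - Real.log 12) := by
    rw [Real.exp_sub, Real.exp_log (by norm_num)]
  rw [h12, ← Real.exp_add]
  apply Real.exp_le_exp.2
  have h13 : κ * s ≤ ε / 8 * s := mul_le_mul_of_nonneg_right hκ2 hs0.le
  nlinarith

end Pool.Agent.Y966.UB
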