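import Pool.Agent.Y966.UB.Path6
import Pool.Agent.Y966.UB.Path7

/-!
Sample path laws for `3x+d`, uniformly in `d`.
-/

set_option autoImplicit false
set_option linter.unusedVariables false

namespace Pool.Agent.Y966.UB

open Finset Pool.Agent.H395R2.G3
open Pool.Agent.Y966.LD

/-- starting points of trajectories of `3x+d` in the tube which end at `a` -/
def TTD (d : ℤ) (Q : ℕ → ℤ → Prop) (δ s : ℝ) (P : List (ℝ × ℝ)) (a : ℤ) : Set ℤ :=
  {n : ℤ | (TD d)^[stp s P] n = a ∧ TbD d δ s P n ∧ Q (stp s P) n}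

/-- the uniform local law for `3x+1` -/
def Loc (Q : ℕ → ℤ → Prop) (δ ε : ℝ) (P : List (ℝ × ℝ)) (s : ℝ) : Prop :=
  ∀ a : ℤ, (TT Q δ s P a).Finite ∧
        ((TT Q δ s P a).ncard : ℝ) ≤ Real.exp ((gn P + ε) * s) ∧
        (¬ (3 : ℤ) ∣ a → ∃ G : Finset ℤ, Real.exp ((gn P - ε) * s) ≤ (G.card : ℝ) ∧
          ∀ m ∈ G, (0 < a → 0 < m) ∧ (a < 0 → m < 0) ∧ m ∈ TT Q δ s P a)

theorem local_d {Q : ℕ → ℤ → Prop} {QD : ℤ → ℕ → ℤ → Prop}
    (hQ : ∀ (d : ℤ) (k : ℕ) (m M : ℤ), Par d k m M → (QD d k m ↔ Q k M))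
    {P : List (ℝ × ℝ)} {δ ε s : ℝ} (h : Loc Q δ ε P s) {d : ℤ} (hd : d % 2 = 1)
    (hd3 : ¬ (3 : ℤ) ∣ d) (a : ℤ) : (TTD d (QD d) δ s P a).Finite ∧
        ((TTD d (QD d) δ s P a).ncard : ℝ) ≤ Real.exp ((gn P + ε) * s) ∧
        (¬ (3 : ℤ) ∣ a → Real.exp ((gn P - ε) * s) ≤ ((TTD d (QD d) δ s P a).ncard : ℝ)) := by
  obtain ⟨X, hX, hX3⟩ := exists_target hd3 (stp s P) a
  obtain ⟨h1, h2, h3⟩ := h X
  have ht := transfer hd hd3 (stp s P) hX (A := fun m => TbD d δ s P m ∧ QD d (stp s P) m)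
    (B := fun M => Tb δ s P M ∧ Q (stp s P) M)
    (fun m M hp => and_congr (TbD_iff P m M hp) (hQ d _ m M hp)) h1
  have e1 : {m : ℤ | (TD d)^[stp s P] m = a ∧ (TbD d δ s P m ∧ QD d (stp s P) m)} =
    TTD d (QD d) δ s P a := rfl
  have e2 : {M : ℤ | TZ^[stp s P] M = X ∧ (Tb δ s P M ∧ Q (stp s P) M)} = TT Q δ s P X := rfl
  rw [e1, e2] at ht
  refine ⟨ht.1, by rw [ht.2]; exact h2, fun ha => ?_⟩
  rw [ht.2]
  obtain ⟨G, hG1, hG2⟩ := h3 (hX3 ha)
  refine hG1.trans ?_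
  have h4 : (G : Set ℤ).ncard ≤ (TT Q δ s P X).ncard :=
    Set.ncard_le_ncard (fun m hm => (hG2 m hm).2.2) h1
  rw [Set.ncard_coe_finset] at h4
  exact_mod_cast h4

/-- partial products along the tube -/
theorem tube_prod {P : List (ℝ × ℝ)}
    (hP : ∀ p ∈ P, 0 < p.1 ∧ 0 < p.2 ∧ p.2 * Real.log 3 ≤ Real.log 2) {δ s : ℝ} (hδ : 0 ≤ δ)
    (hs : 0 ≤ s) {d : ℤ} (hd : d % 2 = 1) (hd3 : ¬ (3 : ℤ) ∣ d) {m : ℤ}
    (ht : TbD d δ s P m) :
    (∀ j ≤ stp s P, (2 : ℝ) ^ j / 3 ^ (od d j m) ≤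
      Real.exp (dr P * s + P.length * (δ * s * Real.log 3 + Real.log 2))) ∧
    Real.exp (dr P * s - P.length * (δ * s * Real.log 3 + Real.log 2)) ≤
      (2 : ℝ) ^ (stp s P) / 3 ^ (od d (stp s P) m) ∧ (stp s P : ℝ) ≤ tm P * s := by
  obtain ⟨X, hX, _⟩ := exists_target hd3 (stp s P) ((TD d)^[stp s P] m)
  obtain ⟨M, hM, hp⟩ := fwd hd hd3 (stp s P) _ X m hX rfl
  have hT : Tb δ s P M := (TbD_iff P m M hp).1 ht
  obtain ⟨t1, t2, t3⟩ := Tb_total hδ hs P hP M hT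
  have e : ∀ j ≤ stp s P, (2 : ℝ) ^ j / 3 ^ (od d j m) =
      Real.exp ((j : ℝ) * Real.log 2 - oc j M * Real.log 3) := by
    intro j hj
    rw [Par_od (Par_mono hp hj), Real.exp_sub, ← Real.log_pow, ← Real.log_pow,
      Real.exp_log (by positivity), Real.exp_log (by positivity)]
  refine ⟨fun j hj => ?_, ?_, t3⟩
  · rw [e j hj]
    exact Real.exp_le_exp.2 (t1 j hj)
  · rw [e _ le_rfl]
    exact Real.exp_le_exp.2 t2

/-- offsets are small -/
theorem sum_prod {P : List (ℝ × ℝ)}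
    (hP : ∀ p ∈ P, 0 < p.1 ∧ 0 < p.2 ∧ p.2 * Real.log 3 ≤ Real.log 2) {δ s : ℝ} (hδ : 0 ≤ δ)
    (hs : 0 ≤ s) {d : ℤ} (hd : d % 2 = 1) (hd3 : ¬ (3 : ℤ) ∣ d) {m : ℤ}
    (ht : TbD d δ s P m) :
    ∑ i ∈ range (stp s P), (2 : ℝ) ^ i / 3 ^ (od d i m) ≤ tm P * s *
      Real.exp (dr P * s + P.length * (δ * s * Real.log 3 + Real.log 2)) := by
  obtain ⟨h1, _, h3⟩ := tube_prod hP hδ hs hd hd3 ht
  calc ∑ i ∈ range (stp s P), (2 : ℝ) ^ i / 3 ^ (od d i m)
      ≤ ∑ i ∈ range (stp s P), Real.exp (dr P * s + P.length *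
          (δ * s * Real.log 3 + Real.log 2)) := by
        apply sum_le_sum
        intro i hi
        exact h1 i (mem_range.1 hi).le
    _ = (stp s P : ℝ) * Real.exp (dr P * s + P.length * (δ * s * Real.log 3 + Real.log 2)) := by
        rw [sum_const, card_range, nsmul_eq_mul]
    _ ≤ _ := mul_le_mul_of_nonneg_right h3 (Real.exp_pos _).le

/-- image of the starting point -/
theorem size_d' {d : ℤ} (hd : d % 2 = 1) (k : ℕ) : ∀ m : ℤ,
    |((TD d)^[k] m : ℝ)| ≤ 3 ^ (od d k m) / 2 ^ k * ((|m| : ℝ) +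
      |(d : ℝ)| * ∑ i ∈ range k, (2 : ℝ) ^ i / 3 ^ (od d i m)) := by
  intro m
  induction k with
  | zero => simp [od_zero]
  | succ k ih =>
    set u := (TD d)^[k] m with hu
    set A : ℝ := 3 ^ (od d k m) / 2 ^ k with hAd
    have hA : 0 < A := by positivity
    set S : ℝ := ∑ i ∈ range k, (2 : ℝ) ^ i / 3 ^ (od d i m) with hS
    have hAi : A * (2 ^ k / 3 ^ (od d k m)) = 1 := by
      rw [hAd]
      field_simp
    rw [sum_range_succ, od_succ, Function.iterate_succ_apply', ← hu, ← hS]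
    have hd0 : 0 ≤ |(d : ℝ)| := abs_nonneg _
    set B : ℝ := 2 ^ k / 3 ^ (od d k m) with hB
    have hB0 : 0 < B := by positivity
    rcases Int.emod_two_eq_zero_or_one u with he | ho
    · rw [if_neg (by omega)]
      have h1 : (u : ℝ) = 2 * (TD d u : ℤ) := by exact_mod_cast TD_even (d := d) he
      have h2 : |(u : ℝ)| = 2 * |((TD d u : ℤ) : ℝ)| := by
        rw [h1, abs_mul, abs_of_pos (by norm_num : (0 : ℝ) < 2)]
      have h3 : (3 : ℝ) ^ (od d k m + 0) / 2 ^ (k + 1) = A / 2 := by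
        rw [hAd, add_zero, pow_succ]
        field_simp
      rw [h3]
      rw [h2] at ih
      have h4 : A / 2 * ((|m| : ℝ) + |(d : ℝ)| * (S + B)) =
          (A * ((|m| : ℝ) + |(d : ℝ)| * S)) / 2 + |(d : ℝ)| * (A * B) / 2 := by ring
      rw [h4, hAi]
      linarith
    · rw [if_pos ho]
      have h1 : 2 * ((TD d u : ℤ) : ℝ) = 3 * u + d := by exact_mod_cast TD_odd hd ho
      have h2 : 2 * |((TD d u : ℤ) : ℝ)| ≤ 3 * |(u : ℝ)| + |(d : ℝ)| := by
        have h4 : 2 * |((TD d u : ℤ) : ℝ)| = |2 * ((TD d u : ℤ) : ℝ)| := by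
          rw [abs_mul, abs_of_pos (by norm_num : (0 : ℝ) < 2)]
        rw [h4, h1]
        refine (abs_add_le _ _).trans ?_
        rw [abs_mul, abs_of_pos (by norm_num : (0 : ℝ) < 3)]
      have h3 : (3 : ℝ) ^ (od d k m + 1) / 2 ^ (k + 1) = 3 / 2 * A := by
        rw [hAd, pow_succ, pow_succ]
        field_simp
      rw [h3]
      have h4 : 3 / 2 * A * ((|m| : ℝ) + |(d : ℝ)| * (S + B)) =
          3 / 2 * (A * ((|m| : ℝ) + |(d : ℝ)| * S)) + 3 / 2 * (|(d : ℝ)| * (A * B)) := by ring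
      rw [h4, hAi]
      linarith

/-- polynomial factors -/
theorem absorb_lin {K t c : ℝ} (hK : 0 < K) (ht : 0 ≤ t) (hc : 0 < c) : ∃ s₀ : ℝ, 0 < s₀ ∧
    ∀ s : ℝ, s₀ ≤ s → K * (1 + t * s) ≤ Real.exp (c * s) := by
  obtain ⟨s₁, hs₁, h⟩ := absorb (show 0 < K * (1 + t * (2 / c)) by positivity)
    (show 0 < c / 2 by positivity)
  refine ⟨s₁, hs₁, fun s hs => ?_⟩
  have hs0 : 0 < s := hs₁.trans_le hs
  have h1 := h s hs
  have h2 := Real.add_one_le_exp (c / 2 * s)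
  have h3 : 1 + t * s ≤ (1 + t * (2 / c)) * (1 + c / 2 * s) := by
    have : (1 + t * (2 / c)) * (1 + c / 2 * s) = 1 + t * s + t * (2 / c) + c / 2 * s := by
      field_simp
      ring
    rw [this]
    have : 0 ≤ t * (2 / c) := by positivity
    have : 0 ≤ c / 2 * s := by positivity
    linarith
  calc K * (1 + t * s) ≤ K * ((1 + t * (2 / c)) * (1 + c / 2 * s)) :=
        mul_le_mul_of_nonneg_left h3 hK.le
    _ = K * (1 + t * (2 / c)) * (1 + c / 2 * s) := by ring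
    _ ≤ Real.exp (c / 2 * s) * Real.exp (c / 2 * s) :=
        mul_le_mul h1 (by linarith) (by positivity) (Real.exp_pos _).le
    _ = Real.exp (c * s) := by
        rw [← Real.exp_add]
        congr 1
        ring

/-- sizes of starting points -/
theorem size_tube {P : List (ℝ × ℝ)}
    (hP : ∀ p ∈ P, 0 < p.1 ∧ 0 < p.2 ∧ p.2 * Real.log 3 ≤ Real.log 2) {ε : ℝ} (hε : 0 < ε)
    {δ : ℝ} (hδ : 0 ≤ δ) (hδ1 : P.length * (δ * Real.log 3) ≤ ε / 2) :
    ∃ s₀ : ℝ, 0 < s₀ ∧ ∀ s : ℝ, s₀ ≤ s → ∀ d : ℤ, d % 2 = 1 → ¬ (3 : ℤ) ∣ d → ∀ m : ℤ,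
      TbD d δ s P m →
      (|m| : ℝ) ≤ (|((TD d)^[stp s P] m : ℝ)| + |(d : ℝ)|) * Real.exp ((dr P + ε) * s) ∧
      |((TD d)^[stp s P] m : ℝ)| ≤ (|m| : ℝ) * Real.exp ((ε - dr P) * s) +
        |(d : ℝ)| * Real.exp (2 * ε * s) := by
  have hl2 : 0 < Real.log 2 := Real.log_pos (by norm_num)
  have hl3 : 0 < Real.log 3 := Real.log_pos (by norm_num)
  have htm := tm_nonneg fun p hp => (hP p hp).1
  obtain ⟨s₁, hs₁, hab⟩ := absorb_lin (Real.exp_pos (P.length * Real.log 2)) htm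
    (show 0 < ε / 2 by positivity)
  refine ⟨s₁, hs₁, fun s hs d hd hd3 m ht => ?_⟩
  have hs0 : 0 < s := hs₁.trans_le hs
  obtain ⟨t1, t2, t3⟩ := tube_prod hP hδ hs0.le hd hd3 ht
  have t4 := sum_prod hP hδ hs0.le hd hd3 ht
  have hA := hab s hs
  set El : ℝ := Real.exp (P.length * Real.log 2) with hEl
  have hEl1 : 1 ≤ El := Real.one_le_exp (by positivity)
  -- the exponential factor
  have hE : Real.exp (dr P * s + P.length * (δ * s * Real.log 3 + Real.log 2)) ≤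
      El * Real.exp ((dr P + ε / 2) * s) := by
    rw [hEl, ← Real.exp_add]
    apply Real.exp_le_exp.2
    have := mul_le_mul_of_nonneg_right hδ1 hs0.le
    nlinarith
  have hE' : Real.exp (-(dr P * s - P.length * (δ * s * Real.log 3 + Real.log 2))) ≤
      El * Real.exp ((ε / 2 - dr P) * s) := by
    rw [hEl, ← Real.exp_add]
    apply Real.exp_le_exp.2
    have := mul_le_mul_of_nonneg_right hδ1 hs0.le
    nlinarith
  have htms : 0 ≤ tm P * s := by positivity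
  have hX : 0 < Real.exp ((dr P + ε / 2) * s) := Real.exp_pos _
  have hd0 : 0 ≤ |(d : ℝ)| := abs_nonneg _
  have ha0 : 0 ≤ |((TD d)^[stp s P] m : ℝ)| := abs_nonneg _
  have hS : ∑ i ∈ range (stp s P), (2 : ℝ) ^ i / 3 ^ (od d i m) ≤
      tm P * s * (El * Real.exp ((dr P + ε / 2) * s)) :=
    t4.trans (mul_le_mul_of_nonneg_left hE htms)
  have hfin : El * (1 + tm P * s) * Real.exp ((dr P + ε / 2) * s) ≤
      Real.exp ((dr P + ε) * s) := by
    calc El * (1 + tm P * s) * Real.exp ((dr P + ε / 2) * s) ≤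
        Real.exp (ε / 2 * s) * Real.exp ((dr P + ε / 2) * s) :=
          mul_le_mul_of_nonneg_right hA hX.le
      _ = Real.exp ((dr P + ε) * s) := by
        rw [← Real.exp_add]
        congr 1
        ring
  constructor
  · have h1 := size_d hd (stp s P) m
    have h2 := (t1 _ le_rfl).trans hE
    calc (|m| : ℝ) ≤ 2 ^ (stp s P) / 3 ^ (od d (stp s P) m) * |((TD d)^[stp s P] m : ℝ)| +
          |(d : ℝ)| * ∑ i ∈ range (stp s P), (2 : ℝ) ^ i / 3 ^ (od d i m) := h1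
      _ ≤ El * Real.exp ((dr P + ε / 2) * s) * |((TD d)^[stp s P] m : ℝ)| +
          |(d : ℝ)| * (tm P * s * (El * Real.exp ((dr P + ε / 2) * s))) :=
          add_le_add (mul_le_mul_of_nonneg_right h2 ha0) (mul_le_mul_of_nonneg_left hS hd0)
      _ ≤ (|((TD d)^[stp s P] m : ℝ)| + |(d : ℝ)|) *
          (El * (1 + tm P * s) * Real.exp ((dr P + ε / 2) * s)) := by
          have h5 : 0 ≤ El * Real.exp ((dr P + ε / 2) * s) := by positivity
          have h6 := mul_nonneg (mul_nonneg ha0 htms) h5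
          have h7 := mul_nonneg hd0 h5
          nlinarith
      _ ≤ _ := mul_le_mul_of_nonneg_left hfin (by positivity)
  · have h1 := size_d' hd (stp s P) m
    have h2 : (3 : ℝ) ^ (od d (stp s P) m) / 2 ^ (stp s P) ≤ El * Real.exp ((ε / 2 - dr P) * s) := by
      refine le_trans ?_ hE'
      rw [Real.exp_neg]
      have h3 : (3 : ℝ) ^ (od d (stp s P) m) / 2 ^ (stp s P) =
          ((2 : ℝ) ^ (stp s P) / 3 ^ (od d (stp s P) m))⁻¹ := by rw [inv_div]
      rw [h3]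
      exact inv_anti₀ (Real.exp_pos _) t2
    have hS0 : 0 ≤ ∑ i ∈ range (stp s P), (2 : ℝ) ^ i / 3 ^ (od d i m) :=
      sum_nonneg fun i _ => by positivity
    have hY : 0 < Real.exp ((ε / 2 - dr P) * s) := Real.exp_pos _
    have g1 : El ≤ Real.exp (ε / 2 * s) := by
      refine le_trans ?_ hA
      nlinarith
    have g2 : El * (El * (tm P * s)) ≤ Real.exp (ε / 2 * s) * Real.exp (ε / 2 * s) := by
      apply mul_le_mul g1 _ (by positivity) (Real.exp_pos _).le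
      refine le_trans ?_ hA
      nlinarith
    calc |((TD d)^[stp s P] m : ℝ)| ≤ 3 ^ (od d (stp s P) m) / 2 ^ (stp s P) * ((|m| : ℝ) +
          |(d : ℝ)| * ∑ i ∈ range (stp s P), (2 : ℝ) ^ i / 3 ^ (od d i m)) := h1
      _ ≤ El * Real.exp ((ε / 2 - dr P) * s) * ((|m| : ℝ) +
          |(d : ℝ)| * (tm P * s * (El * Real.exp ((dr P + ε / 2) * s)))) := by
          apply mul_le_mul h2 _ (by positivity) (by positivity)
          have := mul_le_mul_of_nonneg_left hS hd0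
          linarith
      _ = El * ((|m| : ℝ) * Real.exp ((ε / 2 - dr P) * s)) +
          |(d : ℝ)| * (El * (El * (tm P * s)) *
            (Real.exp ((ε / 2 - dr P) * s) * Real.exp ((dr P + ε / 2) * s))) := by ring
      _ ≤ Real.exp (ε / 2 * s) * ((|m| : ℝ) * Real.exp ((ε / 2 - dr P) * s)) +
          |(d : ℝ)| * (Real.exp (ε / 2 * s) * Real.exp (ε / 2 * s) *
            (Real.exp ((ε / 2 - dr P) * s) * Real.exp ((dr P + ε / 2) * s))) := by
          apply add_le_add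
          · exact mul_le_mul_of_nonneg_right g1 (by positivity)
          · exact mul_le_mul_of_nonneg_left (mul_le_mul_of_nonneg_right g2 (by positivity)) hd0
      _ = _ := by
          have e1 : Real.exp (ε / 2 * s) * ((|m| : ℝ) * Real.exp ((ε / 2 - dr P) * s)) =
              (|m| : ℝ) * (Real.exp (ε / 2 * s) * Real.exp ((ε / 2 - dr P) * s)) := by ring
          rw [e1, ← Real.exp_add, ← Real.exp_add, ← Real.exp_add, ← Real.exp_add]
          congr 2
          · congr 1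
            ring
          · congr 1
            ring

end Pool.Agent.Y966.UB
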