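import Pool.Agent.Y966.UB.Path8

/-!
Global sample path laws for `3x+d`, uniformly in `d`.
-/

set_option autoImplicit false
set_option linter.unusedVariables false

namespace Pool.Agent.Y966.UB

open Finset Pool.Agent.H395R2.G3
open Pool.Agent.Y966.LD

/-- integers in `[-e^s, e^s]` whose trajectory under `3x+d` is in the tube -/
def GD (d : ℤ) (Q : ℕ → ℤ → Prop) (δ s : ℝ) (P : List (ℝ × ℝ)) : Set ℤ :=
  {n : ℤ | |(n : ℝ)| ≤ Real.exp s ∧ TbD d δ s P n ∧ Q (stp s P) n}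

theorem GD_finite (d : ℤ) (Q : ℕ → ℤ → Prop) (δ s : ℝ) (P : List (ℝ × ℝ)) :
    (GD d Q δ s P).Finite := by
  apply (Set.finite_Icc (-⌊Real.exp s⌋) ⌊Real.exp s⌋).subset
  rintro n ⟨h1, _⟩
  obtain ⟨h2, h3⟩ := abs_le.1 h1
  have h4 : n ≤ ⌊Real.exp s⌋ := Int.le_floor.2 h3
  have h5 : -n ≤ ⌊Real.exp s⌋ := Int.le_floor.2 (by push_cast; linarith)
  exact ⟨by omega, h4⟩

theorem Loc_mono {Q : ℕ → ℤ → Prop} {δ ε ε' : ℝ} {P : List (ℝ × ℝ)} {s : ℝ} (hs : 0 ≤ s)
    (h : Loc Q δ ε P s) (hε : ε ≤ ε') : Loc Q δ ε' P s := by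
  intro a
  obtain ⟨h1, h2, h3⟩ := h a
  refine ⟨h1, h2.trans (Real.exp_le_exp.2 ?_), fun ha => ?_⟩
  · apply mul_le_mul_of_nonneg_right _ hs
    linarith
  · obtain ⟨G, g1, g2⟩ := h3 ha
    refine ⟨G, le_trans (Real.exp_le_exp.2 ?_) g1, g2⟩
    apply mul_le_mul_of_nonneg_right _ hs
    linarith

theorem global_d {Q : ℕ → ℤ → Prop} {QD : ℤ → ℕ → ℤ → Prop}
    (hQ : ∀ (d : ℤ) (k : ℕ) (m M : ℤ), Par d k m M → (QD d k m ↔ Q k M))
    {P : List (ℝ × ℝ)} (hP : ∀ p ∈ P, 0 < p.1 ∧ 0 < p.2 ∧ p.2 * Real.log 3 ≤ Real.log 2)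
    (hdr : dr P < 1) {ε κ δ : ℝ} (hκ : 0 < κ) (hκ1 : κ ≤ ε / 2) (hκ2 : κ ≤ (1 - dr P) / 2)
    (hδ : 0 ≤ δ) (hδ1 : P.length * (δ * Real.log 3) ≤ κ / 8)
    (hloc : ∃ s₁ : ℝ, 0 < s₁ ∧ ∀ s : ℝ, s₁ ≤ s → Loc Q δ (κ / 4) P s) :
    ∃ s₀ : ℝ, 0 < s₀ ∧ ∀ s : ℝ, s₀ ≤ s → ∀ d : ℤ, d % 2 = 1 → ¬ (3 : ℤ) ∣ d →
      |(d : ℝ)| ≤ Real.exp ((1 - dr P - ε) * s) →
      Real.exp ((1 - dr P + gn P - ε) * s) ≤ ((GD d (QD d) δ s P).ncard : ℝ) ∧
      ((GD d (QD d) δ s P).ncard : ℝ) ≤ Real.exp ((1 - dr P + gn P + ε) * s) := by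
  classical
  obtain ⟨s₁, hs₁, hloc⟩ := hloc
  obtain ⟨s₂, hs₂, hsz⟩ := size_tube hP (ε := κ / 4) (by positivity) hδ (by linarith)
  obtain ⟨s₃, hs₃, hab⟩ := absorb (show (0 : ℝ) < 12 by norm_num) (show 0 < κ / 4 by positivity)
  refine ⟨max s₁ (max s₂ s₃), lt_max_of_lt_left hs₁, fun s hs d hd hd3 hdb => ?_⟩
  have hs1 : s₁ ≤ s := (le_max_left _ _).trans hs
  have hs2 : s₂ ≤ s := (le_max_left _ _).trans ((le_max_right _ _).trans hs)
  have hs3 : s₃ ≤ s := (le_max_right _ _).trans ((le_max_right _ _).trans hs)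
  have hs0 : 0 < s := hs₁.trans_le hs1
  have h12 := hab s hs3
  have hκs : 0 < κ * s := by positivity
  have hl := fun a => local_d hQ (hloc s hs1) hd hd3 a
  have hd1 : |(d : ℝ)| ≤ Real.exp ((1 - dr P - κ) * s) := by
    refine hdb.trans (Real.exp_le_exp.2 ?_)
    apply mul_le_mul_of_nonneg_right _ hs0.le
    linarith
  constructor
  · -- lower bound
    set Y : ℝ := Real.exp ((1 - dr P - κ) * s) with hY
    have hY12 : 12 ≤ Y := by
      refine h12.trans (Real.exp_le_exp.2 ?_)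
      apply mul_le_mul_of_nonneg_right _ hs0.le
      linarith
    obtain ⟨F, hF1, hF2⟩ := many_prime Y hY12
    set S : ℤ → Finset ℤ := fun a => (hl a).1.toFinset with hS
    have hdisj : Set.PairwiseDisjoint (F : Set ℤ) S := by
      intro a _ b _ hab'
      rw [Function.onFun, disjoint_left]
      intro n hn hn'
      rw [hS, Set.Finite.mem_toFinset] at hn hn'
      exact hab' (hn.1.symm.trans hn'.1)
    have hsub : ((F.biUnion S : Finset ℤ) : Set ℤ) ⊆ GD d (QD d) δ s P := by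
      intro n hn
      rw [mem_coe, mem_biUnion] at hn
      obtain ⟨a, haF, hna⟩ := hn
      rw [hS, Set.Finite.mem_toFinset] at hna
      obtain ⟨n1, n2, n3⟩ := hna
      obtain ⟨f1, f2, f3⟩ := hF2 a haF
      refine ⟨?_, n2, n3⟩
      obtain ⟨z1, _⟩ := hsz s hs2 d hd hd3 n n2
      rw [n1] at z1
      have ha0 : (0 : ℝ) ≤ a := by linarith
      rw [abs_of_nonneg ha0] at z1
      have h5 : (|n| : ℝ) ≤ (Y + Y) * Real.exp ((dr P + κ / 4) * s) :=
        z1.trans (mul_le_mul_of_nonneg_right (add_le_add f2 hd1) (Real.exp_pos _).le)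
      refine h5.trans ?_
      have h6 : Y + Y ≤ Real.exp (κ / 4 * s) * Y := by
        have : 2 * Y ≤ Real.exp (κ / 4 * s) * Y :=
          mul_le_mul_of_nonneg_right (by linarith) (by linarith)
        linarith
      calc (Y + Y) * Real.exp ((dr P + κ / 4) * s) ≤
          Real.exp (κ / 4 * s) * Y * Real.exp ((dr P + κ / 4) * s) :=
            mul_le_mul_of_nonneg_right h6 (Real.exp_pos _).le
        _ = Real.exp (s - κ / 2 * s) := by
          rw [hY, ← Real.exp_add, ← Real.exp_add]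
          congr 1
          ring
        _ ≤ Real.exp s := by
          apply Real.exp_le_exp.2
          linarith
    have hcard : ((F.biUnion S).card : ℝ) = ∑ a ∈ F, ((TTD d (QD d) δ s P a).ncard : ℝ) := by
      rw [card_biUnion (fun a ha b hb hne => hdisj ha hb hne)]
      push_cast
      apply sum_congr rfl
      intro a _
      rw [hS, Set.ncard_eq_toFinset_card _ (hl a).1]
    have h7 : ((F.biUnion S).card : ℝ) ≤ ((GD d (QD d) δ s P).ncard : ℝ) := by
      have := Set.ncard_le_ncard hsub (GD_finite d (QD d) δ s P)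
      rw [Set.ncard_coe_finset] at this
      exact_mod_cast this
    refine le_trans ?_ h7
    rw [hcard]
    have h8 : ∑ a ∈ F, Real.exp ((gn P - κ / 4) * s) ≤
        ∑ a ∈ F, ((TTD d (QD d) δ s P a).ncard : ℝ) :=
      sum_le_sum fun a ha => (hl a).2.2 (hF2 a ha).2.2
    refine le_trans ?_ h8
    rw [sum_const, nsmul_eq_mul]
    have h9 : Real.exp (-(κ / 4) * s) * Y ≤ F.card := by
      refine le_trans ?_ hF1
      have h10 : Real.exp (-(κ / 4) * s) * 12 ≤ 1 := by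
        have : Real.exp (-(κ / 4) * s) * Real.exp (κ / 4 * s) = 1 := by
          rw [← Real.exp_add, show -(κ / 4) * s + κ / 4 * s = 0 by ring, Real.exp_zero]
        rw [← this]
        exact mul_le_mul_of_nonneg_left h12 (Real.exp_pos _).le
      have hYp : 0 < Y := by linarith
      nlinarith
    calc Real.exp ((1 - dr P + gn P - ε) * s) ≤
        Real.exp (-(κ / 4) * s) * Y * Real.exp ((gn P - κ / 4) * s) := by
          rw [hY, ← Real.exp_add, ← Real.exp_add]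
          apply Real.exp_le_exp.2
          nlinarith
      _ ≤ F.card * Real.exp ((gn P - κ / 4) * s) :=
          mul_le_mul_of_nonneg_right h9 (Real.exp_pos _).le
  · -- upper bound
    set Y : ℝ := Real.exp ((1 - dr P + κ / 4) * s) with hY
    have hY0 : 0 < Y := Real.exp_pos _
    have hY1 : 1 ≤ Y := by
      rw [hY]
      apply Real.one_le_exp
      have : 0 ≤ 1 - dr P + κ / 4 := by linarith
      positivity
    set F : Finset ℤ := Finset.Icc (-⌊2 * Y⌋) ⌊2 * Y⌋ with hF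
    have hfl : (⌊2 * Y⌋ : ℝ) ≤ 2 * Y := Int.floor_le _
    have hfl0 : 0 ≤ ⌊2 * Y⌋ := Int.floor_nonneg.2 (by positivity)
    have hFc : (F.card : ℝ) ≤ 5 * Y := by
      rw [hF, Int.card_Icc]
      have h1 : ((⌊2 * Y⌋ + 1 - -⌊2 * Y⌋).toNat : ℤ) = 2 * ⌊2 * Y⌋ + 1 := by
        rw [Int.toNat_of_nonneg (by omega)]
        ring
      have h2 : (((⌊2 * Y⌋ + 1 - -⌊2 * Y⌋).toNat : ℕ) : ℝ) = 2 * (⌊2 * Y⌋ : ℤ) + 1 := by
        exact_mod_cast h1
      rw [h2]
      linarith
    obtain ⟨g1, g2⟩ := ncard_bU F (fun a => TTD d (QD d) δ s P a) (fun a _ => (hl a).1)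
      (GD d (QD d) δ s P) (by
        rintro n ⟨hn1, hn2, hn3⟩
        refine ⟨(TD d)^[stp s P] n, ?_, rfl, hn2, hn3⟩
        obtain ⟨_, z2⟩ := hsz s hs2 d hd hd3 n hn2
        have h5 : |((TD d)^[stp s P] n : ℝ)| ≤ 2 * Y := by
          refine z2.trans ?_
          have h6 : |(n : ℝ)| * Real.exp ((κ / 4 - dr P) * s) ≤ Y := by
            calc |(n : ℝ)| * Real.exp ((κ / 4 - dr P) * s) ≤
                Real.exp s * Real.exp ((κ / 4 - dr P) * s) :=
                  mul_le_mul_of_nonneg_right hn1 (Real.exp_pos _).le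
              _ = Y := by
                rw [hY, ← Real.exp_add]
                congr 1
                ring
          have h7 : |(d : ℝ)| * Real.exp (2 * (κ / 4) * s) ≤ Y := by
            calc |(d : ℝ)| * Real.exp (2 * (κ / 4) * s) ≤
                Real.exp ((1 - dr P - κ) * s) * Real.exp (2 * (κ / 4) * s) :=
                  mul_le_mul_of_nonneg_right hd1 (Real.exp_pos _).le
              _ ≤ Y := by
                rw [hY, ← Real.exp_add]
                apply Real.exp_le_exp.2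
                nlinarith
          have h8 : (|n| : ℝ) = |(n : ℝ)| := rfl
          linarith
        obtain ⟨h9, h10⟩ := abs_le.1 h5
        rw [hF, Finset.mem_Icc]
        have h11 : (TD d)^[stp s P] n ≤ ⌊2 * Y⌋ := Int.le_floor.2 h10
        have h12' : -(TD d)^[stp s P] n ≤ ⌊2 * Y⌋ := Int.le_floor.2 (by push_cast; linarith)
        exact ⟨by omega, h11⟩)
    have g3 : ((GD d (QD d) δ s P).ncard : ℝ) ≤
        ∑ a ∈ F, ((TTD d (QD d) δ s P a).ncard : ℝ) := by exact_mod_cast g2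
    refine g3.trans ((sum_le_sum fun a _ => (hl a).2.1).trans ?_)
    rw [sum_const, nsmul_eq_mul]
    have h5 : 5 * Y ≤ Real.exp (κ / 4 * s) * Y := mul_le_mul_of_nonneg_right (by linarith) hY0.le
    calc (F.card : ℝ) * Real.exp ((gn P + κ / 4) * s)
        ≤ (Real.exp (κ / 4 * s) * Y) * Real.exp ((gn P + κ / 4) * s) :=
          mul_le_mul_of_nonneg_right (hFc.trans h5) (Real.exp_pos _).le
      _ ≤ Real.exp ((1 - dr P + gn P + ε) * s) := by
          rw [hY, ← Real.exp_add, ← Real.exp_add]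
          apply Real.exp_le_exp.2
          nlinarith

end Pool.Agent.Y966.UB
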