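import Pool.Agent.Y966.UB.Traj

/-!
Upper bound for the number of starting points whose trajectory to `a` is regular.
-/

set_option autoImplicit false
set_option linter.unusedVariables false

namespace Pool.Agent.Y966.UB

open Finset Pool.Agent.H320R2.PD Pool.Agent.H377R2.NK
open Pool.Agent.Y966.LD (TZ oc oc_zero oc_succ oc_succ' oc_add oc_le)

theorem sum_FW_pow (Q n : ℕ) (z : ℝ) :
    ∑ w ∈ FW Q n, z ^ w.sum = (∑ e ∈ Icc 1 Q, z ^ e) ^ n := by
  induction n with
  | zero => simp [FW]
  | succ n ih =>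
    rw [sum_FW_succ, pow_succ', sum_mul]
    refine sum_congr rfl fun e _ => ?_
    rw [← ih, mul_sum]
    refine sum_congr rfl fun v _ => ?_
    rw [List.sum_cons, pow_add]

theorem card_FW (Q n : ℕ) : (FW Q n).card = Q ^ n := by
  have h := sum_FW_pow Q n (1 : ℝ)
  simp only [one_pow, sum_const, nsmul_eq_mul, mul_one, Nat.card_Icc] at h
  have h2 : ((FW Q n).card : ℝ) = ((Q ^ n : ℕ) : ℝ) := by
    rw [h]
    push_cast
    norm_num
  exact_mod_cast h2

theorem geom_le {z : ℝ} (h0 : 0 < z) (h1 : z < 1) (Q : ℕ) : ∑ e ∈ Icc 1 Q, z ^ e ≤ z / (1 - z) := by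
  have h2 : 0 < 1 - z := by linarith
  rw [le_div_iff₀ h2]
  have key : ∀ Q : ℕ, (∑ e ∈ Icc 1 Q, z ^ e) * (1 - z) = z * (1 - z ^ Q) := by
    intro Q
    induction Q with
    | zero => simp
    | succ Q ih =>
      rw [sum_Icc_succ_top (by omega), add_mul, ih]
      ring
  rw [key]
  have : 0 ≤ z ^ Q := by positivity
  nlinarith

/-- the alphabet of the regular trajectories -/
noncomputable def AW (L A : ℕ) (hL : 1 ≤ L) (z : ℝ) (hz : 0 < z) : Alph where
  U := (FW (2 * L) (A + 1)).filter fun u => L ≤ u.sum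
  b := A + 1
  M := 2 * L
  z := z
  hz := hz
  hb := by omega
  ne := by
    refine ⟨List.replicate (A + 1) L, ?_⟩
    rw [mem_filter, mem_FW]
    refine ⟨⟨List.length_replicate, fun e he => ?_⟩, ?_⟩
    · rw [List.eq_of_mem_replicate he]
      omega
    · rw [List.sum_replicate, smul_eq_mul]
      exact Nat.le_mul_of_pos_left _ (by omega)
  len := fun u hu => (mem_FW.1 (mem_filter.1 hu).1).1
  pos := fun u hu e he => ((mem_FW.1 (mem_filter.1 hu).1).2 e he).1
  sz := fun u hu => by
    obtain ⟨h1, h2⟩ := mem_FW.1 (mem_filter.1 hu).1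
    have h3 := List.sum_le_card_nsmul u (2 * L) (fun e he => (h2 e he).2)
    rw [h1, smul_eq_mul, mul_comm] at h3
    exact h3

/-- the regular starting points -/
def Rg (L A k o : ℕ) (a : ℤ) : Set ℤ := {n : ℤ | TZ^[k] n = a ∧ oc k n = o ∧ Win L A k n}

theorem Rg_finite (L A k o : ℕ) (a : ℤ) : (Rg L A k o a).Finite :=
  (LD.ncard_le_WO k o a).1.subset fun n hn => ⟨hn.1, hn.2.1⟩

theorem List_le_sum {w : List ℕ} : ∀ e ∈ w, e ≤ w.sum := fun e he => List.le_sum_of_mem he

/-- short paths -/
theorem short_count {L A k o : ℕ} (hk : k < L) (a : ℤ) : (Rg L A k o a).ncard ≤ (2 * L) ^ L := by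
  classical
  have h1 : (Rg L A k o a).ncard ≤ ((FW (2 * L) o : Finset (List ℕ)) : Set (List ℕ)).ncard := by
    refine Set.ncard_le_ncard_of_injOn (fun n => (Pw k n).1) ?_ ?_ (Finset.finite_toSet _)
    · rintro n ⟨hn1, hn2, _⟩
      rw [mem_coe, mem_FW]
      refine ⟨by rw [Pw_len, hn2], fun e he => ⟨Pw_pos k n e he, ?_⟩⟩
      have h2 := List_le_sum e he
      have h3 := Pw_sum k n
      omega
    · rintro n ⟨hn1, _, _⟩ n' ⟨hn1', _, _⟩ h
      exact Pw_inj (by rw [hn1, hn1']) h
  rw [Set.ncard_coe_finset, card_FW] at h1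
  rcases Nat.lt_or_ge k o with h | h
  · have : Rg L A k o a = ∅ := by
      ext n
      simp only [Rg, Set.mem_setOf_eq, Set.mem_empty_iff_false, iff_false]
      rintro ⟨_, h2, _⟩
      have := oc_le k n
      omega
    rw [this]
    simp
  · exact h1.trans (Nat.pow_le_pow_right (by omega) (by omega))

/-- long paths: comparison with the words over the alphabet -/
theorem long_count {L A k o : ℕ} (hL : 1 ≤ L) (hk : L ≤ k) {z : ℝ} (hz : 0 < z) (a : ℤ) :
    (Rg L A k o a).ncard ≤
      ((VB 3 (AW L A hL z hz) (o / (A + 1)) a).filter fun w => w.sum ≤ k).card * (2 * L) ^ (A + 1) := by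
  classical
  set W := AW L A hL z hz with hW
  set j := o / (A + 1) with hj
  have hdm := Nat.div_add_mod o (A + 1)
  rw [← hj] at hdm
  have hmod := Nat.mod_lt o (show 0 < A + 1 by omega)
  have hWb : W.b = A + 1 := rfl
  have h1 : (Rg L A k o a).ncard ≤ ((((VB 3 W j a).filter fun w => w.sum ≤ k) ×ˢ
      (FW (2 * L) (o % (A + 1))) : Finset (List ℕ × List ℕ)) : Set (List ℕ × List ℕ)).ncard := by
    refine Set.ncard_le_ncard_of_injOn
      (fun n => ((Pw k n).1.take (W.b * j), (Pw k n).1.drop (W.b * j))) ?_ ?_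
      (Finset.finite_toSet _)
    · rintro n ⟨hn1, hn2, hn3⟩
      have hlen : (Pw k n).1.length = o := by rw [Pw_len, hn2]
      have hlet := letter_le hL hn3
      have hpos := Pw_pos k n
      have hle : W.b * j ≤ o := by rw [hWb]; omega
      have hl1 : ((Pw k n).1.take (W.b * j)).length = W.b * j := by
        rw [List.length_take, hlen]
        omega
      rw [mem_coe, mem_product, mem_filter, mem_VB]
      refine ⟨⟨⟨?_, ?_⟩, ?_⟩, ?_⟩
      · refine mem_Bw_of (L := L) (Q := 2 * L) ?_ j _ hl1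
          (fun e he => ⟨hpos e (List.mem_of_mem_take he), hlet e (List.mem_of_mem_take he)⟩) ?_
        · intro u hu1 hu2 hu3
          rw [hW]
          unfold AW
          simp only [mem_filter]
          exact ⟨mem_FW.2 ⟨hu1, hu2⟩, hu3⟩
        · intro i hi
          rw [List.take_take, List.take_take]
          have e1 : min (W.b * i) (W.b * j) = W.b * i := by
            apply min_eq_left
            exact Nat.mul_le_mul_left _ hi.le
          have e2 : min (W.b * (i + 1)) (W.b * j) = W.b * i + (A + 1) := by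
            have h9 : W.b * (i + 1) ≤ W.b * j := Nat.mul_le_mul_left _ hi
            rw [min_eq_left h9, hWb]
            ring
          rw [e1, e2]
          refine block_ge hk hn3 ?_
          rw [hlen]
          have : W.b * (i + 1) ≤ W.b * j := Nat.mul_le_mul_left _ hi
          calc W.b * i + (A + 1) = W.b * (i + 1) := by rw [hWb]; ring
            _ ≤ o := this.trans hle
      · have hv := Pw_valid k n
        rw [hn1] at hv
        have hsplit := List.take_append_drop (W.b * j) (Pw k n).1
        have h2 := (valid_append_iff (p := 3) (by decide) (u := (Pw k n).1.take (W.b * j))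
          (v := (Pw k n).1.drop (W.b * j)) (x := a)).1 (by rw [hsplit]; exact_mod_cast hv)
        rw [hl1] at h2
        exact h2.1
      · have h2 := (take_oc k n (W.b * j) (by omega)).1
        exact h2
      · rw [mem_FW]
        refine ⟨?_, fun e he => ⟨hpos e (List.mem_of_mem_drop he), hlet e (List.mem_of_mem_drop he)⟩⟩
        rw [List.length_drop, hlen, hWb]
        omega
    · rintro n ⟨hn1, _, _⟩ n' ⟨hn1', _, _⟩ h
      have h' := Prod.ext_iff.1 h
      simp only at h'
      refine Pw_inj (by rw [hn1, hn1']) ?_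
      rw [← List.take_append_drop (W.b * j) (Pw k n).1,
        ← List.take_append_drop (W.b * j) (Pw k n').1, h'.1, h'.2]
  rw [Set.ncard_coe_finset, card_product, card_FW] at h1
  exact h1.trans (Nat.mul_le_mul_left _ (Nat.pow_le_pow_right (by omega) hmod.le))

/-- UPPER BOUND FOR REGULAR TRAJECTORIES, uniformly in the target -/
theorem reg_upper {L A : ℕ} (hL : 1 ≤ L) {z : ℝ} (h0 : 0 < z) (h1 : z < 1)
    {μ : ℝ} (hP1 : (z / (3 * (1 - z))) ^ (A + 1) ≤ Real.exp ((A + 1) * μ))
    (hP2 : z ^ L ≤ Real.exp ((A + 1) * μ)) {ε : ℝ} (hε : 0 < ε) :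
    ∃ C : ℝ, 0 < C ∧ ∀ (k o : ℕ) (a : ℤ), ((Rg L A k o a).ncard : ℝ) ≤
      C * Real.exp (ε * k + k * (-Real.log z) + o * μ) := by
  have h2 : 0 < 1 - z := by linarith
  set c : ℝ := Real.exp μ with hc
  have hc0 : 0 < c := Real.exp_pos _
  have hlc : μ = Real.log c := (Real.log_exp μ).symm
  have hcb : Real.exp ((A + 1) * μ) = c ^ (A + 1) := by
    rw [hc, ← Real.exp_nat_mul]
    push_cast
    rfl
  rw [hcb] at hP1 hP2
  rw [hlc]
  have hlz : 0 < -Real.log z := by
    have := Real.log_neg h0 h1
    linarith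
  set W := AW L A hL z h0 with hW
  have hWb : W.b = A + 1 := rfl
  have hWz : W.z = z := rfl
  have hSS := SS_pos W
  have hSSle : SS W ≤ (z / (1 - z)) ^ (A + 1) := by
    have e1 : SS W ≤ ∑ u ∈ FW (2 * L) (A + 1), z ^ u.sum := by
      unfold SS
      rw [hWz]
      exact sum_le_sum_of_subset_of_nonneg (filter_subset _ _) fun u _ _ => by positivity
    rw [sum_FW_pow] at e1
    refine e1.trans (pow_le_pow_left₀ (sum_nonneg fun e _ => by positivity) (geom_le h0 h1 _) _)
  set mx : ℝ := (3 : ℝ) ^ (A + 1) / SS W * z ^ L with hmx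
  have hmx0 : 0 < mx := by positivity
  have hmxU : ∀ u ∈ W.U, zw 3 W u ≤ mx := by
    intro u hu
    rw [zw_block hu, hmx, hWb, hWz]
    push_cast
    apply mul_le_mul_of_nonneg_left _ (by positivity)
    have hu' : L ≤ u.sum := (mem_filter.1 hu).2
    exact pow_le_pow_of_le_one h0.le h1.le hu'
  obtain ⟨C₁, hC₁, hup⟩ := DB_upper' W (Or.inl rfl) hmxU hε
  set C₂ : ℝ := ((2 * L : ℕ) : ℝ) ^ L * Real.exp (L * |Real.log c|) with hC₂
  set C₃ : ℝ := C₁ * Real.exp ((A + 1) * |Real.log c|) * ((2 * L : ℕ) : ℝ) ^ (A + 1) with hC₃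
  have h2L : (0 : ℝ) < ((2 * L : ℕ) : ℝ) := by exact_mod_cast (by omega : 0 < 2 * L)
  have hC₂0 : 0 < C₂ := by positivity
  have hC₃0 : 0 < C₃ := by positivity
  refine ⟨C₂ + C₃, by positivity, fun k o a => ?_⟩
  have hk0 : (0 : ℝ) ≤ k := Nat.cast_nonneg k
  rcases Nat.lt_or_ge k o with hko | hko
  · have : Rg L A k o a = ∅ := by
      ext n
      simp only [Rg, Set.mem_setOf_eq, Set.mem_empty_iff_false, iff_false]
      rintro ⟨_, h2, _⟩
      have := oc_le k n
      omega
    rw [this, Set.ncard_empty]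
    push_cast
    positivity
  have hko' : (o : ℝ) ≤ k := by exact_mod_cast hko
  rcases Nat.lt_or_ge k L with hkL | hkL
  · have e1 : ((Rg L A k o a).ncard : ℝ) ≤ ((2 * L : ℕ) : ℝ) ^ L := by
      exact_mod_cast short_count hkL a
    have e2 : ((2 * L : ℕ) : ℝ) ^ L ≤ C₂ * Real.exp (ε * k + k * (-Real.log z) +
        o * Real.log c) := by
      rw [hC₂, mul_assoc, ← Real.exp_add]
      have e3 : 1 ≤ Real.exp (L * |Real.log c| + (ε * k + k * (-Real.log z) + o * Real.log c)) := by
        apply Real.one_le_exp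
        have e4 : (o : ℝ) * |Real.log c| ≤ L * |Real.log c| := by
          apply mul_le_mul_of_nonneg_right _ (abs_nonneg _)
          exact_mod_cast (by omega : o ≤ L)
        have e5 : -((o : ℝ) * |Real.log c|) ≤ o * Real.log c := by
          have := neg_abs_le (Real.log c)
          nlinarith [Nat.cast_nonneg (α := ℝ) o]
        have e6 : 0 ≤ ε * k + k * (-Real.log z) := by positivity
        linarith
      have e7 : (0 : ℝ) ≤ ((2 * L : ℕ) : ℝ) ^ L := by positivity
      nlinarith
    refine e1.trans (e2.trans ?_)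
    apply mul_le_mul_of_nonneg_right _ (Real.exp_pos _).le
    linarith
  · set j := o / (A + 1) with hj
    have hjo : j ≤ o := Nat.div_le_self _ _
    have hdm := Nat.div_add_mod o (A + 1)
    have hmod := Nat.mod_lt o (show 0 < A + 1 by omega)
    set N := ((VB 3 W j a).filter fun w => w.sum ≤ k).card with hN
    have e1 : ((Rg L A k o a).ncard : ℝ) ≤ N * ((2 * L : ℕ) : ℝ) ^ (A + 1) := by
      exact_mod_cast long_count hL hkL h0 a
    -- the weighted count
    have e2 : (N : ℝ) * z ^ k * ((3 : ℝ) ^ (A + 1) / SS W) ^ j ≤ DB 3 W j a := by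
      have e3 : (N : ℝ) * z ^ k * ((3 : ℝ) ^ (A + 1) / SS W) ^ j =
          ∑ w ∈ (VB 3 W j a).filter (fun w => w.sum ≤ k),
            z ^ k * ((3 : ℝ) ^ (A + 1) / SS W) ^ j := by
        rw [sum_const, nsmul_eq_mul, mul_assoc]
      rw [e3]
      unfold DB
      refine (sum_le_sum fun w hw => ?_).trans
        (sum_le_sum_of_subset_of_nonneg (filter_subset _ _) fun w _ _ => zw_nonneg (by norm_num) w)
      obtain ⟨hw1, hw2⟩ := mem_filter.1 hw
      have hl := len_Bw (mem_VB.1 hw1).1
      have e4 : zw 3 W w = ((3 : ℝ) ^ (A + 1) / SS W) ^ j * z ^ w.sum := by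
        unfold zw
        rw [hl, pow_mul, tt_pow, hWb, hWz]
        push_cast
        rfl
      rw [e4, mul_comm]
      exact mul_le_mul_of_nonneg_left (pow_le_pow_of_le_one h0.le h1.le hw2) (by positivity)
    have e5 := e2.trans (hup j a)
    -- the base
    have hbase : (SS W / (3 : ℝ) ^ (A + 1)) * Real.exp (max 0 (Real.log mx)) ≤ c ^ (A + 1) := by
      rcases le_total (Real.log mx) 0 with h | h
      · rw [max_eq_left h, Real.exp_zero, mul_one]
        refine le_trans ?_ hP1
        rw [div_le_iff₀ (by positivity), ← mul_pow]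
        have : z / (3 * (1 - z)) * 3 = z / (1 - z) := by
          field_simp
        rw [this]
        exact hSSle
      · rw [max_eq_right h, Real.exp_log hmx0, hmx]
        have : SS W / (3 : ℝ) ^ (A + 1) * ((3 : ℝ) ^ (A + 1) / SS W * z ^ L) = z ^ L := by
          field_simp
        rw [this]
        exact hP2
    have e6 : (N : ℝ) * z ^ k ≤ C₁ * Real.exp (ε * j) * (c ^ (A + 1)) ^ j := by
      have hq : 0 < ((3 : ℝ) ^ (A + 1) / SS W) ^ j := by positivity
      have e7 : Real.exp ((max 0 (Real.log mx) + ε) * j) =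
          Real.exp (ε * j) * Real.exp (max 0 (Real.log mx)) ^ j := by
        rw [← Real.exp_nat_mul, ← Real.exp_add]
        congr 1
        ring
      rw [e7] at e5
      have e8 : (N : ℝ) * z ^ k ≤ C₁ * (Real.exp (ε * j) * Real.exp (max 0 (Real.log mx)) ^ j) /
          ((3 : ℝ) ^ (A + 1) / SS W) ^ j := by
        rw [le_div_iff₀ hq]
        exact e5
      refine e8.trans (le_of_eq_of_le ?_ (mul_le_mul_of_nonneg_left
        (pow_le_pow_left₀ (by positivity) hbase j) (by positivity)))
      rw [mul_pow, div_pow, div_pow]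
      field_simp
    have e9 : (c ^ (A + 1)) ^ j ≤ Real.exp ((A + 1) * |Real.log c|) * Real.exp (o * Real.log c) := by
      rw [← pow_mul, ← Real.exp_add]
      have e10 : c ^ ((A + 1) * j) = Real.exp (((A + 1) * j : ℕ) * Real.log c) := by
        rw [Real.exp_nat_mul, Real.exp_log hc0]
      rw [e10]
      apply Real.exp_le_exp.2
      have e11 : (o : ℝ) = (((A + 1) * j : ℕ) : ℝ) + ((o % (A + 1) : ℕ) : ℝ) := by
        exact_mod_cast hdm.symm
      rw [e11]
      have e12 : ((o % (A + 1) : ℕ) : ℝ) * |Real.log c| ≤ (A + 1) * |Real.log c| := by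
        apply mul_le_mul_of_nonneg_right _ (abs_nonneg _)
        exact_mod_cast hmod.le
      have e13 : -(((o % (A + 1) : ℕ) : ℝ) * |Real.log c|) ≤
          ((o % (A + 1) : ℕ) : ℝ) * Real.log c := by
        have := neg_abs_le (Real.log c)
        nlinarith [Nat.cast_nonneg (α := ℝ) (o % (A + 1))]
      linarith
    have hzk : z ^ k = Real.exp (-(k * (-Real.log z))) := by
      have : -((k : ℝ) * (-Real.log z)) = k * Real.log z := by ring
      rw [this, Real.exp_nat_mul, Real.exp_log h0]
    have e14 : (N : ℝ) ≤ C₁ * Real.exp ((A + 1) * |Real.log c|) *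
        Real.exp (ε * k + k * (-Real.log z) + o * Real.log c) := by
      have e15 : (N : ℝ) * z ^ k ≤ C₁ * Real.exp (ε * k) *
          (Real.exp ((A + 1) * |Real.log c|) * Real.exp (o * Real.log c)) := by
        refine e6.trans ?_
        apply mul_le_mul _ e9 (by positivity) (by positivity)
        apply mul_le_mul_of_nonneg_left _ hC₁.le
        apply Real.exp_le_exp.2
        apply mul_le_mul_of_nonneg_left _ hε.le
        exact_mod_cast hjo.trans hko
      rw [hzk, Real.exp_neg, mul_inv_le_iff₀ (Real.exp_pos _)] at e15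
      refine e15.trans (le_of_eq ?_)
      have e16 : Real.exp (ε * k + k * (-Real.log z) + o * Real.log c) =
          Real.exp (ε * k) * Real.exp (k * (-Real.log z)) * Real.exp (o * Real.log c) := by
        rw [← Real.exp_add, ← Real.exp_add]
      rw [e16]
      ring
    calc ((Rg L A k o a).ncard : ℝ) ≤ N * ((2 * L : ℕ) : ℝ) ^ (A + 1) := e1
      _ ≤ (C₁ * Real.exp ((A + 1) * |Real.log c|) *
        Real.exp (ε * k + k * (-Real.log z) + o * Real.log c)) * ((2 * L : ℕ) : ℝ) ^ (A + 1) :=
          mul_le_mul_of_nonneg_right e14 (by positivity)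
      _ = C₃ * Real.exp (ε * k + k * (-Real.log z) + o * Real.log c) := by rw [hC₃]; ring
      _ ≤ _ := by
          apply mul_le_mul_of_nonneg_right _ (Real.exp_pos _).le
          linarith

end Pool.Agent.Y966.UB
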