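import Pool.Agent.H377R2.NK.Core
import Pool.Agent.Y966.NQ.Upper
import Pool.Agent.Y966.UB.LawR

/-! The growth of the moments of the numbers of words over a block alphabet, and the sup law. -/

set_option autoImplicit false
set_option linter.unusedVariables false

namespace Pool.Agent.Y966.UB

open Finset Filter Topology Pool.Agent.H377R2.NK

open Law

section

variable {p q : ℕ} {W : Alph}

theorem one_le_M (W : Alph) : 1 ≤ W.M := by
  obtain ⟨u, hu⟩ := W.ne
  have h1 := W.sz u hu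
  have h2 : u.length ≤ u.sum := List.length_le_sum_of_one_le u (W.pos u hu)
  rw [W.len u hu] at h2
  have h3 := W.hb
  by_contra h
  have : W.M = 0 := by omega
  rw [this] at h1
  omega

lemma sub_log (W : Alph) (hp : p = 3 ∨ p = 5) (hq : 2 ≤ q) :
    Subadditive fun n => Real.log (Zb p W n q) := by
  intro m n
  have h1 := Zpos (W := W) (q := q) hp (by omega) m
  have h2 := Zpos (W := W) (q := q) hp (by omega) n
  have h3 := Zpos (W := W) (q := q) hp (by omega) (m + n)
  rw [← Real.log_mul h1.ne' h2.ne']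
  exact Real.log_le_log h3 (Zb_sub (odd' hp) (by omega) m n)

lemma le_log_Zb (hp : p = 3 ∨ p = 5) (hq : 2 ≤ q) (n : ℕ) :
    (n : ℝ) * (W.b * Real.log p) ≤ Real.log (Zb p W n q) := by
  have h := Zb_ge_mean (W := W) (odd' hp) (q := q) (by omega) n
  have h2 : (0 : ℝ) < (p : ℝ) ^ (W.b * n) := by
    have : 0 < p := by omega
    positivity
  have h3 := Real.log_le_log h2 h
  rw [Real.log_pow] at h3
  push_cast at h3
  linarith

lemma bdd (W : Alph) (hp : p = 3 ∨ p = 5) (hq : 2 ≤ q) :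
    BddBelow (Set.range fun n : ℕ => Real.log (Zb p W n q) / n) := by
  refine ⟨0, ?_⟩
  rintro _ ⟨n, rfl⟩
  have h := le_log_Zb (W := W) hp hq n
  have hp1 : (1 : ℝ) ≤ p := by
    have : 1 ≤ p := by omega
    exact_mod_cast this
  have h2 := Real.log_nonneg hp1
  have : 0 ≤ (n : ℝ) * (W.b * Real.log p) := by positivity
  exact div_nonneg (by linarith) (Nat.cast_nonneg _)

/-- the exponential growth rate of the moments -/
theorem lim_le (W : Alph) (hp : p = 3 ∨ p = 5) (hq : 2 ≤ q) :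
    (sub_log (p := p) (q := q) W hp hq).lim ≤ max (W.b * Real.log p) (L1 p W q) := by
  by_contra hcon
  push Not at hcon
  set u : ℕ → ℝ := fun n => Real.log (Zb p W n q) with hu
  set L : ℝ := (sub_log (p := p) (q := q) W hp hq).lim with hL
  have hLp : W.b * Real.log p < L := lt_of_le_of_lt (le_max_left _ _) hcon
  have hLL : L1 p W q < L := lt_of_le_of_lt (le_max_right _ _) hcon
  have hb1 : (1 : ℝ) ≤ W.b := by exact_mod_cast W.hb
  have hb0 : (0 : ℝ) < W.b := by linarith
  set κ : ℝ := L / W.b - Real.log p with hκ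
  have hκ0 : 0 < κ := by
    rw [hκ, sub_pos, lt_div_iff₀ hb0]
    linarith
  have hprime := NQ.prime_of hp
  have hlogp := NQ.log_p_gt hp
  have hLpos : 1 < L := by nlinarith
  have hqr2 : (2 : ℝ) ≤ q := by exact_mod_cast hq
  have hq10 : (0 : ℝ) < q - 1 := by linarith
  have hM1 := one_le_M W
  have hMr : (1 : ℝ) ≤ W.M := by exact_mod_cast hM1
  have hp0 : (0 : ℝ) < p := by exact_mod_cast hprime.pos
  set c : ℝ := (L - L1 p W q) / (2 * W.M * W.b * (q - 1)) with hc
  have hc0 : 0 < c := by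
    rw [hc]
    apply div_pos (by linarith) (by positivity)
  have h120 : (L - L1 p W q) / (q - 1) = 2 * (c * (W.b * W.M)) := by
    rw [hc]
    field_simp
  obtain ⟨ε₀, hε₀, hcore⟩ := core hprime hq hc0 hκ0
  have htend : Tendsto (fun n : ℕ => u n / n) atTop (𝓝 L) :=
    (sub_log (p := p) (q := q) W hp hq).tendsto_lim (bdd W hp hq)
  have hLle : ∀ n : ℕ, n * L ≤ u n := by
    intro n
    rcases Nat.eq_zero_or_pos n with rfl | hn
    · have := le_log_Zb (W := W) hp hq 0
      simpa using this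
    · have := (sub_log (p := p) (q := q) W hp hq).lim_le_div (bdd W hp hq) hn.ne'
      have hn' : (0 : ℝ) < n := by exact_mod_cast hn
      rw [le_div_iff₀ hn'] at this
      linarith
  have hev : ∀ d : ℝ, 0 < d → ∃ n₁ : ℕ, 1 ≤ n₁ ∧ ∀ n, n₁ ≤ n → u n ≤ (L + d) * n := by
    intro d hd
    have h1 : ∀ᶠ n : ℕ in atTop, u n / n < L + d := (tendsto_order.1 htend).2 _ (by linarith)
    obtain ⟨n₁, hn₁⟩ := eventually_atTop.1 h1
    refine ⟨max n₁ 1, le_max_right _ _, fun n hn => ?_⟩
    have hn1 : 1 ≤ n := le_trans (le_max_right _ _) hn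
    have hn0 : (0 : ℝ) < n := by exact_mod_cast hn1
    have := hn₁ n (le_trans (le_max_left _ _) hn)
    rw [div_lt_iff₀ hn0] at this
    exact this.le
  -- the window length
  obtain ⟨l₁, hl₁1, hl₁⟩ := hev (W.b * ε₀ / 8) (by positivity)
  obtain ⟨l₂, hl₂⟩ := exists_nat_ge (8 * q * Real.log p / ε₀)
  obtain ⟨l, hldef⟩ : ∃ l : ℕ, l = l₁ + l₂ := ⟨_, rfl⟩
  have hl1 : 1 ≤ l := by omega
  have hul : u l ≤ (L + W.b * ε₀ / 8) * l := hl₁ l (by omega)
  have hlr : (0 : ℝ) < l := by exact_mod_cast hl1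
  have hl2 : 8 * q * Real.log p / ε₀ ≤ l := hl₂.trans (by exact_mod_cast (by omega : l₂ ≤ l))
  have hbl1 : 1 ≤ W.b * l := Nat.mul_pos W.hb hl1
  obtain ⟨δ, hδ, m₀, hm⟩ := hcore (W.b * l) hbl1
  have hζ : ((W.b * l : ℕ) : ℝ) * (Real.log p + κ) ≤ u l := by
    have h1 := hLle l
    have h2 : ((W.b * l : ℕ) : ℝ) * (Real.log p + κ) = l * L := by
      rw [hκ]
      push_cast
      field_simp
      ring
    rw [h2]
    exact h1
  -- the small parameter
  set d : ℝ := min (c / 48) (min (δ / 8) (ε₀ / 64)) with hd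
  have hd0 : 0 < d := by
    rw [hd]
    exact lt_min (by positivity) (lt_min (by positivity) (by positivity))
  have hdc : d ≤ c / 48 := min_le_left _ _
  have hdδ : d ≤ δ / 8 := le_trans (min_le_right _ _) (min_le_left _ _)
  have hdε : d ≤ ε₀ / 64 := le_trans (min_le_right _ _) (min_le_right _ _)
  obtain ⟨n₁, hn₁, hev1⟩ := hev d hd0
  set K0 : ℝ := c / 4 - 1 - Real.log (c / 4) with hK0
  obtain ⟨k₁, hk₁⟩ := exists_nat_ge (|K0| / (c / 4))
  obtain ⟨k₃, hk₃⟩ := exists_nat_ge (2 * q * l * Real.log p / (ε₀ / 8))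
  set k : ℕ := n₁ + k₁ + k₃ + m₀ + l + 1 with hk
  have hk1 : 1 ≤ k := by omega
  have hkr : (1 : ℝ) ≤ k := by exact_mod_cast hk1
  have hkk₁ : (k₁ : ℝ) ≤ k := by exact_mod_cast (show k₁ ≤ k by omega)
  have hkk₃ : (k₃ : ℝ) ≤ k := by exact_mod_cast (show k₃ ≤ k by omega)
  have hkM : k ≤ W.M * k := Nat.le_mul_of_pos_left _ (by omega)
  have hkbM : W.M * k ≤ W.b * (W.M * k) := Nat.le_mul_of_pos_left _ W.hb
  have e1 : K0 ≤ c / 4 * k := by
    have h1 : |K0| / (c / 4) ≤ k := le_trans hk₁ hkk₁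
    rw [div_le_iff₀ (by positivity)] at h1
    have := le_abs_self K0
    linarith
  have e3 : 2 * q * l * Real.log p ≤ ε₀ / 8 * k := by
    have h1 := le_trans hk₃ hkk₃
    rw [div_le_iff₀ (by positivity)] at h1
    linarith
  have huk : u k ≤ (L + d) * k := hev1 k (by omega)
  have hu60 : u (W.M * k) ≤ (L + d) * (W.M * k) := by
    have := hev1 (W.M * k) (by omega)
    push_cast at this
    exact this
  have hu61 : (k + W.M * k) * L ≤ u (k + W.M * k) := by
    have := hLle (k + W.M * k)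
    push_cast at this
    linarith
  have hMk0 : (0 : ℝ) ≤ (W.M : ℝ) * k := by positivity
  have hkMk : (k : ℝ) ≤ W.M * k := by exact_mod_cast hkM
  have hMkb : (W.M : ℝ) * k ≤ W.b * (W.M * k) := by exact_mod_cast hkbM
  set N : ℝ := (W.b : ℝ) * (W.M * k) with hN
  have hN0 : 0 ≤ N := by rw [hN]; positivity
  set GEE : ℝ := GE p W k (W.M * k) q with hGE
  have hGEeq : GEE = u k + u (W.M * k) - u (k + W.M * k) := rfl
  have hdk : 0 ≤ d * k := by positivity
  have hdkM : d * k ≤ d * (W.M * k) := mul_le_mul_of_nonneg_left hkMk hd0.le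
  have hdkN : d * (W.M * k) ≤ d * N := mul_le_mul_of_nonneg_left hMkb hd0.le
  have hGEle : GEE ≤ 2 * (d * N) := by
    rw [hGEeq]
    have h6 : (L + d) * (W.M * k) = L * (W.M * k) + d * (W.M * k) := by ring
    have h7 : ((k : ℝ) + W.M * k) * L = k * L + L * (W.M * k) := by ring
    have h8 : (L + d) * k = k * L + d * k := by ring
    linarith
  have hcast : (((W.b * (W.M * k) : ℕ)) : ℝ) = N := by rw [hN]; push_cast; ring
  have hlM : l ≤ W.M * k := by omega
  refine hm (W.b * (W.M * k)) (by omega) (u l) hζ (Gs p W k (W.M * k)) (Gw p W k (W.M * k) q)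
    (Gγ p (W.b * k)) (GX p (W.b * k)) (GY p (W.b * k))
    (fun i g y => GR p W k (W.M * k) l i g y)
    (fun ω _ => Gw_nonneg' hp (by omega) ω) (Gw_total' hp (by omega))
    (fun i g y => GR_nonneg hp _ i g y)
    (fun i hi => GR_pos hp hq i hi)
    (fun i hi ω hω => GR_sum hp _ i hi _ _)
    (fun i hi ω hω => ?_) ?_ ?_ ?_
  · have h1 := GR_sum_pow (W := W) (k := k) hp hq (W.M * k) i hi (Gγ p (W.b * k) ω)
      (GY p (W.b * k) ω % (p : ℤ) ^ i)
    show _ ≤ Real.exp (Real.log (Zb p W l q))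
    rw [Real.exp_log (Zpos hp (by omega) l)]
    exact h1
  · refine le_trans ?_ (law_X hp hq)
    rw [hcast]
    have hX : 2 * (c * N) ≤ (u k - k * L1 p W q) / (q - 1) := by
      have h1 : (L - L1 p W q) / (q - 1) * k ≤ (u k - k * L1 p W q) / (q - 1) := by
        rw [div_mul_eq_mul_div]
        apply div_le_div_of_nonneg_right _ hq10.le
        have := hLle k
        nlinarith
      rw [h120] at h1
      have h2 : 2 * (c * (W.b * W.M)) * k = 2 * (c * N) := by rw [hN]; ring
      rw [h2] at h1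
      exact h1
    have hlogk : Real.log (W.M * (W.b * k) + 1) ≤ c / 4 * N + K0 := by
      have e : (W.M : ℝ) * (W.b * k) = N := by rw [hN]; ring
      rw [e]
      have hx : (0 : ℝ) < N + 1 := by linarith
      have h1 := Real.log_le_sub_one_of_pos (mul_pos (show (0 : ℝ) < c / 4 by positivity) hx)
      rw [Real.log_mul (by positivity) hx.ne'] at h1
      rw [hK0]
      linarith
    have h3 : d * N ≤ c / 48 * N := mul_le_mul_of_nonneg_right hdc hN0
    have h4 : c / 4 * k ≤ c / 4 * N := mul_le_mul_of_nonneg_left (by linarith) (by positivity)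
    have h5 : 0 ≤ c * N := by positivity
    show c * N ≤ (u k - k * L1 p W q) / (q - 1) - 3 * GEE - Real.log (W.M * (W.b * k) + 1)
    linarith
  · refine le_trans (law_sum hp hq) ?_
    rw [hcast]
    show 4 * GEE ≤ δ * N
    have h3 : d * N ≤ δ / 8 * N := mul_le_mul_of_nonneg_right hdδ hN0
    linarith
  · intro r hr
    refine le_trans ?_ (law_R hp hq hl1 hlM r hr)
    rw [hcast]
    show u l / ((W.b * l : ℕ) : ℝ) * N - ε₀ * N ≤
      u (W.M * k) - 2 * GEE - q * ((2 * l + ((W.M * k : ℕ) : ℝ) / l) * (W.b * Real.log p))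
    have h1 : u l / ((W.b * l : ℕ) : ℝ) * N ≤ L * (W.M * k) + ε₀ / 8 * N := by
      have h2 : u l / ((W.b * l : ℕ) : ℝ) * N = u l / l * (W.M * k) := by
        rw [hN]
        push_cast
        field_simp
      rw [h2]
      have h3 : u l / l ≤ L + W.b * ε₀ / 8 := by rw [div_le_iff₀ hlr]; exact hul
      have h4 := mul_le_mul_of_nonneg_right h3 hMk0
      refine h4.trans (le_of_eq ?_)
      rw [hN]; ring
    have h2 : L * (W.M * k) ≤ u (W.M * k) := by
      have := hLle (W.M * k)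
      push_cast at this
      linarith
    have h3 : d * N ≤ ε₀ / 64 * N := mul_le_mul_of_nonneg_right hdε hN0
    have h4 : q * ((2 * l + ((W.M * k : ℕ) : ℝ) / l) * (W.b * Real.log p)) ≤ ε₀ / 4 * N := by
      have e : q * ((2 * l + ((W.M * k : ℕ) : ℝ) / l) * (W.b * Real.log p)) =
          W.b * (2 * q * l * Real.log p) + (8 * q * Real.log p) / 8 * (N / l) := by
        rw [hN]
        push_cast
        field_simp
      rw [e]
      have h5 : (8 * q * Real.log p) ≤ ε₀ * l := by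
        rw [div_le_iff₀ hε₀] at hl2
        linarith
      have h6 : (8 * q * Real.log p) / 8 * (N / l) ≤ ε₀ * l / 8 * (N / l) :=
        mul_le_mul_of_nonneg_right (by linarith) (by positivity)
      have h7 : ε₀ * l / 8 * (N / l) = ε₀ / 8 * N := by field_simp
      have h8 : W.b * (2 * q * l * Real.log p) ≤ ε₀ / 8 * N := by
        have h9 := mul_le_mul_of_nonneg_left e3 hb0.le
        have h10 : (W.b : ℝ) * (ε₀ / 8 * k) ≤ ε₀ / 8 * N := by
          rw [hN]
          have : ε₀ / 8 * (W.b * k) ≤ ε₀ / 8 * (W.b * (W.M * k)) :=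
            mul_le_mul_of_nonneg_left (mul_le_mul_of_nonneg_left hkMk hb0.le) (by positivity)
          linarith
        linarith
      linarith
    have h5 : 0 ≤ ε₀ * N := by positivity
    linarith

/-- THE MOMENTS -/
theorem Zb_upper (W : Alph) (hp : p = 3 ∨ p = 5) (hq : 2 ≤ q) {ε : ℝ} (hε : 0 < ε) :
    ∃ n₀ : ℕ, ∀ n, n₀ ≤ n → Zb p W n q ≤
      Real.exp ((max (W.b * Real.log p) (L1 p W q) + ε) * n) := by
  have h1 : ∀ᶠ n : ℕ in atTop, Real.log (Zb p W n q) / n <
      max (W.b * Real.log p) (L1 p W q) + ε :=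
    (tendsto_order.1 ((sub_log (p := p) (q := q) W hp hq).tendsto_lim (bdd W hp hq))).2 _
      (by have := lim_le (p := p) (q := q) W hp hq; linarith)
  obtain ⟨n₁, hn₁⟩ := eventually_atTop.1 h1
  refine ⟨max n₁ 1, fun n hn => ?_⟩
  have hn1 : 1 ≤ n := le_trans (le_max_right _ _) hn
  have hn0 : (0 : ℝ) < n := by exact_mod_cast hn1
  have h2 := hn₁ n (le_trans (le_max_left _ _) hn)
  rw [div_lt_iff₀ hn0] at h2
  rw [← Real.log_le_iff_le_exp (Zpos hp (by omega) n)]
  exact h2.le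

end

/-- THE SUP LAW: for every integer target, the total weight of the words of `n` blocks over the
alphabet is at most `max(1, max weight of a block)^n` up to a subexponential factor -/
theorem DB_upper {p : ℕ} (W : Alph) (hp : p = 3 ∨ p = 5) {mx : ℝ}
    (hmx : ∀ u ∈ W.U, zw p W u ≤ mx) {ε : ℝ} (hε : 0 < ε) :
    ∃ n₀ : ℕ, ∀ n, n₀ ≤ n → ∀ x : ℤ, DB p W n x ≤
      Real.exp ((max 0 (Real.log mx) + ε) * n) := by
  have hc := card_pos W
  have hlogp := NQ.log_p_gt hp
  have hb0 : (0 : ℝ) < W.b := by exact_mod_cast W.hb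
  have hp1 : 1 ≤ p := by omega
  have hp0 : (0 : ℝ) < p := by exact_mod_cast hp1
  have hmx0 : 0 < mx := by
    obtain ⟨u, hu⟩ := W.ne
    exact lt_of_lt_of_le (zw_pos hp1 u) (hmx u hu)
  set B : ℝ := W.b * Real.log p with hB
  have hB0 : 0 < B := by
    rw [hB]
    have : 0 < Real.log p := by linarith
    positivity
  set h : ℝ := Real.log W.U.card with hh
  have hh0 : 0 ≤ h := Real.log_nonneg (by
    have := W.ne.card_pos
    exact_mod_cast this)
  -- choose `q`
  obtain ⟨q₀, hq₀⟩ := exists_nat_ge ((B + h) / (ε / 2))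
  set q : ℕ := q₀ + 2 with hq
  have hq2 : 2 ≤ q := by omega
  have hqr : (B + h) / (ε / 2) ≤ q := hq₀.trans (by exact_mod_cast (by omega : q₀ ≤ q))
  have hqr' : B + h ≤ q * (ε / 2) := by rwa [div_le_iff₀ (by positivity)] at hqr
  have hq0 : (0 : ℝ) < q := by exact_mod_cast (by omega : 0 < q)
  obtain ⟨n₀, hn₀⟩ := Zb_upper (p := p) (q := q) W hp hq2 (show (0 : ℝ) < ε / 2 by positivity)
  refine ⟨n₀, fun n hn x => ?_⟩
  have h1 := hn₀ n hn
  have hL1 : L1 p W q ≤ h + q * Real.log mx := by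
    unfold L1
    rw [hh, ← Real.log_pow, ← Real.log_mul hc.ne' (by positivity)]
    apply Real.log_le_log
    · exact sum_pos (fun u _ => pow_pos (zw_pos hp1 u) _) W.ne
    · rw [← nsmul_eq_mul, ← sum_const]
      exact sum_le_sum fun u hu => pow_le_pow_left₀ (zw_nonneg hp1 u) (hmx u hu) q
  -- reduce to a residue
  have hmod : ∃ y ∈ range (p ^ (W.b * n)), DB p W n (y : ℤ) = DB p W n x := by
    have hpos : (0 : ℤ) < (p : ℤ) ^ (W.b * n) := by positivity
    refine ⟨(x % (p : ℤ) ^ (W.b * n)).toNat, ?_, ?_⟩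
    · rw [mem_range]
      have h2 := Int.emod_lt_of_pos x hpos
      have h3 := Int.emod_nonneg x hpos.ne'
      zify
      rw [Int.toNat_of_nonneg h3]
      exact_mod_cast h2
    · rw [Int.toNat_of_nonneg (Int.emod_nonneg x hpos.ne')]
      have h2 := Int.emod_add_mul_ediv x ((p : ℤ) ^ (W.b * n))
      conv_rhs => rw [← h2]
      rw [DB_shift]
  obtain ⟨y, hy, hyx⟩ := hmod
  have h2 : DB p W n (y : ℤ) ^ q ≤ Zb p W n q :=
    single_le_sum (f := fun x : ℕ => DB p W n (x : ℤ) ^ q)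
      (fun x _ => pow_nonneg (DB_nonneg hp1 _ _) _) hy
  rw [hyx] at h2
  rcases (DB_nonneg (W := W) hp1 n x).lt_or_eq with h0 | h0
  · have h3 := h2.trans h1
    have h4 := Real.log_le_log (by positivity) h3
    rw [Real.log_exp, Real.log_pow] at h4
    rw [← Real.log_le_iff_le_exp h0]
    have hn0 : (0 : ℝ) ≤ n := Nat.cast_nonneg n
    have h6 : max B (L1 p W q) ≤ q * max 0 (Real.log mx) + (B + h) := by
      have h7 : 0 ≤ max 0 (Real.log mx) := le_max_left _ _
      have h8 := mul_nonneg hq0.le h7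
      apply max_le
      · linarith
      · have h9 : q * Real.log mx ≤ q * max 0 (Real.log mx) :=
          mul_le_mul_of_nonneg_left (le_max_right _ _) hq0.le
        linarith
    have hmul : q * Real.log (DB p W n x) ≤ q * ((max 0 (Real.log mx) + ε) * n) := by
      have h8 : (max B (L1 p W q) + ε / 2) * n ≤
          (q * max 0 (Real.log mx) + (B + h) + ε / 2) * n :=
        mul_le_mul_of_nonneg_right (by linarith) hn0
      have h9 : (B + h) * n ≤ q * (ε / 2) * n := mul_le_mul_of_nonneg_right hqr' hn0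
      have h10 : ε / 2 * n ≤ q * (ε / 2) * n := by
        apply mul_le_mul_of_nonneg_right _ hn0
        have : (1 : ℝ) ≤ q := by exact_mod_cast (by omega : 1 ≤ q)
        nlinarith
      nlinarith
    exact le_of_mul_le_mul_left hmul hq0
  · rw [← h0]
    exact (Real.exp_pos _).le

/-- with a constant -/
theorem DB_upper' {p : ℕ} (W : Alph) (hp : p = 3 ∨ p = 5) {mx : ℝ}
    (hmx : ∀ u ∈ W.U, zw p W u ≤ mx) {ε : ℝ} (hε : 0 < ε) :
    ∃ C : ℝ, 0 < C ∧ ∀ (n : ℕ) (x : ℤ), DB p W n x ≤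
      C * Real.exp ((max 0 (Real.log mx) + ε) * n) := by
  obtain ⟨n₀, hn₀⟩ := DB_upper W hp hmx hε
  have hp1 : 1 ≤ p := by omega
  have hp1' : (1 : ℝ) ≤ (p : ℝ) ^ W.b := one_le_pow₀ (by exact_mod_cast hp1)
  have hC : (1 : ℝ) ≤ ((p : ℝ) ^ W.b) ^ n₀ := one_le_pow₀ hp1'
  refine ⟨((p : ℝ) ^ W.b) ^ n₀, by positivity, fun n x => ?_⟩
  rcases le_or_gt n₀ n with h | h
  · refine (hn₀ n h x).trans ?_
    have := Real.exp_pos ((max 0 (Real.log mx) + ε) * n)
    nlinarith
  · refine (DB_le (odd' hp) n x).trans ?_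
    have h6 : ((p : ℝ) ^ W.b) ^ n ≤ ((p : ℝ) ^ W.b) ^ n₀ := pow_le_pow_right₀ hp1' h.le
    have h7 : 1 ≤ Real.exp ((max 0 (Real.log mx) + ε) * n) := by
      apply Real.one_le_exp
      have : 0 ≤ max 0 (Real.log mx) := le_max_left _ _
      positivity
    nlinarith

end Pool.Agent.Y966.UB
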